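import Mathlib

open Finset

namespace Pool.Agent.Lib.MP_f702fa_pr

section Chain

variable {T T' : Type*} {d : ℕ}

/-- `a` lies strictly below `b` in every coordinate. -/
def Below (x : T → Fin d → ℝ) (a b : T) : Prop := ∀ j, x a j < x b j

/-- any two distinct elements of `C` are comparable for `Below x`. -/
def IsCh (x : T → Fin d → ℝ) (C : Finset T) : Prop :=
  ∀ a ∈ C, ∀ b ∈ C, a ≠ b → Below x a b ∨ Below x b a

open Classical in
/-- the maximal number of elements of a chain in `A`. -/
noncomputable def clen (A : Finset T) (x : T → Fin d → ℝ) : ℕ :=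
  (A.powerset.filter (IsCh x)).sup card

lemma IsCh.subset {x : T → Fin d → ℝ} {C C' : Finset T} (h : IsCh x C) (hs : C' ⊆ C) :
    IsCh x C' := fun a ha b hb hab => h a (hs ha) b (hs hb) hab

lemma isCh_empty (x : T → Fin d → ℝ) : IsCh x (∅ : Finset T) := by
  intro a ha
  simp at ha

lemma isCh_singleton (x : T → Fin d → ℝ) (a : T) : IsCh x {a} := by
  intro b hb c hc hbc
  simp only [mem_singleton] at hb hc
  exact absurd (hb.trans hc.symm) hbc

lemma le_clen {A C : Finset T} {x : T → Fin d → ℝ} (hC : C ⊆ A) (h : IsCh x C) :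
    C.card ≤ clen A x := by
  classical
  unfold clen
  have : C ∈ A.powerset.filter (IsCh x) := by simp [hC, h]
  convert Finset.le_sup (f := card) this

lemma exists_clen (A : Finset T) (x : T → Fin d → ℝ) :
    ∃ C ⊆ A, IsCh x C ∧ C.card = clen A x := by
  classical
  have hne : (A.powerset.filter (IsCh x)).Nonempty :=
    ⟨∅, by simp [isCh_empty]⟩
  obtain ⟨C, hC, h⟩ := Finset.exists_mem_eq_sup _ hne card
  simp only [mem_filter, mem_powerset] at hC
  refine ⟨C, hC.1, hC.2, ?_⟩
  unfold clen
  convert h.symm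

lemma clen_le_card (A : Finset T) (x : T → Fin d → ℝ) : clen A x ≤ A.card := by
  obtain ⟨C, hC, -, h⟩ := exists_clen A x
  rw [← h]
  exact card_le_card hC

lemma clen_le_iff {A : Finset T} {x : T → Fin d → ℝ} {n : ℕ} :
    clen A x ≤ n ↔ ∀ C ⊆ A, IsCh x C → C.card ≤ n := by
  constructor
  · intro h C hC hc
    exact (le_clen hC hc).trans h
  · intro h
    obtain ⟨C, hC, hc, e⟩ := exists_clen A x
    rw [← e]
    exact h C hC hc

lemma le_clen_iff {A : Finset T} {x : T → Fin d → ℝ} {n : ℕ} :
    n ≤ clen A x ↔ ∃ C ⊆ A, IsCh x C ∧ C.card = n := by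
  constructor
  · intro h
    obtain ⟨C, hC, hc, e⟩ := exists_clen A x
    obtain ⟨C', hC', e'⟩ := exists_subset_card_eq (s := C) (n := n) (by omega)
    exact ⟨C', hC'.trans hC, hc.subset hC', e'⟩
  · rintro ⟨C, hC, hc, e⟩
    rw [← e]
    exact le_clen hC hc

@[simp] lemma clen_empty (x : T → Fin d → ℝ) : clen (∅ : Finset T) x = 0 := by
  have := clen_le_card (∅ : Finset T) x
  simpa using this

lemma clen_mono {A B : Finset T} (h : A ⊆ B) (x : T → Fin d → ℝ) : clen A x ≤ clen B x := by
  obtain ⟨C, hC, hc, e⟩ := exists_clen A x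
  rw [← e]
  exact le_clen (hC.trans h) hc

lemma clen_le_of_imp {A : Finset T} {x y : T → Fin d → ℝ}
    (h : ∀ a ∈ A, ∀ b ∈ A, Below x a b → Below y a b) : clen A x ≤ clen A y := by
  obtain ⟨C, hC, hc, e⟩ := exists_clen A x
  rw [← e]
  refine le_clen hC ?_
  intro a ha b hb hab
  rcases hc a ha b hb hab with h1 | h1
  · exact Or.inl (h a (hC ha) b (hC hb) h1)
  · exact Or.inr (h b (hC hb) a (hC ha) h1)

lemma clen_congr {A : Finset T} {x y : T → Fin d → ℝ}
    (h : ∀ a ∈ A, ∀ b ∈ A, (Below x a b ↔ Below y a b)) : clen A x = clen A y :=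
  le_antisymm (clen_le_of_imp fun a ha b hb => (h a ha b hb).1)
    (clen_le_of_imp fun a ha b hb => (h a ha b hb).2)

lemma clen_congr_of_eq {A : Finset T} {x y : T → Fin d → ℝ}
    (h : ∀ a ∈ A, ∀ j, x a j = y a j) : clen A x = clen A y := by
  refine clen_congr fun a ha b hb => ?_
  simp only [Below, h a ha, h b hb]

lemma clen_union_le [DecidableEq T] (A B : Finset T) (x : T → Fin d → ℝ) :
    clen (A ∪ B) x ≤ clen A x + clen B x := by
  obtain ⟨C, hC, hc, e⟩ := exists_clen (A ∪ B) x
  rw [← e]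
  have h1 : (C ∩ A).card ≤ clen A x := le_clen inter_subset_right (hc.subset inter_subset_left)
  have h2 : (C ∩ B).card ≤ clen B x := le_clen inter_subset_right (hc.subset inter_subset_left)
  have h3 : C = (C ∩ A) ∪ (C ∩ B) := by
    rw [← inter_union_distrib_left]
    exact (inter_eq_left.mpr hC).symm
  calc C.card = ((C ∩ A) ∪ (C ∩ B)).card := by rw [← h3]
    _ ≤ (C ∩ A).card + (C ∩ B).card := card_union_le _ _
    _ ≤ _ := by omega

/-- separated blocks: chain lengths add up. -/
lemma sum_clen_le [DecidableEq T] {M : ℕ} (A : Fin M → Finset T) (B : Finset T)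
    (hB : ∀ i, A i ⊆ B) (x : T → Fin d → ℝ) (hd : 0 < d)
    (hsep : ∀ i i', i < i' → ∀ a ∈ A i, ∀ b ∈ A i', Below x a b) :
    ∑ i, clen (A i) x ≤ clen B x := by
  choose C hC hc e using fun i => exists_clen (A i) x
  have hdisj : ∀ i i', i ≠ i' → Disjoint (C i) (C i') := by
    intro i i' hii
    rw [Finset.disjoint_left]
    intro a ha ha'
    rcases lt_or_gt_of_ne hii with h | h
    · exact lt_irrefl _ (hsep i i' h a (hC i ha) a (hC i' ha') ⟨0, hd⟩)
    · exact lt_irrefl _ (hsep i' i h a (hC i' ha') a (hC i ha) ⟨0, hd⟩)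
  have hcard : (Finset.univ.biUnion C).card = ∑ i, clen (A i) x := by
    rw [card_biUnion (fun i _ i' _ h => hdisj i i' h)]
    exact Finset.sum_congr rfl fun i _ => e i
  rw [← hcard]
  refine le_clen ?_ ?_
  · intro a ha
    simp only [mem_biUnion, mem_univ, true_and] at ha
    obtain ⟨i, hi⟩ := ha
    exact hB i (hC i hi)
  · intro a ha b hb hab
    simp only [mem_biUnion, mem_univ, true_and] at ha hb
    obtain ⟨i, hi⟩ := ha
    obtain ⟨i', hi'⟩ := hb
    rcases lt_trichotomy i i' with h | h | h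
    · exact Or.inl (hsep i i' h a (hC i hi) b (hC i' hi'))
    · subst h
      exact hc i a hi b hi' hab
    · exact Or.inr (hsep i' i h b (hC i' hi') a (hC i hi))

lemma clen_image [DecidableEq T] (e : T' → T) (A : Finset T') (he : Set.InjOn e A)
    (x : T → Fin d → ℝ) : clen (A.image e) x = clen A (fun a => x (e a)) := by
  classical
  apply le_antisymm
  · obtain ⟨C, hC, hc, e1⟩ := exists_clen (A.image e) x
    rw [← e1]
    set C' := A.filter (fun a => e a ∈ C) with hC'
    have h1 : C'.image e = C := by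
      ext b
      simp only [hC', mem_image, mem_filter]
      constructor
      · rintro ⟨a, ⟨-, h⟩, rfl⟩; exact h
      · intro hb
        obtain ⟨a, ha, rfl⟩ := mem_image.mp (hC hb)
        exact ⟨a, ⟨ha, hb⟩, rfl⟩
    have h2 : C'.card = C.card := by
      rw [← h1, card_image_of_injOn]
      intro a ha b hb hab
      simp only [hC', mem_coe, mem_filter] at ha hb
      exact he ha.1 hb.1 hab
    rw [← h2]
    refine le_clen (filter_subset _ _) ?_
    intro a ha b hb hab
    simp only [hC', mem_filter] at ha hb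
    have hne : e a ≠ e b := fun h => hab (he ha.1 hb.1 h)
    exact hc (e a) ha.2 (e b) hb.2 hne
  · obtain ⟨C, hC, hc, e1⟩ := exists_clen A (fun a => x (e a))
    rw [← e1, ← card_image_of_injOn (he.mono (by exact_mod_cast hC))]
    refine le_clen (image_subset_image hC) ?_
    intro a ha b hb hab
    obtain ⟨a', ha', rfl⟩ := mem_image.mp ha
    obtain ⟨b', hb', rfl⟩ := mem_image.mp hb
    exact hc a' ha' b' hb' (fun h => hab (by rw [h]))

end Chain

end Pool.Agent.Lib.MP_f702fa_pr
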