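import Mathlib

open MeasureTheory Function Finset
open scoped ENNReal

namespace Pool.Agent.Lib.MP_f702fa_pr

section Decouple

variable {δ : Type*} {X : Type*} [MeasurableSpace X]

/-- `g` ignores the value of the `r`-th coordinate as long as it lies outside `D r`, and such a
value gives the smallest possible value of `g`. -/
def Blind [DecidableEq δ] (D : δ → Set X) (g : (δ → X) → ℝ≥0∞) : Prop :=
  ∀ (u : δ → X) (r : δ) (x : X), x ∉ D r → g (update u r x) ≤ g u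

lemma anti_rearrange {a b c d : ℝ≥0∞} (hab : a ≤ b) (hdc : d ≤ c) :
    a * c + b * d ≤ a * d + b * c := by
  obtain ⟨e, rfl⟩ := exists_add_of_le hab
  obtain ⟨f, rfl⟩ := exists_add_of_le hdc
  have : a * (d + f) + (a + e) * d + e * f = a * d + (a + e) * (d + f) := by ring
  rw [← this]
  exact le_self_add

lemma two_fun_one (μ : Measure X) [IsProbabilityMeasure μ] (h₁ h₂ : X → ℝ≥0∞)
    (m₁ : Measurable h₁) (m₂ : Measurable h₂) (D₁ D₂ : Set X) (hD : Disjoint D₁ D₂)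
    (b₁ : ∀ x y, x ∉ D₁ → h₁ x ≤ h₁ y) (b₂ : ∀ x y, x ∉ D₂ → h₂ x ≤ h₂ y) :
    ∫⁻ x, h₁ x * h₂ x ∂μ ≤ (∫⁻ x, h₁ x ∂μ) * ∫⁻ x, h₂ x ∂μ := by
  have key : ∀ x y, h₁ x * h₂ x + h₁ y * h₂ y ≤ h₁ x * h₂ y + h₁ y * h₂ x := by
    intro x y
    by_cases hx : x ∈ D₁
    · have hx2 : x ∉ D₂ := Set.disjoint_left.mp hD hx
      by_cases hy : y ∈ D₁
      · have hy2 : y ∉ D₂ := Set.disjoint_left.mp hD hy
        have e : h₂ x = h₂ y := le_antisymm (b₂ x y hx2) (b₂ y x hy2)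
        rw [e]
      · have := anti_rearrange (b₁ y x hy) (b₂ x y hx2)
        calc h₁ x * h₂ x + h₁ y * h₂ y = h₁ y * h₂ y + h₁ x * h₂ x := by ring
          _ ≤ h₁ y * h₂ x + h₁ x * h₂ y := this
          _ = h₁ x * h₂ y + h₁ y * h₂ x := by ring
    · by_cases hy : y ∈ D₁
      · have hy2 : y ∉ D₂ := Set.disjoint_left.mp hD hy
        exact anti_rearrange (b₁ x y hx) (b₂ y x hy2)
      · have e : h₁ x = h₁ y := le_antisymm (b₁ x y hx) (b₁ y x hy)
        rw [e]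
        exact le_of_eq (by ring)
  have h2 : ∫⁻ x, ∫⁻ y, (h₁ x * h₂ x + h₁ y * h₂ y) ∂μ ∂μ ≤
      ∫⁻ x, ∫⁻ y, (h₁ x * h₂ y + h₁ y * h₂ x) ∂μ ∂μ :=
    lintegral_mono fun x => lintegral_mono fun y => key x y
  have hl : ∫⁻ x, ∫⁻ y, (h₁ x * h₂ x + h₁ y * h₂ y) ∂μ ∂μ = 2 * ∫⁻ x, h₁ x * h₂ x ∂μ := by
    have : ∀ x, ∫⁻ y, (h₁ x * h₂ x + h₁ y * h₂ y) ∂μ =
        h₁ x * h₂ x + ∫⁻ y, h₁ y * h₂ y ∂μ := by
      intro x
      rw [lintegral_add_left measurable_const, lintegral_const, measure_univ, mul_one]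
    simp_rw [this]
    rw [lintegral_add_right _ measurable_const, lintegral_const, measure_univ, mul_one, two_mul]
  have hr : ∫⁻ x, ∫⁻ y, (h₁ x * h₂ y + h₁ y * h₂ x) ∂μ ∂μ =
      2 * ((∫⁻ x, h₁ x ∂μ) * ∫⁻ x, h₂ x ∂μ) := by
    have : ∀ x, ∫⁻ y, (h₁ x * h₂ y + h₁ y * h₂ x) ∂μ =
        h₁ x * (∫⁻ y, h₂ y ∂μ) + (∫⁻ y, h₁ y ∂μ) * h₂ x := by
      intro x
      rw [lintegral_add_left (m₂.const_mul _), lintegral_const_mul _ m₂, lintegral_mul_const _ m₁]
    simp_rw [this]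
    rw [lintegral_add_left (m₁.mul_const _), lintegral_mul_const _ m₁, lintegral_const_mul _ m₂,
      two_mul]
  rw [hl, hr] at h2
  exact (ENNReal.mul_le_mul_iff_right (by norm_num) (by norm_num)).mp h2

omit [MeasurableSpace X] in
lemma Blind.mul [DecidableEq δ] {D₁ D₂ : δ → Set X} {g₁ g₂ : (δ → X) → ℝ≥0∞}
    (h₁ : Blind D₁ g₁) (h₂ : Blind D₂ g₂) : Blind (fun r => D₁ r ∪ D₂ r) (fun u => g₁ u * g₂ u) := by
  intro u r x hx
  simp only [Set.mem_union, not_or] at hx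
  exact mul_le_mul' (h₁ u r x hx.1) (h₂ u r x hx.2)

lemma decouple_two_aux [DecidableEq δ] (μ : Measure X) [IsProbabilityMeasure μ]
    (D₁ D₂ : δ → Set X) (hD : ∀ r, Disjoint (D₁ r) (D₂ r)) (s : Finset δ) :
    ∀ (g₁ g₂ : (δ → X) → ℝ≥0∞), Measurable g₁ → Measurable g₂ → Blind D₁ g₁ → Blind D₂ g₂ →
      ∀ x, (∫⋯∫⁻_s, (fun u => g₁ u * g₂ u) ∂(fun _ => μ)) x ≤
        (∫⋯∫⁻_s, g₁ ∂(fun _ => μ)) x * (∫⋯∫⁻_s, g₂ ∂(fun _ => μ)) x := by
  induction s using Finset.induction with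
  | empty => intro g₁ g₂ _ _ _ _ x; simp
  | insert r s hr ih =>
    intro g₁ g₂ m₁ m₂ b₁ b₂ x
    have mk : ∀ g : (δ → X) → ℝ≥0∞, Measurable g →
        Measurable (fun u : δ → X => ∫⁻ y, g (update u r y) ∂μ) := by
      intro g hg
      have := Measurable.lmarginal (fun _ : δ => μ) (s := {r}) hg
      rwa [lmarginal_singleton] at this
    have bk : ∀ (D : δ → Set X) (g : (δ → X) → ℝ≥0∞), Blind D g →
        Blind D (fun u : δ → X => ∫⁻ y, g (update u r y) ∂μ) := by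
      intro D g hg u r' z hz
      by_cases h : r' = r
      · subst h
        simp
      · refine lintegral_mono fun y => ?_
        rw [update_comm h]
        exact hg _ _ _ hz
    have m12 : Measurable (fun u => g₁ u * g₂ u) := m₁.mul m₂
    rw [lmarginal_insert' _ m12 hr, lmarginal_insert' _ m₁ hr, lmarginal_insert' _ m₂ hr]
    refine le_trans (lmarginal_mono ?_ x) (ih _ _ (mk _ m₁) (mk _ m₂) (bk _ _ b₁) (bk _ _ b₂) x)
    intro u
    have hm : Measurable fun y : X => update u r y := measurable_update u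
    refine two_fun_one μ (fun y => g₁ (update u r y)) (fun y => g₂ (update u r y))
      (m₁.comp hm) (m₂.comp hm) (D₁ r) (D₂ r) (hD r) ?_ ?_
    · intro a b ha
      have := b₁ (update u r b) r a ha
      rwa [update_idem] at this
    · intro a b ha
      have := b₂ (update u r b) r a ha
      rwa [update_idem] at this

/-- Two functions that look at disjoint value ranges in every coordinate are negatively
correlated. -/
lemma decouple_two [Fintype δ] [DecidableEq δ] (μ : Measure X) [IsProbabilityMeasure μ]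
    (D₁ D₂ : δ → Set X) (hD : ∀ r, Disjoint (D₁ r) (D₂ r)) (g₁ g₂ : (δ → X) → ℝ≥0∞)
    (m₁ : Measurable g₁) (m₂ : Measurable g₂) (b₁ : Blind D₁ g₁) (b₂ : Blind D₂ g₂) :
    ∫⁻ u, g₁ u * g₂ u ∂(Measure.pi fun _ : δ => μ) ≤
      (∫⁻ u, g₁ u ∂(Measure.pi fun _ : δ => μ)) * ∫⁻ u, g₂ u ∂(Measure.pi fun _ : δ => μ) := by
  have hne : Nonempty X := nonempty_of_isProbabilityMeasure μ
  obtain ⟨x0⟩ := hne
  have := decouple_two_aux μ D₁ D₂ hD Finset.univ g₁ g₂ m₁ m₂ b₁ b₂ (fun _ => x0)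
  simpa using this

/-- Decoupling inequality for finitely many functions. -/
lemma decouple [Fintype δ] [DecidableEq δ] {T : Type*} (μ : Measure X)
    [IsProbabilityMeasure μ] (s : Finset T) (D : T → δ → Set X)
    (hD : ∀ i ∈ s, ∀ j ∈ s, i ≠ j → ∀ r, Disjoint (D i r) (D j r)) (g : T → (δ → X) → ℝ≥0∞)
    (m : ∀ i ∈ s, Measurable (g i)) (b : ∀ i ∈ s, Blind (D i) (g i)) :
    ∫⁻ u, ∏ i ∈ s, g i u ∂(Measure.pi fun _ : δ => μ) ≤
      ∏ i ∈ s, ∫⁻ u, g i u ∂(Measure.pi fun _ : δ => μ) := by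
  classical
  induction s using Finset.induction with
  | empty => simp
  | insert a s ha ih =>
    have ih' := ih (fun i hi j hj => hD i (mem_insert_of_mem hi) j (mem_insert_of_mem hj))
      (fun i hi => m i (mem_insert_of_mem hi)) (fun i hi => b i (mem_insert_of_mem hi))
    simp_rw [Finset.prod_insert ha]
    have hb : Blind (fun r => ⋃ i ∈ s, D i r) (fun u => ∏ i ∈ s, g i u) := by
      intro u r x hx
      simp only [Set.mem_iUnion, not_exists] at hx
      exact Finset.prod_le_prod' fun i hi => b i (mem_insert_of_mem hi) u r x (hx i hi)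
    refine le_trans (decouple_two μ (D a) (fun r => ⋃ i ∈ s, D i r) ?_ (g a)
      (fun u => ∏ i ∈ s, g i u) (m a (mem_insert_self _ _))
      (Finset.measurable_prod _ fun i hi => m i (mem_insert_of_mem hi))
      (b a (mem_insert_self _ _)) hb) ?_
    · intro r
      rw [Set.disjoint_iUnion₂_right]
      intro i hi
      exact hD a (mem_insert_self _ _) i (mem_insert_of_mem hi) (fun h => ha (h ▸ hi)) r
    · exact mul_le_mul' le_rfl ih'

end Decouple

end Pool.Agent.Lib.MP_f702fa_pr
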