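import Mathlib
import Pool.Agent.Lib.MP_f702fa_pr.Chain
import Pool.Agent.Lib.MP_f702fa_pr.Decouple

open MeasureTheory Finset
open scoped ENNReal

namespace Pool.Agent.Lib.MP_f702fa_pr

/-- the uniform distribution on `[0,1)`. -/
noncomputable def unif : Measure ℝ := volume.restrict (Set.Ico 0 1)

instance : IsProbabilityMeasure unif := ⟨by simp [unif]⟩

instance : NullSingletonClass unif := by unfold unif; infer_instance

/-- iid uniform labels indexed by `ρ`. -/
noncomputable def labels (ρ : Type*) [Fintype ρ] : Measure (ρ → ℝ) := Measure.pi fun _ => unif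

instance (ρ : Type*) [Fintype ρ] : IsProbabilityMeasure (labels ρ) := by
  unfold labels; infer_instance

lemma unif_Ico {a b : ℝ} (ha : 0 ≤ a) (hb : b ≤ 1) : unif (Set.Ico a b) = ENNReal.ofReal (b - a) := by
  unfold unif
  rw [Measure.restrict_apply measurableSet_Ico, Set.Ico_inter_Ico, sup_eq_left.mpr ha,
    inf_eq_left.mpr hb, Real.volume_Ico]

section Meas

variable {T Ω : Type*} {d : ℕ} [MeasurableSpace Ω]

open Classical in
lemma measurable_clen (A : Finset T) (E : T → Set Ω) (hE : ∀ a ∈ A, MeasurableSet (E a))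
    (x : Ω → T → Fin d → ℝ) (hx : ∀ a ∈ A, ∀ j, Measurable (fun ω => x ω a j)) :
    Measurable (fun ω => clen (A.filter (fun a => ω ∈ E a)) (x ω)) := by
  apply measurable_of_Ici
  intro n
  have : (fun ω => clen (A.filter (fun a => ω ∈ E a)) (x ω)) ⁻¹' Set.Ici n =
      ⋃ C ∈ A.powerset.filter (fun C => C.card = n),
        ((⋂ a ∈ C, E a) ∩ {ω | IsCh (x ω) C}) := by
    ext ω
    simp only [Set.mem_preimage, Set.mem_Ici, le_clen_iff, Set.mem_iUnion, Set.mem_inter_iff,
      Set.mem_iInter, Finset.mem_filter, Finset.mem_powerset, exists_prop]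
    constructor
    · rintro ⟨C, hC, hc, e⟩
      exact ⟨C, ⟨hC.trans (filter_subset _ _), e⟩, fun a ha => (mem_filter.mp (hC ha)).2, hc⟩
    · rintro ⟨C, ⟨hC, e⟩, h1, hc⟩
      exact ⟨C, fun a ha => mem_filter.mpr ⟨hC ha, h1 a ha⟩, hc, e⟩
  rw [this]
  refine Finset.measurableSet_biUnion _ fun C hC => ?_
  simp only [Finset.mem_filter, Finset.mem_powerset] at hC
  refine MeasurableSet.inter (Finset.measurableSet_biInter _ fun a ha => hE a (hC.1 ha)) ?_
  have : {ω | IsCh (x ω) C} = ⋂ a ∈ C, ⋂ b ∈ C, {ω | a ≠ b → Below (x ω) a b ∨ Below (x ω) b a} := by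
    ext ω
    simp [IsCh]
  rw [this]
  refine Finset.measurableSet_biInter _ fun a ha => Finset.measurableSet_biInter _ fun b hb => ?_
  have hB : ∀ a ∈ C, ∀ b ∈ C, MeasurableSet {ω | Below (x ω) a b} := by
    intro a ha b hb
    have : {ω | Below (x ω) a b} = ⋂ j, {ω | x ω a j < x ω b j} := by
      ext ω; simp [Below]
    rw [this]
    exact MeasurableSet.iInter fun j => measurableSet_lt (hx a (hC.1 ha) j) (hx b (hC.1 hb) j)
  by_cases h : a = b
  · simp [h]
  · have : {ω | a ≠ b → Below (x ω) a b ∨ Below (x ω) b a} =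
        {ω | Below (x ω) a b} ∪ {ω | Below (x ω) b a} := by
      ext ω; simp [h]
    rw [this]
    exact (hB a ha b hb).union (hB b hb a ha)

end Meas

section Box

variable {ι : Type*} {d : ℕ}

/-- positions of the points given labels. -/
def pos (w : Fin d × ι → ℝ) (α : Fin d → ι) (j : Fin d) : ℝ := w (j, α j)

open Classical in
/-- the points of `G` that lie in the box `J`. -/
noncomputable def box (J : Fin d → Set ℝ) (w : Fin d × ι → ℝ) (G : Finset (Fin d → ι)) :
    Finset (Fin d → ι) := G.filter (fun α => ∀ j, w (j, α j) ∈ J j)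

lemma mem_box {J : Fin d → Set ℝ} {w : Fin d × ι → ℝ} {G : Finset (Fin d → ι)} {α : Fin d → ι} :
    α ∈ box J w G ↔ α ∈ G ∧ ∀ j, w (j, α j) ∈ J j := by
  simp [box]

lemma box_subset {J : Fin d → Set ℝ} {w : Fin d × ι → ℝ} {G : Finset (Fin d → ι)} :
    box J w G ⊆ G := fun _ h => (mem_box.mp h).1

/-- the length of the longest chain of points of `G` inside the box `J`. -/
noncomputable def blen (J : Fin d → Set ℝ) (G : Finset (Fin d → ι)) (w : Fin d × ι → ℝ) : ℕ :=
  clen (box J w G) (pos w)

lemma measurable_pos [Fintype ι] (α : Fin d → ι) (j : Fin d) :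
    Measurable (fun w : Fin d × ι → ℝ => pos w α j) := measurable_pi_apply _

lemma measurable_blen [Fintype ι] (J : Fin d → Set ℝ) (hJ : ∀ j, MeasurableSet (J j))
    (G : Finset (Fin d → ι)) : Measurable (blen J G) := by
  classical
  have := measurable_clen G (fun α => {w : Fin d × ι → ℝ | ∀ j, w (j, α j) ∈ J j})
    (fun α _ => by
      have : {w : Fin d × ι → ℝ | ∀ j, w (j, α j) ∈ J j} = ⋂ j, (fun w => w (j, α j)) ⁻¹' (J j) := by
        ext; simp
      rw [this]
      exact MeasurableSet.iInter fun j => (measurable_pi_apply _) (hJ j))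
    (fun w => pos w) (fun a _ j => measurable_pos a j)
  have e : blen J G = fun ω : Fin d × ι → ℝ =>
      clen (G.filter (fun a => ω ∈ {w : Fin d × ι → ℝ | ∀ j, w (j, a j) ∈ J j})) (pos ω) := by
    funext w
    unfold blen box
    congr!
  rw [e]
  convert this

lemma measurable_clen_pos [Fintype ι] (S : Finset (Fin d → ι)) :
    Measurable (fun w : Fin d × ι → ℝ => clen S (pos w)) := by
  classical
  have := measurable_clen S (fun _ => (Set.univ : Set (Fin d × ι → ℝ)))
    (fun α _ => MeasurableSet.univ) (fun w => pos w) (fun a _ j => measurable_pos a j)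
  simpa using this

lemma blind_blen [DecidableEq ι] (J : Fin d → Set ℝ) (G : Finset (Fin d → ι)) (φ : ℕ → ℝ≥0∞)
    (hφ : Monotone φ) : Blind (fun r : Fin d × ι => J r.1) (fun w => φ (blen J G w)) := by
  intro u r x hx
  apply hφ
  unfold blen
  have hne : ∀ α ∈ box J (Function.update u r x) G, ∀ j, (j, α j) ≠ r := by
    intro α hα j h
    have := (mem_box.mp hα).2 j
    rw [h, Function.update_self] at this
    exact hx (by simpa [← h] using this)
  have hsub : box J (Function.update u r x) G ⊆ box J u G := by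
    intro α hα
    refine mem_box.mpr ⟨(mem_box.mp hα).1, fun j => ?_⟩
    have := (mem_box.mp hα).2 j
    rwa [Function.update_of_ne (hne α hα j)] at this
  refine le_trans (le_of_eq ?_) (clen_mono hsub _)
  refine clen_congr_of_eq fun α hα j => ?_
  simp only [pos]
  rw [Function.update_of_ne (hne α hα j)]

end Box

section Split

/-- the map replacing a label inside `[a,b)` by a fresh position in `[a,b)`. -/
noncomputable def splitMap (a b : ℝ) (p : ℝ × ℝ) : ℝ :=
  if p.1 ∈ Set.Ico a b then a + (b - a) * p.2 else p.1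

lemma measurable_splitMap (a b : ℝ) : Measurable (splitMap a b) := by
  unfold splitMap
  refine Measurable.ite (measurable_fst measurableSet_Ico) ?_ measurable_fst
  exact (measurable_snd.const_mul _).const_add _

lemma measurePreserving_splitMap {a b : ℝ} (ha : 0 ≤ a) (hab : a < b) (hb : b ≤ 1) :
    MeasurePreserving (splitMap a b) (unif.prod unif) unif := by
  refine ⟨measurable_splitMap a b, ?_⟩
  ext A hA
  rw [Measure.map_apply (measurable_splitMap a b) hA]
  set J := Set.Ico a b with hJ
  have hJm : MeasurableSet J := measurableSet_Ico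
  have hpos : 0 < b - a := by linarith
  have e1 : splitMap a b ⁻¹' A = ((A \ J) ×ˢ Set.univ) ∪ (J ×ˢ ((fun w => a + (b - a) * w) ⁻¹' A)) := by
    ext ⟨v, w⟩
    rw [Set.mem_preimage, Set.mem_union, Set.mem_prod, Set.mem_prod, Set.mem_preimage]
    by_cases h : v ∈ J
    · have h' : splitMap a b (v, w) = a + (b - a) * w := if_pos h
      rw [h']
      simp [h]
    · have h' : splitMap a b (v, w) = v := if_neg h
      rw [h']
      simp [h]
  have hf : Measurable (fun w : ℝ => a + (b - a) * w) := (measurable_id.const_mul _).const_add _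
  rw [e1, measure_union _ (hJm.prod (hf hA)), Measure.prod_prod, Measure.prod_prod, measure_univ,
    mul_one]
  · have e2 : unif J = ENNReal.ofReal (b - a) := unif_Ico ha hb
    have e3 : unif ((fun w => a + (b - a) * w) ⁻¹' A) =
        ENNReal.ofReal (b - a)⁻¹ * volume (J ∩ A) := by
      unfold unif
      rw [Measure.restrict_apply (hf hA)]
      have : (fun w => a + (b - a) * w) ⁻¹' A ∩ Set.Ico 0 1 =
          (fun w => (b - a) * w) ⁻¹' ((fun z => a + z) ⁻¹' (J ∩ A)) := by
        ext w
        simp only [Set.mem_inter_iff, Set.mem_preimage, Set.mem_Ico, hJ]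
        constructor
        · rintro ⟨h1, h2, h3⟩
          refine ⟨⟨by nlinarith, by nlinarith⟩, h1⟩
        · rintro ⟨⟨h1, h2⟩, h3⟩
          refine ⟨h3, ?_, ?_⟩
          · by_contra h
            push Not at h
            nlinarith
          · by_contra h
            push Not at h
            nlinarith
      rw [this, Real.volume_preimage_mul_left hpos.ne', abs_of_pos (inv_pos.mpr hpos),
        measure_preimage_add]
    have e4 : unif A = unif (A \ J) + volume (J ∩ A) := by
      rw [← measure_sdiff_add_inter A hJm]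
      congr 1
      unfold unif
      rw [Measure.restrict_apply (hA.inter hJm)]
      congr 1
      ext z
      simp only [Set.mem_inter_iff, Set.mem_Ico, hJ]
      constructor
      · rintro ⟨⟨h1, h2⟩, h3⟩; exact ⟨h2, h1⟩
      · rintro ⟨h1, h2⟩; exact ⟨⟨h2, h1⟩, by linarith [h1.1], by linarith [h1.2]⟩
    rw [e2, e3, e4, ← mul_assoc, ← ENNReal.ofReal_mul hpos.le, mul_inv_cancel₀ hpos.ne',
      ENNReal.ofReal_one, one_mul]
  · rw [Set.disjoint_left]
    rintro ⟨v, w⟩ h1 h2
    exact h1.1.2 h2.1

lemma ae_labels_mem (ρ : Type*) [Fintype ρ] :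
    ∀ᵐ w ∂(labels ρ), ∀ i, w i ∈ Set.Ico (0 : ℝ) 1 := by
  rw [ae_all_iff]
  intro i
  have h1 : ∀ᵐ z ∂unif, z ∈ Set.Ico (0 : ℝ) 1 := by
    unfold unif
    exact ae_restrict_mem measurableSet_Ico
  exact (measurePreserving_eval (fun _ : ρ => unif) i).quasiMeasurePreserving.ae h1

variable {ι : Type*} [Fintype ι] {d : ℕ}

/-- given the set of points in a box, the relative positions inside are again those of fresh
iid labels. -/
lemma lintegral_blen (a b : Fin d → ℝ) (ha : ∀ j, 0 ≤ a j) (hab : ∀ j, a j < b j)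
    (hb : ∀ j, b j ≤ 1) (G : Finset (Fin d → ι)) (φ : ℕ → ℝ≥0∞) :
    ∫⁻ u, φ (blen (fun j => Set.Ico (a j) (b j)) G u) ∂(labels (Fin d × ι)) =
      ∫⁻ v, ∫⁻ w, φ (clen (box (fun j => Set.Ico (a j) (b j)) v G) (pos w))
        ∂(labels (Fin d × ι)) ∂(labels (Fin d × ι)) := by
  set J : Fin d → Set ℝ := fun j => Set.Ico (a j) (b j) with hJ
  have hJm : ∀ j, MeasurableSet (J j) := fun j => measurableSet_Ico
  let ρ := Fin d × ι
  have mp1 : MeasurePreserving (fun (p : ρ → ℝ × ℝ) (i : ρ) => splitMap (a i.1) (b i.1) (p i))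
      (Measure.pi fun _ : ρ => unif.prod unif) (labels ρ) := by
    unfold labels
    exact measurePreserving_pi _ _ fun i => measurePreserving_splitMap (ha i.1) (hab i.1) (hb i.1)
  have mp2 := (measurePreserving_arrowProdEquivProdArrow ℝ ℝ ρ (fun _ => unif)
    (fun _ => unif)).symm
  let Ψ : (ρ → ℝ) × (ρ → ℝ) → (ρ → ℝ) := fun z i => splitMap (a i.1) (b i.1) (z.1 i, z.2 i)
  have mp : MeasurePreserving Ψ ((labels ρ).prod (labels ρ)) (labels ρ) := mp1.comp mp2
  have hφm : Measurable (fun u : ρ → ℝ => φ (blen J G u)) :=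
    (measurable_from_top (f := φ)).comp (measurable_blen J hJm G)
  rw [← mp.lintegral_comp hφm]
  have hF : Measurable (fun z : (ρ → ℝ) × (ρ → ℝ) => φ (blen J G (Ψ z))) := hφm.comp mp.measurable
  refine (lintegral_prod (μ := labels ρ) (ν := labels ρ) _ hF.aemeasurable).trans ?_
  refine lintegral_congr fun v => ?_
  refine lintegral_congr_ae ?_
  filter_upwards [ae_labels_mem ρ] with w hw
  have hval : ∀ i : ρ, Ψ (v, w) i = splitMap (a i.1) (b i.1) (v i, w i) := fun i => rfl
  set u := Ψ (v, w) with hu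
  have hiff : ∀ i : ρ, u i ∈ J i.1 ↔ v i ∈ J i.1 := by
    intro i
    rw [hval]
    unfold splitMap
    simp only [hJ]
    split_ifs with h
    · simp only [h, iff_true]
      have h1 := (hw i).1
      have h2 := (hw i).2
      have h3 := hab i.1
      constructor
      · nlinarith
      · nlinarith
    · rfl
  have hbox : box J u G = box J v G := by
    ext α
    simp only [mem_box]
    constructor
    · rintro ⟨h1, h2⟩; exact ⟨h1, fun j => (hiff (j, α j)).1 (h2 j)⟩
    · rintro ⟨h1, h2⟩; exact ⟨h1, fun j => (hiff (j, α j)).2 (h2 j)⟩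
  change φ (blen J G u) = φ (clen (box J v G) (pos w))
  congr 1
  unfold blen
  rw [hbox]
  refine clen_congr fun α hα β hβ => ?_
  simp only [Below, pos]
  refine forall_congr' fun j => ?_
  have h1 : v (j, α j) ∈ Set.Ico (a j) (b j) := (mem_box.mp hα).2 j
  have h2 : v (j, β j) ∈ Set.Ico (a j) (b j) := (mem_box.mp hβ).2 j
  rw [hval, hval]
  simp only [splitMap, h1, h2, if_true]
  have h3 := hab j
  constructor
  · intro h; nlinarith
  · intro h; nlinarith

end Split

end Pool.Agent.Lib.MP_f702fa_pr
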