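import Mathlib
import Pool.Agent.Lib.MP_f702fa_pr.Labels

open MeasureTheory Finset
open scoped ENNReal

namespace Pool.Agent.Lib.MP_f702fa_pr

section Marg

variable {ρ ρ' : Type*} [Fintype ρ] [Fintype ρ']

/-- restricting iid labels along an injection gives iid labels. -/
lemma measurePreserving_comp_inj (E : ρ → ρ') (hE : Function.Injective E) :
    MeasurePreserving (fun w : ρ' → ℝ => fun i => w (E i)) (labels ρ') (labels ρ) := by
  classical
  have hm : Measurable (fun w : ρ' → ℝ => fun i => w (E i)) :=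
    measurable_pi_iff.mpr fun i => measurable_pi_apply _
  refine ⟨hm, ?_⟩
  unfold labels
  refine (Measure.pi_eq (μ := fun _ : ρ => unif) fun s hs => ?_).symm
  rw [Measure.map_apply hm (MeasurableSet.univ_pi hs)]
  let s' : ρ' → Set ℝ := fun r => if h : ∃ i, E i = r then s h.choose else Set.univ
  have hs' : ∀ i, s' (E i) = s i := by
    intro i
    have h : ∃ i', E i' = E i := ⟨i, rfl⟩
    simp only [s', dif_pos h]
    rw [hE h.choose_spec]
  have hs'' : ∀ r, r ∉ Finset.univ.image E → s' r = Set.univ := by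
    intro r hr
    have h : ¬ ∃ i, E i = r := by
      rintro ⟨i, rfl⟩
      exact hr (mem_image_of_mem _ (mem_univ _))
    simp only [s', dif_neg h]
  have e1 : (fun w : ρ' → ℝ => fun i => w (E i)) ⁻¹' (Set.univ.pi s) = Set.univ.pi s' := by
    ext w
    simp only [Set.mem_preimage, Set.mem_pi, Set.mem_univ, true_imp_iff]
    constructor
    · intro h r
      by_cases hr : r ∈ Finset.univ.image E
      · obtain ⟨i, -, rfl⟩ := mem_image.mp hr
        rw [hs']; exact h i
      · rw [hs'' r hr]; trivial
    · intro h i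
      rw [← hs']; exact h (E i)
  rw [e1, Measure.pi_pi, ← Finset.prod_subset (Finset.subset_univ (Finset.univ.image E)),
    Finset.prod_image (fun a _ b _ h => hE h)]
  · exact Finset.prod_congr rfl fun i _ => by rw [hs']
  · intro r _ hr
    rw [hs'' r hr, measure_univ]

lemma lintegral_comp_inj (E : ρ → ρ') (hE : Function.Injective E) (F : (ρ → ℝ) → ℝ≥0∞)
    (hF : Measurable F) :
    ∫⁻ w, F (fun i => w (E i)) ∂(labels ρ') = ∫⁻ w, F w ∂(labels ρ) :=
  (measurePreserving_comp_inj E hE).lintegral_comp hF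

end Marg

section IID

variable {d : ℕ}

/-- positions of `t` points with fully independent coordinates. -/
def ipos {t : ℕ} (w : Fin d × Fin t → ℝ) (l : Fin t) (j : Fin d) : ℝ := w (j, l)

/-- longest chain among `t` iid points. -/
noncomputable def ilen (t : ℕ) (w : Fin d × Fin t → ℝ) : ℕ := clen (univ : Finset (Fin t)) (ipos w)

lemma measurable_ilen (t : ℕ) : Measurable (ilen (d := d) t) := by
  classical
  have := measurable_clen (univ : Finset (Fin t)) (fun _ => (Set.univ : Set (Fin d × Fin t → ℝ)))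
    (fun α _ => MeasurableSet.univ) (fun w => ipos w) (fun a _ j => measurable_pi_apply _)
  have e : ilen (d := d) t = fun w => clen univ (ipos w) := rfl
  rw [e]
  simpa using this

/-- expectation of `φ` of the longest chain among `t` iid points of the `d`-dimensional cube. -/
noncomputable def iexp (d : ℕ) (φ : ℕ → ℝ≥0∞) (t : ℕ) : ℝ≥0∞ :=
  ∫⁻ w, φ (ilen t w) ∂(labels (Fin d × Fin t))

lemma iexp_mono {φ : ℕ → ℝ≥0∞} (hφ : Monotone φ) : Monotone (iexp d φ) := by
  intro t t' h
  unfold iexp
  let E : Fin d × Fin t → Fin d × Fin t' := fun p => (p.1, Fin.castLE h p.2)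
  have hE : Function.Injective E := by
    rintro ⟨a, b⟩ ⟨a', b'⟩ hab
    simp only [E, Prod.mk.injEq] at hab
    obtain ⟨rfl, h2⟩ := hab
    have := Fin.castLE_injective h h2
    rw [this]
  rw [← lintegral_comp_inj E hE (fun w => φ (ilen t w))
    ((measurable_from_top (f := φ)).comp (measurable_ilen t))]
  refine lintegral_mono fun w => hφ ?_
  unfold ilen
  have h1 : clen (univ : Finset (Fin t)) (ipos fun i => w (E i)) =
      clen ((univ : Finset (Fin t)).image (Fin.castLE h)) (ipos w) := by
    rw [clen_image _ _ ((Fin.castLE_injective h).injOn)]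
    rfl
  rw [h1]
  exact clen_mono (subset_univ _) _

variable {ι : Type*}

/-- pairwise distinct in every coordinate. -/
def Transv (S : Finset (Fin d → ι)) : Prop := ∀ α ∈ S, ∀ β ∈ S, α ≠ β → ∀ j, α j ≠ β j

lemma Transv.subset {S S' : Finset (Fin d → ι)} (h : Transv S) (hs : S' ⊆ S) : Transv S' :=
  fun α hα β hβ => h α (hs hα) β (hs hβ)

lemma lintegral_transv [Fintype ι] (S : Finset (Fin d → ι)) (hS : Transv S)
    (φ : ℕ → ℝ≥0∞) :
    ∫⁻ w, φ (clen S (pos w)) ∂(labels (Fin d × ι)) = iexp d φ S.card := by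
  classical
  unfold iexp
  set t := S.card with ht
  let p : Fin t → (Fin d → ι) := fun l => (S.equivFin.symm l : Fin d → ι)
  have hp : Function.Injective p := by
    intro a b hab
    have := Subtype.ext_iff.mpr hab
    exact S.equivFin.symm.injective (Subtype.ext hab)
  have himg : univ.image p = S := by
    ext α
    simp only [mem_image, mem_univ, true_and, p]
    constructor
    · rintro ⟨l, rfl⟩; exact (S.equivFin.symm l).2
    · intro h; exact ⟨S.equivFin ⟨α, h⟩, by simp⟩
  let E : Fin d × Fin t → Fin d × ι := fun q => (q.1, p q.2 q.1)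
  have hE : Function.Injective E := by
    rintro ⟨a, b⟩ ⟨a', b'⟩ hab
    simp only [E, Prod.mk.injEq] at hab
    obtain ⟨rfl, h2⟩ := hab
    by_contra hne
    have hb : b ≠ b' := fun h => hne (by rw [h])
    refine hS (p b) ?_ (p b') ?_ (fun h => hb (hp h)) a h2
    · rw [← himg]; exact mem_image_of_mem _ (mem_univ _)
    · rw [← himg]; exact mem_image_of_mem _ (mem_univ _)
  rw [← lintegral_comp_inj E hE (fun w => φ (ilen t w))
    ((measurable_from_top (f := φ)).comp (measurable_ilen t))]
  refine lintegral_congr fun w => ?_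
  congr 1
  unfold ilen
  conv_lhs => rw [← himg, clen_image _ _ hp.injOn]
  rfl

lemma iexp_le_of_transv_subset [Fintype ι] (S S' : Finset (Fin d → ι)) (hS : Transv S')
    (hs : S' ⊆ S) (φ : ℕ → ℝ≥0∞) (hφ : Monotone φ) (t : ℕ) (ht : t ≤ S'.card) :
    iexp d φ t ≤ ∫⁻ w, φ (clen S (pos w)) ∂(labels (Fin d × ι)) := by
  calc iexp d φ t ≤ iexp d φ S'.card := iexp_mono hφ ht
    _ = ∫⁻ w, φ (clen S' (pos w)) ∂(labels (Fin d × ι)) := (lintegral_transv S' hS φ).symm
    _ ≤ _ := lintegral_mono fun w => hφ (clen_mono hs _)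

lemma le_iexp_of_transv [Fintype ι] (S : Finset (Fin d → ι)) (hS : Transv S)
    (φ : ℕ → ℝ≥0∞) (hφ : Monotone φ) (t : ℕ) (ht : S.card ≤ t) :
    ∫⁻ w, φ (clen S (pos w)) ∂(labels (Fin d × ι)) ≤ iexp d φ t := by
  rw [lintegral_transv S hS]
  exact iexp_mono hφ ht

/-- the diagonal points. -/
noncomputable def diag (d t : ℕ) : Finset (Fin d → Fin t) := univ.image (fun l => fun _ => l)

lemma transv_diag (t : ℕ) : Transv (diag d t) := by
  intro α hα β hβ hab j h
  simp only [diag, mem_image, mem_univ, true_and] at hα hβ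
  obtain ⟨l, rfl⟩ := hα
  obtain ⟨l', rfl⟩ := hβ
  apply hab
  simp only at h
  rw [h]

lemma card_diag (hd : 0 < d) (t : ℕ) : (diag d t).card = t := by
  unfold diag
  rw [card_image_of_injective]
  · simp
  · intro a b h
    exact congrFun h ⟨0, hd⟩

end IID

end Pool.Agent.Lib.MP_f702fa_pr
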