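import Mathlib
import Pool.Agent.Lib.MP_f702fa_pr.IID

open MeasureTheory Finset
open scoped ENNReal

namespace Pool.Agent.Lib.MP_f702fa_pr

section Enum

variable {T : Type*} {d : ℕ}

/-- a chain can be enumerated increasingly. -/
lemma exists_enum (hd : 0 < d) (x : T → Fin d → ℝ) (C : Finset T) (hC : IsCh x C) (n : ℕ)
    (hn : C.card = n) :
    ∃ q : Fin n → T, (∀ l, q l ∈ C) ∧ ∀ l l', l < l' → Below x (q l) (q l') := by
  classical
  let k : T → ℝ := fun a => x a ⟨0, hd⟩
  have hk : Set.InjOn k C := by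
    intro a ha b hb hab
    by_contra hne
    rcases hC a ha b hb hne with h | h
    · exact absurd hab (ne_of_lt (h ⟨0, hd⟩))
    · exact absurd hab.symm (ne_of_lt (h ⟨0, hd⟩))
  have hcard : (C.image k).card = n := by rw [card_image_of_injOn hk, hn]
  have hex : ∀ l : Fin n, ∃ a ∈ C, k a = (C.image k).orderEmbOfFin hcard l := by
    intro l
    have := (C.image k).orderEmbOfFin_mem hcard l
    simpa using mem_image.mp this
  choose q hq hqk using hex
  refine ⟨q, hq, fun l l' hl => ?_⟩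
  have hlt : k (q l) < k (q l') := by
    rw [hqk, hqk]
    exact ((C.image k).orderEmbOfFin hcard).strictMono hl
  have hne : q l ≠ q l' := fun h => by rw [h] at hlt; exact lt_irrefl _ hlt
  rcases hC _ (hq l) _ (hq l') hne with h | h
  · exact h
  · exact absurd (h ⟨0, hd⟩) (not_lt.mpr hlt.le)

end Enum

section FM

variable {d M : ℕ}

/-- index set of families of chains with prescribed sizes. -/
abbrev Idx (s : Fin M → ℕ) := Σ a : Fin M, Fin (s a)

/-- the labels increase along each block and stay in the given ranges. -/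
def Inc0 (J : Fin M → Fin d → Set ℝ) (s : Fin M → ℕ) : Set (Fin d × Idx s → ℝ) :=
  {w | (∀ a j, StrictMono fun l : Fin (s a) => w (j, ⟨a, l⟩)) ∧
    ∀ (a : Fin M) (l : Fin (s a)) (j : Fin d), w (j, ⟨a, l⟩) ∈ J a j}

/-- labels in the given ranges. -/
def AllIn (J : Fin M → Fin d → Set ℝ) (s : Fin M → ℕ) : Set (Fin d × Idx s → ℝ) :=
  Set.univ.pi fun p : Fin d × Idx s => J p.2.1 p.1

lemma measurableSet_Inc0 (J : Fin M → Fin d → Set ℝ) (hJ : ∀ a j, MeasurableSet (J a j))
    (s : Fin M → ℕ) : MeasurableSet (Inc0 J s) := by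
  have : Inc0 J s = (⋂ a, ⋂ j, ⋂ l : Fin (s a), ⋂ l' : Fin (s a), ⋂ _ : l < l',
      {w : Fin d × Idx s → ℝ | w (j, ⟨a, l⟩) < w (j, ⟨a, l'⟩)}) ∩
      ⋂ a, ⋂ l : Fin (s a), ⋂ j, (fun w : Fin d × Idx s → ℝ => w (j, ⟨a, l⟩)) ⁻¹' (J a j) := by
    ext w
    simp only [Inc0, StrictMono, Set.mem_inter_iff, Set.mem_iInter, Set.mem_preimage]
    rfl
  rw [this]
  refine MeasurableSet.inter ?_ ?_
  · refine MeasurableSet.iInter fun a => MeasurableSet.iInter fun j => MeasurableSet.iInter fun l =>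
      MeasurableSet.iInter fun l' => MeasurableSet.iInter fun _ => ?_
    exact measurableSet_lt (measurable_pi_apply _) (measurable_pi_apply _)
  · refine MeasurableSet.iInter fun a => MeasurableSet.iInter fun l => MeasurableSet.iInter fun j => ?_
    exact (measurable_pi_apply _) (hJ a j)

lemma measure_AllIn (J : Fin M → Fin d → Set ℝ) (s : Fin M → ℕ) :
    labels (Fin d × Idx s) (AllIn J s) = ∏ a, (∏ j, unif (J a j)) ^ s a := by
  unfold labels AllIn
  rw [Measure.pi_pi, Fintype.prod_prod_type]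
  simp_rw [Fintype.prod_sigma]
  simp only [Finset.prod_const, Finset.card_univ, Fintype.card_fin]
  rw [Finset.prod_comm]
  exact Finset.prod_congr rfl fun a _ => by rw [Finset.prod_pow]

lemma measure_Inc0_le (J : Fin M → Fin d → Set ℝ) (hJ : ∀ a j, MeasurableSet (J a j))
    (s : Fin M → ℕ) :
    ((∏ a, (s a).factorial) ^ d : ℕ) * labels (Fin d × Idx s) (Inc0 J s) ≤
      ∏ a, (∏ j, unif (J a j)) ^ s a := by
  classical
  rw [← measure_AllIn]
  let PP := Fin d → ∀ a : Fin M, Equiv.Perm (Fin (s a))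
  let act : PP → Fin d × Idx s → Fin d × Idx s := fun π p => (p.1, ⟨p.2.1, π p.1 p.2.1 p.2.2⟩)
  have hact : ∀ π : PP, Function.Injective (act π) := by
    rintro π ⟨j, a, l⟩ ⟨j', a', l'⟩ h
    simp only [act, Prod.mk.injEq, Sigma.mk.injEq] at h
    obtain ⟨rfl, rfl, h⟩ := h
    have := (π j a).injective (eq_of_heq h)
    rw [this]
  let B : PP → Set (Fin d × Idx s → ℝ) := fun π => (fun w i => w (act π i)) ⁻¹' (Inc0 J s)
  have hB : ∀ π, labels (Fin d × Idx s) (B π) = labels (Fin d × Idx s) (Inc0 J s) := fun π =>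
    (measurePreserving_comp_inj (act π) (hact π)).measure_preimage
      (measurableSet_Inc0 J hJ s).nullMeasurableSet
  have hBm : ∀ π, MeasurableSet (B π) := fun π =>
    (measurePreserving_comp_inj (act π) (hact π)).measurable (measurableSet_Inc0 J hJ s)
  have hdisj : Set.PairwiseDisjoint (↑(Finset.univ : Finset PP)) B := by
    intro π _ π' _ hne
    rw [Function.onFun, Set.disjoint_left]
    intro w h1 h2
    apply hne
    funext j a
    have e1 : StrictMono fun l : Fin (s a) => w (j, ⟨a, π j a l⟩) := h1.1 a j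
    have e2 : StrictMono fun l : Fin (s a) => w (j, ⟨a, π' j a l⟩) := h2.1 a j
    have hr : Set.range (fun l : Fin (s a) => w (j, ⟨a, π j a l⟩)) =
        Set.range (fun l : Fin (s a) => w (j, ⟨a, π' j a l⟩)) := by
      have f1 : (fun l : Fin (s a) => w (j, ⟨a, π j a l⟩)) =
          (fun l : Fin (s a) => w (j, ⟨a, l⟩)) ∘ (π j a) := rfl
      have f2 : (fun l : Fin (s a) => w (j, ⟨a, π' j a l⟩)) =
          (fun l : Fin (s a) => w (j, ⟨a, l⟩)) ∘ (π' j a) := rfl
      rw [f1, f2, (π j a).surjective.range_comp, (π' j a).surjective.range_comp]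
    have heq := (StrictMono.range_inj e1 e2).mp hr
    ext l
    have h3 : w (j, ⟨a, π j a l⟩) = w (j, ⟨a, π' j a l⟩) := congrFun heq l
    have hinj : Function.Injective (fun l : Fin (s a) => w (j, ⟨a, l⟩)) := by
      intro l1 l2 h12
      have h4 : w (j, ⟨a, π j a ((π j a).symm l1)⟩) = w (j, ⟨a, π j a ((π j a).symm l2)⟩) := by
        simpa using h12
      have := e1.injective h4
      simpa using this
    exact congrArg Fin.val (hinj h3)
  have hunion : (⋃ π ∈ (Finset.univ : Finset PP), B π) ⊆ AllIn J s := by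
    intro w hw
    simp only [Finset.mem_univ, Set.iUnion_true, Set.mem_iUnion] at hw
    obtain ⟨π, hπ⟩ := hw
    simp only [AllIn, Set.mem_pi, Set.mem_univ, true_imp_iff]
    rintro ⟨j, a, l⟩
    have := hπ.2 a ((π j a).symm l) j
    simpa [act] using this
  have hcard : Fintype.card PP = (∏ a, (s a).factorial) ^ d := by
    simp only [PP, Fintype.card_pi, Fintype.card_perm, Fintype.card_fin, Finset.prod_const,
      Finset.card_univ]
  calc ((∏ a, (s a).factorial) ^ d : ℕ) * labels (Fin d × Idx s) (Inc0 J s)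
      = ∑ π : PP, labels (Fin d × Idx s) (B π) := by
        simp_rw [hB]
        rw [Finset.sum_const, Finset.card_univ, hcard, nsmul_eq_mul]
    _ = labels (Fin d × Idx s) (⋃ π ∈ (Finset.univ : Finset PP), B π) :=
        (measure_biUnion_finset hdisj fun π _ => hBm π).symm
    _ ≤ _ := measure_mono hunion

variable {ι : Type*} [Fintype ι]

/-- there is a chain of `n` points each lying in one of the boxes. -/
def ChainIn (J : Fin M → Fin d → Set ℝ) (G : Finset (Fin d → ι)) (n : ℕ) :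
    Set (Fin d × ι → ℝ) :=
  {w | ∃ C ⊆ G, IsCh (pos w) C ∧ C.card = n ∧ ∀ α ∈ C, ∃ a, ∀ j, w (j, α j) ∈ J a j}

/-- the family `p` realises the prescribed chain sizes. -/
def IncP (J : Fin M → Fin d → Set ℝ) (s : Fin M → ℕ) (p : Idx s → (Fin d → ι)) :
    Set (Fin d × ι → ℝ) :=
  {w | (∀ a j, StrictMono fun l : Fin (s a) => w (j, p ⟨a, l⟩ j)) ∧
    ∀ (a : Fin M) (l : Fin (s a)) (j : Fin d), w (j, p ⟨a, l⟩ j) ∈ J a j}

lemma measure_IncP_le (J : Fin M → Fin d → Set ℝ) (hJ : ∀ a j, MeasurableSet (J a j))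
    (s : Fin M → ℕ) (p : Idx s → (Fin d → ι)) (hp : ∀ j, Function.Injective fun i => p i j) :
    ((∏ a, (s a).factorial) ^ d : ℕ) * labels (Fin d × ι) (IncP J s p) ≤
      ∏ a, (∏ j, unif (J a j)) ^ s a := by
  let E : Fin d × Idx s → Fin d × ι := fun q => (q.1, p q.2 q.1)
  have hE : Function.Injective E := by
    rintro ⟨a, b⟩ ⟨a', b'⟩ hab
    simp only [E, Prod.mk.injEq] at hab
    obtain ⟨rfl, h2⟩ := hab
    rw [hp a h2]
  have : labels (Fin d × ι) (IncP J s p) = labels (Fin d × Idx s) (Inc0 J s) :=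
    (measurePreserving_comp_inj E hE).measure_preimage (measurableSet_Inc0 J hJ s).nullMeasurableSet
  rw [this]
  exact measure_Inc0_le J hJ s

omit [Fintype ι] in
lemma chainIn_subset (hd : 0 < d) (hM : 0 < M) (J : Fin M → Fin d → Set ℝ)
    (G : Finset (Fin d → ι)) (n : ℕ) :
    ChainIn J G n ⊆ ⋃ s ∈ (Finset.univ : Finset (Fin M)).piAntidiag n,
      ⋃ p ∈ {p : Idx s → (Fin d → ι) | (∀ i, p i ∈ G) ∧ ∀ j, Function.Injective fun i => p i j},
        IncP J s p := by
  classical
  rintro w ⟨C, hCG, hC, hcard, hin⟩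
  have : Nonempty (Fin M) := ⟨⟨0, hM⟩⟩
  choose! a ha using hin
  let s : Fin M → ℕ := fun b => (C.filter (fun α => a α = b)).card
  have hs : ∑ b, s b = n := by
    rw [← hcard]
    exact (Finset.card_eq_sum_card_fiberwise (fun α _ => Finset.mem_coe.mpr (mem_univ (a α)))).symm
  have hch : ∀ b, IsCh (pos w) (C.filter (fun α => a α = b)) := fun b =>
    hC.subset (filter_subset _ _)
  choose q hq hqB using fun b => exists_enum hd (pos w) (C.filter (fun α => a α = b)) (hch b)
    (s b) rfl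
  let p : Idx s → (Fin d → ι) := fun i => q i.1 i.2
  have hpC : ∀ i, p i ∈ C := fun i => (mem_filter.mp (hq i.1 i.2)).1
  have hpa : ∀ i, a (p i) = i.1 := fun i => (mem_filter.mp (hq i.1 i.2)).2
  have hpne : ∀ i i', i ≠ i' → p i ≠ p i' := by
    rintro ⟨b, l⟩ ⟨b', l'⟩ hne h
    have hb : b = b' := by
      have h1 := hpa ⟨b, l⟩
      have h2 := hpa ⟨b', l'⟩
      rw [h] at h1
      exact h1.symm.trans h2
    subst hb
    have hl : l ≠ l' := fun h => hne (by rw [h])
    rcases lt_or_gt_of_ne hl with hlt | hlt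
    · have := hqB b l l' hlt ⟨0, hd⟩
      have h' : q b l = q b l' := h
      rw [h'] at this
      exact lt_irrefl _ this
    · have := hqB b l' l hlt ⟨0, hd⟩
      have h' : q b l = q b l' := h
      rw [h'] at this
      exact lt_irrefl _ this
  simp only [Set.mem_iUnion, Set.mem_ofPred_eq, exists_prop]
  refine ⟨s, ?_, p, ⟨fun i => hCG (hpC i), fun j => ?_⟩, ?_, ?_⟩
  · rw [Finset.mem_piAntidiag]
    exact ⟨hs, fun i _ => mem_univ i⟩
  · intro i i' h
    by_contra hne
    simp only at h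
    rcases hC _ (hpC i) _ (hpC i') (hpne i i' hne) with h1 | h1
    · have := h1 j
      simp only [pos] at this
      rw [h] at this
      exact lt_irrefl _ this
    · have := h1 j
      simp only [pos] at this
      rw [h] at this
      exact lt_irrefl _ this
  · intro b j l l' hl
    exact hqB b l l' hl j
  · intro b l j
    have h1 := ha (p ⟨b, l⟩) (hpC ⟨b, l⟩) j
    rw [hpa ⟨b, l⟩] at h1
    exact h1

lemma sum_pow_le_pow_sum' {K : Type*} (S : Finset K) (f : K → ℝ) (hf : ∀ i ∈ S, 0 ≤ f i)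
    (n : ℕ) (hn : 0 < n) : ∑ i ∈ S, f i ^ n ≤ (∑ i ∈ S, f i) ^ n := by
  obtain ⟨m, rfl⟩ := Nat.exists_eq_succ_of_ne_zero hn.ne'
  have h1 : ∀ i ∈ S, f i ^ (m + 1) ≤ f i * (∑ i ∈ S, f i) ^ m := by
    intro i hi
    rw [pow_succ']
    refine mul_le_mul_of_nonneg_left ?_ (hf i hi)
    exact pow_le_pow_left₀ (hf i hi) (Finset.single_le_sum hf hi) _
  calc ∑ i ∈ S, f i ^ (m + 1) ≤ ∑ i ∈ S, f i * (∑ i ∈ S, f i) ^ m := Finset.sum_le_sum h1
    _ = _ := by rw [← Finset.sum_mul, pow_succ']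

lemma sum_piAntidiag_div_factorial (v : ℝ) (n : ℕ) :
    ∑ s ∈ (Finset.univ : Finset (Fin M)).piAntidiag n, ∏ a, (v ^ s a / (s a).factorial) =
      (M * v) ^ n / n.factorial := by
  have h := Finset.sum_pow_eq_sum_piAntidiag (Finset.univ : Finset (Fin M)) (fun _ => v) n
  rw [Finset.sum_const, Finset.card_univ, Fintype.card_fin, nsmul_eq_mul] at h
  rw [h, Finset.sum_div]
  refine Finset.sum_congr rfl fun s hs => ?_
  have hsum : ∑ a, s a = n := (Finset.mem_piAntidiag.mp hs).1
  have hspec := Nat.multinomial_spec (Finset.univ : Finset (Fin M)) s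
  rw [hsum] at hspec
  have h1 : (∏ a, ((s a).factorial : ℝ)) ≠ 0 :=
    Finset.prod_ne_zero_iff.mpr fun a _ => by positivity
  have h2 : (n.factorial : ℝ) ≠ 0 := by positivity
  rw [Finset.prod_div_distrib, div_eq_div_iff h1 h2]
  have h3 : (n.factorial : ℝ) = (∏ a, ((s a).factorial : ℝ)) *
      (Nat.multinomial (Finset.univ : Finset (Fin M)) s : ℝ) := by
    rw [← hspec]; push_cast; ring
  rw [h3]
  ring

lemma chainIn_measure_le (hd : 0 < d) (hM : 0 < M) (J : Fin M → Fin d → Set ℝ)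
    (hJ : ∀ a j, MeasurableSet (J a j)) (G : Finset (Fin d → ι)) (v : ℝ) (hv : 0 ≤ v)
    (hvol : ∀ a, (G.card : ℝ≥0∞) * ∏ j, unif (J a j) ≤ ENNReal.ofReal (v ^ d)) (n : ℕ) :
    labels (Fin d × ι) (ChainIn J G n) ≤ ENNReal.ofReal (((M * v) ^ n / n.factorial) ^ d) := by
  classical
  have h1 : ∀ s ∈ (Finset.univ : Finset (Fin M)).piAntidiag n,
      labels (Fin d × ι) (⋃ p ∈ {p : Idx s → (Fin d → ι) | (∀ i, p i ∈ G) ∧
        ∀ j, Function.Injective fun i => p i j}, IncP J s p) ≤
      ENNReal.ofReal ((∏ a, (v ^ s a / (s a).factorial)) ^ d) := by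
    intro s hs
    have hsum : ∑ a, s a = n := (Finset.mem_piAntidiag.mp hs).1
    let P : Finset (Idx s → (Fin d → ι)) :=
      (Fintype.piFinset fun _ : Idx s => G).filter (fun p => ∀ j, Function.Injective fun i => p i j)
    have hsub : (⋃ p ∈ {p : Idx s → (Fin d → ι) | (∀ i, p i ∈ G) ∧
        ∀ j, Function.Injective fun i => p i j}, IncP J s p) ⊆ ⋃ p ∈ P, IncP J s p := by
      intro w hw
      simp only [Set.mem_iUnion, Set.mem_ofPred_eq, exists_prop] at hw
      obtain ⟨p, ⟨hp1, hp2⟩, hw⟩ := hw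
      simp only [Set.mem_iUnion, exists_prop]
      refine ⟨p, ?_, hw⟩
      simp only [P, Finset.mem_filter, Fintype.mem_piFinset]
      exact ⟨hp1, hp2⟩
    have hPcard : (P.card : ℝ≥0∞) ≤ ∏ a, (G.card : ℝ≥0∞) ^ s a := by
      have : P.card ≤ ∏ a, G.card ^ s a := by
        refine (Finset.card_filter_le _ _).trans ?_
        rw [Fintype.card_piFinset, Fintype.prod_sigma]
        simp
      exact_mod_cast this
    have hfac : ((∏ a, (s a).factorial) ^ d : ℕ) ≠ 0 :=
      pow_ne_zero _ (Finset.prod_ne_zero_iff.mpr fun a _ => Nat.factorial_ne_zero _)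
    have hfac' : (((∏ a, (s a).factorial) ^ d : ℕ) : ℝ≥0∞) ≠ 0 := by exact_mod_cast hfac
    have hfac'' : (((∏ a, (s a).factorial) ^ d : ℕ) : ℝ≥0∞) ≠ ⊤ := ENNReal.natCast_ne_top _
    have hp : ∀ p ∈ P, labels (Fin d × ι) (IncP J s p) ≤
        (∏ a, (∏ j, unif (J a j)) ^ s a) / (((∏ a, (s a).factorial) ^ d : ℕ) : ℝ≥0∞) := by
      intro p hp
      simp only [P, Finset.mem_filter] at hp
      rw [ENNReal.le_div_iff_mul_le (Or.inl hfac') (Or.inl hfac''), mul_comm]
      exact measure_IncP_le J hJ s p hp.2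
    calc _ ≤ labels (Fin d × ι) (⋃ p ∈ P, IncP J s p) := measure_mono hsub
      _ ≤ ∑ p ∈ P, labels (Fin d × ι) (IncP J s p) := measure_biUnion_finset_le _ _
      _ ≤ ∑ p ∈ P, (∏ a, (∏ j, unif (J a j)) ^ s a) /
            (((∏ a, (s a).factorial) ^ d : ℕ) : ℝ≥0∞) := Finset.sum_le_sum hp
      _ = P.card * ((∏ a, (∏ j, unif (J a j)) ^ s a) /
            (((∏ a, (s a).factorial) ^ d : ℕ) : ℝ≥0∞)) := by
          rw [Finset.sum_const, nsmul_eq_mul]
      _ ≤ (∏ a, (G.card : ℝ≥0∞) ^ s a) * ((∏ a, (∏ j, unif (J a j)) ^ s a) /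
            (((∏ a, (s a).factorial) ^ d : ℕ) : ℝ≥0∞)) := mul_le_mul' hPcard le_rfl
      _ = (∏ a, ((G.card : ℝ≥0∞) * ∏ j, unif (J a j)) ^ s a) /
            (((∏ a, (s a).factorial) ^ d : ℕ) : ℝ≥0∞) := by
          rw [← mul_div_assoc, ← Finset.prod_mul_distrib]
          simp_rw [mul_pow]
      _ ≤ (∏ a, (ENNReal.ofReal (v ^ d)) ^ s a) /
            (((∏ a, (s a).factorial) ^ d : ℕ) : ℝ≥0∞) := by
          refine ENNReal.div_le_div_right ?_ _
          exact Finset.prod_le_prod' fun a _ => pow_le_pow_left' (hvol a) _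
      _ = ENNReal.ofReal ((∏ a, (v ^ s a / (s a).factorial)) ^ d) := by
          rw [ENNReal.div_eq_inv_mul, Finset.prod_div_distrib, div_pow,
            ENNReal.ofReal_div_of_pos (by positivity), ENNReal.div_eq_inv_mul]
          congr 1
          · rw [← ENNReal.ofReal_natCast]
            push_cast
            rfl
          · rw [← Finset.prod_pow, ENNReal.ofReal_prod_of_nonneg (fun a _ => by positivity)]
            refine Finset.prod_congr rfl fun a _ => ?_
            rw [← ENNReal.ofReal_pow (by positivity)]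
            congr 1
            ring
  calc labels (Fin d × ι) (ChainIn J G n)
      ≤ labels (Fin d × ι) (⋃ s ∈ (Finset.univ : Finset (Fin M)).piAntidiag n,
        ⋃ p ∈ {p : Idx s → (Fin d → ι) | (∀ i, p i ∈ G) ∧ ∀ j, Function.Injective fun i => p i j},
        IncP J s p) := measure_mono (chainIn_subset hd hM J G n)
    _ ≤ ∑ s ∈ (Finset.univ : Finset (Fin M)).piAntidiag n, labels (Fin d × ι)
        (⋃ p ∈ {p : Idx s → (Fin d → ι) | (∀ i, p i ∈ G) ∧
          ∀ j, Function.Injective fun i => p i j}, IncP J s p) := measure_biUnion_finset_le _ _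
    _ ≤ ∑ s ∈ (Finset.univ : Finset (Fin M)).piAntidiag n,
        ENNReal.ofReal ((∏ a, (v ^ s a / (s a).factorial)) ^ d) := Finset.sum_le_sum h1
    _ = ENNReal.ofReal (∑ s ∈ (Finset.univ : Finset (Fin M)).piAntidiag n,
        (∏ a, (v ^ s a / (s a).factorial)) ^ d) :=
        (ENNReal.ofReal_sum_of_nonneg fun s _ => by positivity).symm
    _ ≤ _ := by
        refine ENNReal.ofReal_le_ofReal ?_
        rw [← sum_piAntidiag_div_factorial]
        exact sum_pow_le_pow_sum' _ _ (fun s _ => by positivity) d hd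

end FM

end Pool.Agent.Lib.MP_f702fa_pr
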