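import Mathlib
import Pool.Agent.Lib.MP_f702fa_pr.FirstMoment

open MeasureTheory Finset
open scoped ENNReal

namespace Pool.Agent.Lib.MP_f702fa_pr

/-- the exponential weight. -/
noncomputable def phe (θ : ℝ) (n : ℕ) : ℝ≥0∞ := ENNReal.ofReal (Real.exp (θ * n))

lemma phe_mono {θ : ℝ} (hθ : 0 ≤ θ) : Monotone (phe θ) := by
  intro m n h
  unfold phe
  refine ENNReal.ofReal_le_ofReal (Real.exp_le_exp.mpr ?_)
  have : (m : ℝ) ≤ n := by exact_mod_cast h
  nlinarith

lemma tail_small {v : ℝ} (hv : 0 ≤ v) {n : ℕ} (hn : Real.exp 2 * v ≤ n) (hn0 : 0 < n) :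
    v ^ n / n.factorial ≤ Real.exp (-n) := by
  have hn' : (0 : ℝ) < n := by exact_mod_cast hn0
  have h1 : v ≤ Real.exp (-2) * n := by
    rw [Real.exp_neg, inv_mul_eq_div, le_div_iff₀ (Real.exp_pos 2)]
    linarith
  have h2 : v ^ n ≤ (Real.exp (-2) * n) ^ n := pow_le_pow_left₀ hv h1 n
  have h3 : (n : ℝ) ^ n / n.factorial ≤ Real.exp n := Real.pow_div_factorial_le_exp n hn'.le n
  calc v ^ n / n.factorial ≤ (Real.exp (-2) * n) ^ n / n.factorial := by gcongr
    _ = Real.exp (-2) ^ n * ((n : ℝ) ^ n / n.factorial) := by rw [mul_pow]; ring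
    _ ≤ Real.exp (-2) ^ n * Real.exp n := by gcongr
    _ = Real.exp (-n) := by
        rw [← Real.exp_nat_mul, ← Real.exp_add]; congr 1; ring

lemma tail_small_pow {v : ℝ} (hv : 0 ≤ v) {n d : ℕ} (hd : 0 < d) (hn : Real.exp 2 * v ≤ n)
    (hn0 : 0 < n) : (v ^ n / n.factorial) ^ d ≤ Real.exp (-n) := by
  have h0 : 0 ≤ v ^ n / n.factorial := by positivity
  have h1 := tail_small hv hn hn0
  have h2 : Real.exp (-n : ℝ) ≤ 1 := Real.exp_le_one_iff.mpr (by simp)
  calc (v ^ n / n.factorial) ^ d ≤ (v ^ n / n.factorial) ^ 1 :=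
        pow_le_pow_of_le_one h0 (h1.trans h2) hd
    _ = v ^ n / n.factorial := pow_one _
    _ ≤ _ := h1

lemma sum_exp_half_le (N : ℕ) : ∑ n ∈ range N, Real.exp (-(n : ℝ) / 2) ≤ 3 := by
  have h1 : ∀ n : ℕ, Real.exp (-(n : ℝ) / 2) = (Real.exp (-1 / 2)) ^ n := by
    intro n
    rw [← Real.exp_nat_mul]; congr 1; ring
  simp_rw [h1]
  have hr : Real.exp (-1 / 2) ≤ 2 / 3 := by
    rw [show (-1 / 2 : ℝ) = -(1 / 2) by ring, Real.exp_neg, inv_le_comm₀ (Real.exp_pos _) (by norm_num)]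
    have := Real.add_one_le_exp (1 / 2 : ℝ)
    norm_num at this ⊢
    linarith
  have hr0 : 0 ≤ Real.exp (-1 / 2) := (Real.exp_pos _).le
  calc ∑ n ∈ range N, (Real.exp (-1 / 2)) ^ n ≤ ∑ n ∈ range N, (2 / 3 : ℝ) ^ n := by gcongr
    _ = (1 - (2 / 3 : ℝ) ^ N) * 3 := by
        rw [geom_sum_eq (by norm_num)]; ring
    _ ≤ 3 := by
        have : (0 : ℝ) ≤ (2 / 3 : ℝ) ^ N := by positivity
        nlinarith

variable {Ω : Type*} [MeasurableSpace Ω]

/-- exponential moment from the factorial tail bound. -/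
lemma exp_moment_le (μ : Measure Ω) [IsProbabilityMeasure μ] (X : Ω → ℕ) (hX : Measurable X)
    (N : ℕ) (hN : ∀ ω, X ω ≤ N) {v : ℝ} (hv : 0 ≤ v) {d : ℕ} (hd : 0 < d) {θ : ℝ} (hθ : 0 ≤ θ)
    (hθ' : θ ≤ 1 / 2)
    (htail : ∀ n, μ {ω | n ≤ X ω} ≤ ENNReal.ofReal ((v ^ n / n.factorial) ^ d)) :
    ∫⁻ ω, phe θ (X ω) ∂μ ≤ ENNReal.ofReal (Real.exp (θ * (Real.exp 2 * v + 1)) + 3) := by
  set s0 := ⌈Real.exp 2 * v⌉₊ with hs0
  have hs0' : (s0 : ℝ) ≤ Real.exp 2 * v + 1 := (Nat.ceil_lt_add_one (by positivity)).le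
  have hpt : ∀ ω, phe θ (X ω) ≤ phe θ s0 + ∑ n ∈ (range (N + 1)).filter (fun n => s0 < n),
      Set.indicator {ω | n ≤ X ω} (fun _ => phe θ n) ω := by
    intro ω
    by_cases h : X ω ≤ s0
    · exact le_add_right (phe_mono hθ h)
    · push Not at h
      refine le_add_left ?_
      have hmem : X ω ∈ (range (N + 1)).filter (fun n => s0 < n) := by
        simp only [mem_filter, mem_range]
        exact ⟨by have := hN ω; omega, h⟩
      refine le_trans ?_ (Finset.single_le_sum (f := fun n =>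
        Set.indicator {ω | n ≤ X ω} (fun _ => phe θ n) ω) (fun _ _ => zero_le) hmem)
      simp
  have hm : ∀ n : ℕ, MeasurableSet {ω | n ≤ X ω} := fun n => hX (measurableSet_Ici (a := n))
  calc ∫⁻ ω, phe θ (X ω) ∂μ
      ≤ ∫⁻ ω, (phe θ s0 + ∑ n ∈ (range (N + 1)).filter (fun n => s0 < n),
        Set.indicator {ω | n ≤ X ω} (fun _ => phe θ n) ω) ∂μ := lintegral_mono hpt
    _ = phe θ s0 + ∑ n ∈ (range (N + 1)).filter (fun n => s0 < n), phe θ n * μ {ω | n ≤ X ω} := by
        rw [lintegral_add_left measurable_const, lintegral_const, measure_univ, mul_one,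
          lintegral_finsetSum _ (fun n _ => measurable_const.indicator (hm n))]
        congr 1
        exact Finset.sum_congr rfl fun n _ => by rw [lintegral_indicator_const (hm n)]
    _ ≤ phe θ s0 + ∑ n ∈ (range (N + 1)).filter (fun n => s0 < n),
          ENNReal.ofReal (Real.exp (-(n : ℝ) / 2)) := by
        gcongr with n hn
        simp only [mem_filter, mem_range] at hn
        refine (mul_le_mul' le_rfl (htail n)).trans ?_
        unfold phe
        rw [← ENNReal.ofReal_mul (Real.exp_pos _).le]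
        refine ENNReal.ofReal_le_ofReal ?_
        have h1 : Real.exp 2 * v ≤ n := by
          have : (s0 : ℝ) ≤ n := by exact_mod_cast hn.2.le
          exact (Nat.le_ceil _).trans this
        have h2 := tail_small_pow hv hd h1 (by omega)
        calc Real.exp (θ * n) * (v ^ n / n.factorial) ^ d ≤ Real.exp (θ * n) * Real.exp (-n) := by
              gcongr
          _ = Real.exp (θ * n - n) := by rw [← Real.exp_add]; rfl
          _ ≤ Real.exp (-(n : ℝ) / 2) := by
              refine Real.exp_le_exp.mpr ?_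
              have : (0 : ℝ) ≤ n := Nat.cast_nonneg n
              nlinarith
    _ ≤ phe θ s0 + ∑ n ∈ range (N + 1), ENNReal.ofReal (Real.exp (-(n : ℝ) / 2)) := by
        gcongr
        exact Finset.filter_subset _ _
    _ = ENNReal.ofReal (Real.exp (θ * s0) + ∑ n ∈ range (N + 1), Real.exp (-(n : ℝ) / 2)) := by
        rw [ENNReal.ofReal_add (Real.exp_pos _).le (Finset.sum_nonneg fun _ _ => (Real.exp_pos _).le),
          ENNReal.ofReal_sum_of_nonneg (fun _ _ => (Real.exp_pos _).le)]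
        rfl
    _ ≤ _ := by
        refine ENNReal.ofReal_le_ofReal ?_
        have h1 := sum_exp_half_le (N + 1)
        have h2 : Real.exp (θ * s0) ≤ Real.exp (θ * (Real.exp 2 * v + 1)) :=
          Real.exp_le_exp.mpr (mul_le_mul_of_nonneg_left hs0' hθ)
        linarith

end Pool.Agent.Lib.MP_f702fa_pr
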