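import Mathlib
import Pool.Agent.Lib.MP_f702fa_pr.ExpMoment

open MeasureTheory Finset
open scoped ENNReal

namespace Pool.Agent.Lib.MP_f702fa_pr

/-- the `d`-th root. -/
noncomputable def rt (d : ℕ) (x : ℝ) : ℝ := x ^ ((d : ℝ)⁻¹)

lemma rt_nonneg (d : ℕ) {x : ℝ} (hx : 0 ≤ x) : 0 ≤ rt d x := Real.rpow_nonneg hx _

lemma rt_pow {d : ℕ} (hd : 0 < d) {x : ℝ} (hx : 0 ≤ x) : rt d x ^ d = x :=
  Real.rpow_inv_natCast_pow hx hd.ne'

lemma rt_mono (d : ℕ) {x y : ℝ} (hx : 0 ≤ x) (hxy : x ≤ y) : rt d x ≤ rt d y :=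
  Real.rpow_le_rpow hx hxy (by positivity)

lemma rt_mul (d : ℕ) {x y : ℝ} (hx : 0 ≤ x) (hy : 0 ≤ y) : rt d (x * y) = rt d x * rt d y :=
  Real.mul_rpow hx hy

lemma rt_pow' {d : ℕ} (hd : 0 < d) {x : ℝ} (hx : 0 ≤ x) : rt d (x ^ d) = x :=
  Real.pow_rpow_inv_natCast hx hd.ne'

lemma rt_one (d : ℕ) : rt d 1 = 1 := Real.one_rpow _

lemma one_le_rt (d : ℕ) {x : ℝ} (hx : 1 ≤ x) : 1 ≤ rt d x := by
  rw [← rt_one d]; exact rt_mono d zero_le_one hx

lemma le_rt_iff {d : ℕ} (hd : 0 < d) {x y : ℝ} (hx : 0 ≤ x) (hy : 0 ≤ y) :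
    x ≤ rt d y ↔ x ^ d ≤ y := by
  constructor
  · intro h
    calc x ^ d ≤ rt d y ^ d := pow_le_pow_left₀ hx h d
      _ = y := rt_pow hd hy
  · intro h
    calc x = rt d (x ^ d) := (rt_pow' hd hx).symm
      _ ≤ rt d y := rt_mono d (by positivity) h

lemma rt_le_iff {d : ℕ} (hd : 0 < d) {x y : ℝ} (hx : 0 ≤ x) (hy : 0 ≤ y) :
    rt d y ≤ x ↔ y ≤ x ^ d := by
  constructor
  · intro h
    calc y = rt d y ^ d := (rt_pow hd hy).symm
      _ ≤ x ^ d := pow_le_pow_left₀ (rt_nonneg d hy) h d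
  · intro h
    calc rt d y ≤ rt d (x ^ d) := rt_mono d hy h
      _ = x := rt_pow' hd hx

section

variable {d : ℕ} {ι : Type*} [Fintype ι]

lemma blen_tail (hd : 0 < d) (J : Fin d → Set ℝ) (hJ : ∀ j, MeasurableSet (J j))
    (G : Finset (Fin d → ι)) (v : ℝ) (hv : 0 ≤ v)
    (hvol : (G.card : ℝ≥0∞) * ∏ j, unif (J j) ≤ ENNReal.ofReal (v ^ d)) (n : ℕ) :
    labels (Fin d × ι) {w | n ≤ blen J G w} ≤ ENNReal.ofReal ((v ^ n / n.factorial) ^ d) := by
  have h := chainIn_measure_le hd (M := 1) one_pos (fun _ => J) (fun _ => hJ) G v hv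
    (fun _ => hvol) n
  simp only [Nat.cast_one, one_mul] at h
  refine (measure_mono ?_).trans h
  intro w hw
  simp only [Set.mem_ofPred_eq, blen] at hw
  obtain ⟨C, hC, hc, e⟩ := le_clen_iff.mp hw
  exact ⟨C, hC.trans box_subset, hc, e, fun α hα => ⟨0, (mem_box.mp (hC hα)).2⟩⟩

lemma clen_tail (hd : 0 < d) (G : Finset (Fin d → ι)) (n : ℕ) :
    labels (Fin d × ι) {w | n ≤ clen G (pos w)} ≤
      ENNReal.ofReal ((rt d G.card ^ n / n.factorial) ^ d) := by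
  have h := blen_tail hd (fun _ => Set.univ) (fun _ => MeasurableSet.univ) G (rt d G.card)
    (rt_nonneg d (Nat.cast_nonneg _)) (by
      rw [rt_pow hd (Nat.cast_nonneg _)]; simp) n
  refine le_trans (le_of_eq ?_) h
  congr 1
  ext w
  simp only [Set.mem_ofPred_eq, blen]
  have : box (fun _ => Set.univ) w G = G := by ext; simp [mem_box]
  rw [this]

/-- the indicator weight of `{n, n+1, ...}`. -/
noncomputable def ind (n : ℕ) (m : ℕ) : ℝ≥0∞ := if n ≤ m then 1 else 0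

lemma ind_mono (n : ℕ) : Monotone (ind n) := by
  intro a b h
  unfold ind
  split_ifs with h1 h2
  · exact le_rfl
  · exact absurd (h1.trans h) h2
  · exact zero_le_one
  · exact le_rfl

lemma lintegral_ind {Ω : Type*} [MeasurableSpace Ω] (μ : Measure Ω) (X : Ω → ℕ)
    (hX : Measurable X) (n : ℕ) : ∫⁻ ω, ind n (X ω) ∂μ = μ {ω | n ≤ X ω} := by
  have hm : MeasurableSet {ω | n ≤ X ω} := hX (measurableSet_Ici (a := n))
  have : (fun ω => ind n (X ω)) = Set.indicator {ω | n ≤ X ω} (fun _ => 1) := by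
    funext ω
    by_cases h : n ≤ X ω
    · simp [ind, h]
    · simp [ind, h]
  rw [this, lintegral_indicator_const hm, one_mul]

lemma iexp_ind (t n : ℕ) :
    iexp d (ind n) t = labels (Fin d × Fin t) {w | n ≤ ilen t w} :=
  lintegral_ind _ _ (measurable_ilen t) n

lemma iexp_eq_diag (hd : 0 < d) (φ : ℕ → ℝ≥0∞) (t : ℕ) :
    iexp d φ t = ∫⁻ w, φ (clen (diag d t) (pos w)) ∂(labels (Fin d × Fin t)) := by
  rw [lintegral_transv _ (transv_diag t), card_diag hd]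

lemma iexp_phe_le (hd : 0 < d) {θ : ℝ} (hθ : 0 ≤ θ) (hθ' : θ ≤ 1 / 2) (t : ℕ) :
    iexp d (phe θ) t ≤ ENNReal.ofReal (Real.exp (θ * (Real.exp 2 * rt d t + 1)) + 3) := by
  rw [iexp_eq_diag hd]
  refine exp_moment_le _ _ (measurable_clen_pos _) t (fun w => ?_) (rt_nonneg d (Nat.cast_nonneg _))
    hd hθ hθ' (fun n => ?_)
  · exact (clen_le_card _ _).trans (card_diag hd t).le
  · have := clen_tail hd (diag d t) n
    rwa [card_diag hd] at this

lemma lintegral_blen_phe_le (hd : 0 < d) (J : Fin d → Set ℝ) (hJ : ∀ j, MeasurableSet (J j))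
    (G : Finset (Fin d → ι)) (v : ℝ) (hv : 0 ≤ v)
    (hvol : (G.card : ℝ≥0∞) * ∏ j, unif (J j) ≤ ENNReal.ofReal (v ^ d)) {θ : ℝ} (hθ : 0 ≤ θ)
    (hθ' : θ ≤ 1 / 2) :
    ∫⁻ w, phe θ (blen J G w) ∂(labels (Fin d × ι)) ≤
      ENNReal.ofReal (Real.exp (θ * (Real.exp 2 * v + 1)) + 3) := by
  refine exp_moment_le _ _ (measurable_blen J hJ G) G.card (fun w => ?_) hv hd hθ hθ'
    (fun n => blen_tail hd J hJ G v hv hvol n)
  exact (clen_le_card _ _).trans (card_le_card box_subset)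

/-- linear bound for the mean. -/
lemma iexp_cast_le (hd : 0 < d) (t : ℕ) (ht : 0 < t) :
    iexp d (fun n => (n : ℝ≥0∞)) t ≤
      ENNReal.ofReal (2 * (Real.exp ((Real.exp 2 + 1) / 2) + 3) * rt d t) := by
  have ht' : (1 : ℝ) ≤ t := by exact_mod_cast ht
  have hv : 1 ≤ rt d t := one_le_rt d ht'
  set v := rt d t with hvdef
  have hv0 : 0 < v := by linarith
  set θ := 1 / (2 * v) with hθdef
  have hθ : 0 < θ := by positivity
  have hθ' : θ ≤ 1 / 2 := by
    rw [hθdef]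
    apply one_div_le_one_div_of_le (by norm_num)
    linarith
  have h1 := iexp_phe_le hd hθ.le hθ' t
  have h2 : θ * (Real.exp 2 * rt d t + 1) ≤ (Real.exp 2 + 1) / 2 := by
    rw [← hvdef, hθdef, one_div, inv_mul_le_iff₀ (by positivity)]
    nlinarith [Real.exp_pos 2]
  have h3 : ∀ n : ℕ, (n : ℝ≥0∞) ≤ ENNReal.ofReal (2 * v) * phe θ n := by
    intro n
    unfold phe
    rw [← ENNReal.ofReal_mul (by positivity), ← ENNReal.ofReal_natCast]
    refine ENNReal.ofReal_le_ofReal ?_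
    have h4 : θ * n ≤ Real.exp (θ * n) := by
      have := Real.add_one_le_exp (θ * n); linarith
    calc (n : ℝ) = 2 * v * (θ * n) := by rw [hθdef]; field_simp
      _ ≤ _ := by gcongr
  calc iexp d (fun n => (n : ℝ≥0∞)) t ≤ ∫⁻ w, ENNReal.ofReal (2 * v) * phe θ (ilen t w)
        ∂(labels (Fin d × Fin t)) := lintegral_mono fun w => h3 _
    _ = ENNReal.ofReal (2 * v) * iexp d (phe θ) t := by
        rw [lintegral_const_mul' _ _ ENNReal.ofReal_ne_top]; rfl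
    _ ≤ ENNReal.ofReal (2 * v) * ENNReal.ofReal (Real.exp ((Real.exp 2 + 1) / 2) + 3) := by
        refine mul_le_mul' le_rfl (h1.trans (ENNReal.ofReal_le_ofReal ?_))
        have := Real.exp_le_exp.mpr h2
        linarith
    _ = _ := by
        rw [← ENNReal.ofReal_mul (by positivity)]
        congr 1
        ring

end

end Pool.Agent.Lib.MP_f702fa_pr
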