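import Mathlib
import Pool.Agent.Lib.MP_f702fa_pr.Tail

open MeasureTheory Finset
open scoped ENNReal

namespace Pool.Agent.Lib.MP_f702fa_pr

section Second

variable {d : ℕ} {ι : Type*}

/-- regularity of a point set: few points share prescribed coordinates with a given point. -/
def Reg (G : Finset (Fin d → ι)) (r : ℝ) : Prop :=
  ∀ α ∈ G, ∀ T : Finset (Fin d), ∀ S ⊆ G, (∀ β ∈ S, β ≠ α ∧ ∀ j ∈ T, α j = β j) →
    (S.card : ℝ) ≤ G.card * r ^ T.card

/-- the event that `α` lies in the box. -/
def InB (J : Fin d → Set ℝ) (α : Fin d → ι) : Set (Fin d × ι → ℝ) :=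
  {w | ∀ j, w (j, α j) ∈ J j}

lemma measurableSet_InB [Fintype ι] (J : Fin d → Set ℝ) (hJ : ∀ j, MeasurableSet (J j))
    (α : Fin d → ι) : MeasurableSet (InB J α) := by
  have : InB J α = ⋂ j, (fun w : Fin d × ι → ℝ => w (j, α j)) ⁻¹' (J j) := by
    ext; simp [InB]
  rw [this]
  exact MeasurableSet.iInter fun j => (measurable_pi_apply _) (hJ j)

open Classical in
/-- the probability that two points are in the box. -/
noncomputable def pr2 (s : Fin d → ℝ) (α β : Fin d → ι) : ℝ :=
  ∏ j, if α j = β j then s j else s j ^ 2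

lemma measure_pair [Fintype ι] (J : Fin d → Set ℝ) (s : Fin d → ℝ)
    (hJs : ∀ j, unif (J j) = ENNReal.ofReal (s j)) (hs : ∀ j, 0 ≤ s j) (α β : Fin d → ι) :
    labels (Fin d × ι) (InB J α ∩ InB J β) = ENNReal.ofReal (pr2 s α β) := by
  classical
  have e1 : InB J α ∩ InB J β =
      Set.univ.pi (fun r : Fin d × ι => if r.2 = α r.1 ∨ r.2 = β r.1 then J r.1 else Set.univ) := by
    ext w
    simp only [InB, Set.mem_inter_iff, Set.mem_ofPred_eq, Set.mem_pi, Set.mem_univ, true_imp_iff]
    constructor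
    · rintro ⟨h1, h2⟩ ⟨j, i⟩
      simp only
      split_ifs with h
      · rcases h with h | h
        · rw [h]; exact h1 j
        · rw [h]; exact h2 j
      · trivial
    · intro h
      constructor
      · intro j
        have := h (j, α j)
        simpa using this
      · intro j
        have := h (j, β j)
        simpa using this
  rw [e1]
  unfold labels
  rw [Measure.pi_pi, Fintype.prod_prod_type]
  unfold pr2
  rw [ENNReal.ofReal_prod_of_nonneg]
  · refine Finset.prod_congr rfl fun j _ => ?_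
    have h2 : ∀ i : ι, unif (if i = α j ∨ i = β j then J j else Set.univ) =
        if i = α j ∨ i = β j then unif (J j) else 1 := by
      intro i
      split_ifs <;> simp
    simp only [h2]
    rw [Finset.prod_ite, Finset.prod_const_one, mul_one, Finset.prod_const, hJs]
    have h3 : (univ.filter (fun i => i = α j ∨ i = β j)) = {α j, β j} := by
      ext i; simp
    rw [h3]
    split_ifs with h
    · rw [h]; simp
    · rw [Finset.card_pair h, ENNReal.ofReal_pow (hs j)]
  · intro j _
    split_ifs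
    · exact hs j
    · exact sq_nonneg _

lemma pr2_self (s : Fin d → ℝ) (α : Fin d → ι) : pr2 s α α = ∏ j, s j := by
  simp [pr2]

lemma measure_InB [Fintype ι] (J : Fin d → Set ℝ) (s : Fin d → ℝ)
    (hJs : ∀ j, unif (J j) = ENNReal.ofReal (s j)) (hs : ∀ j, 0 ≤ s j) (α : Fin d → ι) :
    labels (Fin d × ι) (InB J α) = ENNReal.ofReal (∏ j, s j) := by
  have := measure_pair J s hJs hs α α
  rwa [Set.inter_self, pr2_self] at this

/-- excess factor. -/
noncomputable def exc (s : Fin d → ℝ) (r : ℝ) : ℝ := ∏ j, (1 + r / s j) - 1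

open Classical in
lemma sum_share_le (G : Finset (Fin d → ι)) (r : ℝ) (hG : Reg G r) (s : Fin d → ℝ)
    (hs : ∀ j, 0 < s j) (α : Fin d → ι) (hα : α ∈ G) :
    ∑ β ∈ G.filter (fun β => β ≠ α ∧ ∃ j, α j = β j), pr2 s α β ≤
      (∏ j, s j) ^ 2 * G.card * exc s r := by
  have hp : 0 < ∏ j, s j := Finset.prod_pos fun j _ => hs j
  let f : (Fin d → ι) → Fin d → ℝ := fun β j => if α j = β j then (s j)⁻¹ else 0
  have hf : ∀ β j, 0 ≤ f β j := by
    intro β j
    simp only [f]
    split_ifs
    · exact inv_nonneg.mpr (hs j).le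
    · exact le_rfl
  have h1 : ∀ β, (∃ j, α j = β j) → pr2 s α β ≤ (∏ j, s j) ^ 2 * (∏ j, (1 + f β j) - 1) := by
    intro β ⟨i, hi⟩
    have e : pr2 s α β = (∏ j, s j) ^ 2 * ∏ j, (if α j = β j then (s j)⁻¹ else 1) := by
      rw [← Finset.prod_pow, ← Finset.prod_mul_distrib]
      unfold pr2
      refine Finset.prod_congr rfl fun j _ => ?_
      split_ifs
      · have := (hs j).ne'
        field_simp
      · rw [mul_one]
    rw [e]
    refine mul_le_mul_of_nonneg_left ?_ (by positivity)
    have := Finset.prod_add_prod_le (s := (Finset.univ : Finset (Fin d))) (i := i)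
      (f := fun j => 1 + f β j) (g := fun _ => (1 : ℝ))
      (h := fun j => if α j = β j then (s j)⁻¹ else 1) (mem_univ i) (by simp [f, hi])
      (fun j _ _ => by linarith [hf β j])
      (fun j _ _ => by
        simp only [f]
        split_ifs
        · linarith
        · linarith) (fun j _ => zero_le_one)
      (fun j _ => by
        split_ifs
        · exact inv_nonneg.mpr (hs j).le
        · exact zero_le_one)
    simp only [Finset.prod_const_one] at this
    linarith
  have h2 : ∀ β, ∏ j, (1 + f β j) - 1 =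
      ∑ T ∈ (univ : Finset (Fin d)).powerset.erase ∅, ∏ j ∈ T, f β j := by
    intro β
    rw [Finset.prod_one_add, ← Finset.add_sum_erase _ _ (empty_mem_powerset _)]
    simp
  have h3 : exc s r = ∑ T ∈ (univ : Finset (Fin d)).powerset.erase ∅, ∏ j ∈ T, (r / s j) := by
    unfold exc
    rw [Finset.prod_one_add, ← Finset.add_sum_erase _ _ (empty_mem_powerset _)]
    simp
  have h4 : ∀ T : Finset (Fin d), ∑ β ∈ G.filter (fun β => β ≠ α), ∏ j ∈ T, f β j ≤
      G.card * ∏ j ∈ T, (r / s j) := by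
    intro T
    have e1 : ∀ β, ∏ j ∈ T, f β j = if (∀ j ∈ T, α j = β j) then ∏ j ∈ T, (s j)⁻¹ else 0 := by
      intro β
      split_ifs with h
      · exact Finset.prod_congr rfl fun j hj => by simp only [f, h j hj, if_true]
      · push Not at h
        obtain ⟨j, hj, hne⟩ := h
        exact Finset.prod_eq_zero hj (by simp only [f, if_neg hne])
    simp_rw [e1]
    rw [← Finset.sum_filter, Finset.filter_filter, Finset.sum_const, nsmul_eq_mul]
    have e2 := hG α hα T (G.filter (fun β => β ≠ α ∧ ∀ j ∈ T, α j = β j)) (filter_subset _ _)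
      (fun β hβ => (mem_filter.mp hβ).2)
    have e3 : 0 ≤ ∏ j ∈ T, (s j)⁻¹ := Finset.prod_nonneg fun j _ => inv_nonneg.mpr (hs j).le
    calc _ ≤ (G.card * r ^ T.card) * ∏ j ∈ T, (s j)⁻¹ := mul_le_mul_of_nonneg_right e2 e3
      _ = _ := by
        rw [mul_assoc, ← Finset.prod_const, ← Finset.prod_mul_distrib]
        rfl
  calc ∑ β ∈ G.filter (fun β => β ≠ α ∧ ∃ j, α j = β j), pr2 s α β
      ≤ ∑ β ∈ G.filter (fun β => β ≠ α ∧ ∃ j, α j = β j),
          (∏ j, s j) ^ 2 * (∏ j, (1 + f β j) - 1) :=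
        Finset.sum_le_sum fun β hβ => h1 β (mem_filter.mp hβ).2.2
    _ ≤ ∑ β ∈ G.filter (fun β => β ≠ α), (∏ j, s j) ^ 2 * (∏ j, (1 + f β j) - 1) := by
        refine Finset.sum_le_sum_of_subset_of_nonneg ?_ ?_
        · intro β hβ
          simp only [mem_filter] at hβ ⊢
          exact ⟨hβ.1, hβ.2.1⟩
        · intro β _ _
          rw [h2]
          exact mul_nonneg (by positivity)
            (Finset.sum_nonneg fun T _ => Finset.prod_nonneg fun j _ => hf β j)
    _ = (∏ j, s j) ^ 2 * ∑ T ∈ (univ : Finset (Fin d)).powerset.erase ∅,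
          ∑ β ∈ G.filter (fun β => β ≠ α), ∏ j ∈ T, f β j := by
        rw [← Finset.mul_sum, Finset.sum_comm]
        congr 1
        exact Finset.sum_congr rfl fun β _ => h2 β
    _ ≤ (∏ j, s j) ^ 2 * ∑ T ∈ (univ : Finset (Fin d)).powerset.erase ∅,
          G.card * ∏ j ∈ T, (r / s j) := by
        refine mul_le_mul_of_nonneg_left ?_ (by positivity)
        exact Finset.sum_le_sum fun T _ => h4 T
    _ = _ := by
        rw [h3, ← Finset.mul_sum, mul_assoc]

open Classical in
lemma sum_offdiag_le (G : Finset (Fin d → ι)) (r : ℝ) (hG : Reg G r) (s : Fin d → ℝ)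
    (hs : ∀ j, 0 < s j) (α : Fin d → ι) (hα : α ∈ G) :
    ∑ β ∈ G.filter (fun β => β ≠ α), pr2 s α β ≤
      (∏ j, s j) ^ 2 * G.card * (1 + exc s r) := by
  have hp : 0 < ∏ j, s j := Finset.prod_pos fun j _ => hs j
  have h1 := sum_share_le G r hG s hs α hα
  have h2 : ∑ β ∈ G.filter (fun β => β ≠ α ∧ ¬ ∃ j, α j = β j), pr2 s α β ≤
      (∏ j, s j) ^ 2 * G.card := by
    have e : ∀ β ∈ G.filter (fun β => β ≠ α ∧ ¬ ∃ j, α j = β j), pr2 s α β = (∏ j, s j) ^ 2 := by
      intro β hβ
      have := (mem_filter.mp hβ).2.2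
      push Not at this
      unfold pr2
      rw [← Finset.prod_pow]
      exact Finset.prod_congr rfl fun j _ => by rw [if_neg (this j)]
    rw [Finset.sum_congr rfl e, Finset.sum_const, nsmul_eq_mul, mul_comm]
    refine mul_le_mul_of_nonneg_left ?_ (by positivity)
    exact_mod_cast Finset.card_filter_le _ _
  have h3 : ∑ β ∈ G.filter (fun β => β ≠ α), pr2 s α β =
      ∑ β ∈ G.filter (fun β => β ≠ α ∧ ∃ j, α j = β j), pr2 s α β +
      ∑ β ∈ G.filter (fun β => β ≠ α ∧ ¬ ∃ j, α j = β j), pr2 s α β := by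
    rw [← Finset.sum_filter_add_sum_filter_not (G.filter (fun β => β ≠ α))
      (fun β => ∃ j, α j = β j), Finset.filter_filter, Finset.filter_filter]
  rw [h3]
  nlinarith

end Second

end Pool.Agent.Lib.MP_f702fa_pr
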