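import Mathlib
import Pool.Agent.Lib.MP_f702fa_pr.Second

open MeasureTheory Finset
open scoped ENNReal

namespace Pool.Agent.Lib.MP_f702fa_pr

section Count

variable {d : ℕ} {ι : Type*} [Fintype ι]

omit [Fintype ι] in
lemma card_box_eq (J : Fin d → Set ℝ) (w : Fin d × ι → ℝ) (G : Finset (Fin d → ι)) :
    ((box J w G).card : ℝ) = ∑ α ∈ G, (InB J α).indicator (fun _ => (1 : ℝ)) w := by
  classical
  unfold box
  rw [Finset.card_filter]
  push_cast
  refine Finset.sum_congr rfl fun α _ => ?_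
  by_cases h : ∀ j, w (j, α j) ∈ J j
  · rw [if_pos h, Set.indicator_of_mem (by exact h)]
  · rw [if_neg h, Set.indicator_of_notMem (by exact h)]

omit [Fintype ι] in
lemma card_box_sq_eq (J : Fin d → Set ℝ) (w : Fin d × ι → ℝ) (G : Finset (Fin d → ι)) :
    ((box J w G).card : ℝ) ^ 2 =
      ∑ α ∈ G, ∑ β ∈ G, (InB J α ∩ InB J β).indicator (fun _ => (1 : ℝ)) w := by
  rw [card_box_eq, sq, Finset.sum_mul_sum]
  refine Finset.sum_congr rfl fun α _ => Finset.sum_congr rfl fun β _ => ?_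
  rw [← Set.inter_indicator_mul]
  simp

variable (J : Fin d → Set ℝ) (hJ : ∀ j, MeasurableSet (J j)) (s : Fin d → ℝ)
    (hJs : ∀ j, unif (J j) = ENNReal.ofReal (s j)) (hs : ∀ j, 0 < s j)

include hJ in
lemma integrable_ind (α β : Fin d → ι) :
    Integrable ((InB J α ∩ InB J β).indicator (fun _ => (1 : ℝ))) (labels (Fin d × ι)) :=
  (integrable_const 1).indicator ((measurableSet_InB J hJ α).inter (measurableSet_InB J hJ β))

include hJ in
lemma integrable_ind' (α : Fin d → ι) :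
    Integrable ((InB J α).indicator (fun _ => (1 : ℝ))) (labels (Fin d × ι)) :=
  (integrable_const 1).indicator (measurableSet_InB J hJ α)

include hJ in
lemma integrable_card (G : Finset (Fin d → ι)) :
    Integrable (fun w => ((box J w G).card : ℝ)) (labels (Fin d × ι)) := by
  simp_rw [card_box_eq]
  exact integrable_finsetSum _ fun α _ => integrable_ind' J hJ α

include hJ in
lemma integrable_card_sq (G : Finset (Fin d → ι)) :
    Integrable (fun w => ((box J w G).card : ℝ) ^ 2) (labels (Fin d × ι)) := by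
  simp_rw [card_box_sq_eq]
  exact integrable_finsetSum _ fun α _ => integrable_finsetSum _ fun β _ =>
    integrable_ind J hJ α β

include hJ hJs hs in
lemma integral_card (G : Finset (Fin d → ι)) :
    ∫ w, ((box J w G).card : ℝ) ∂(labels (Fin d × ι)) = G.card * ∏ j, s j := by
  simp_rw [card_box_eq]
  rw [integral_finsetSum _ fun α _ => integrable_ind' J hJ α]
  have : ∀ α ∈ G, ∫ w, (InB J α).indicator (fun _ => (1 : ℝ)) w ∂(labels (Fin d × ι)) =
      ∏ j, s j := by
    intro α _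
    rw [integral_indicator_const _ (measurableSet_InB J hJ α), smul_eq_mul, mul_one,
      Measure.real, measure_InB J s hJs (fun j => (hs j).le) α,
      ENNReal.toReal_ofReal (Finset.prod_nonneg fun j _ => (hs j).le)]
  rw [Finset.sum_congr rfl this, Finset.sum_const, nsmul_eq_mul]

omit [Fintype ι] in
include hs in
lemma pr2_nonneg (α β : Fin d → ι) : 0 ≤ pr2 s α β := by
  unfold pr2
  refine Finset.prod_nonneg fun j _ => ?_
  split_ifs
  · exact (hs j).le
  · exact sq_nonneg _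

include hJ hJs hs in
lemma integral_card_sq_le (G : Finset (Fin d → ι)) (r : ℝ) (hG : Reg G r) :
    ∫ w, ((box J w G).card : ℝ) ^ 2 ∂(labels (Fin d × ι)) ≤
      G.card * ∏ j, s j + (G.card * ∏ j, s j) ^ 2 * (1 + exc s r) := by
  classical
  simp_rw [card_box_sq_eq]
  rw [integral_finsetSum _ fun α _ => integrable_finsetSum _ fun β _ =>
    integrable_ind J hJ α β]
  have h1 : ∀ α ∈ G, ∫ w, ∑ β ∈ G, (InB J α ∩ InB J β).indicator (fun _ => (1 : ℝ)) w
      ∂(labels (Fin d × ι)) ≤ ∏ j, s j + (∏ j, s j) ^ 2 * G.card * (1 + exc s r) := by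
    intro α hα
    rw [integral_finsetSum _ fun β _ => integrable_ind J hJ α β]
    have h2 : ∀ β ∈ G, ∫ w, (InB J α ∩ InB J β).indicator (fun _ => (1 : ℝ)) w
        ∂(labels (Fin d × ι)) = pr2 s α β := by
      intro β _
      rw [integral_indicator_const _ ((measurableSet_InB J hJ α).inter (measurableSet_InB J hJ β)),
        smul_eq_mul, mul_one, Measure.real, measure_pair J s hJs (fun j => (hs j).le) α β,
        ENNReal.toReal_ofReal (pr2_nonneg s hs α β)]
    rw [Finset.sum_congr rfl h2]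
    have h3 := sum_offdiag_le G r hG s hs α hα
    have h4 : ∑ β ∈ G, pr2 s α β = pr2 s α α + ∑ β ∈ G.filter (fun β => β ≠ α), pr2 s α β := by
      rw [← Finset.sum_filter_add_sum_filter_not G (fun β => β = α)]
      congr 1
      rw [Finset.filter_eq', if_pos hα, Finset.sum_singleton]
    rw [h4, pr2_self]
    linarith
  calc _ ≤ ∑ α ∈ G, (∏ j, s j + (∏ j, s j) ^ 2 * G.card * (1 + exc s r)) := Finset.sum_le_sum h1
    _ = _ := by
      rw [Finset.sum_const, nsmul_eq_mul]
      ring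

omit [Fintype ι] in
lemma not_transv_subset (G : Finset (Fin d → ι)) :
    {w : Fin d × ι → ℝ | ¬ Transv (box J w G)} ⊆
      ⋃ α ∈ G, ⋃ β ∈ {β | β ∈ G ∧ β ≠ α ∧ ∃ j, α j = β j}, (InB J α ∩ InB J β) := by
  intro w hw
  simp only [Set.mem_ofPred_eq, Transv] at hw
  push Not at hw
  obtain ⟨α, hα, β, hβ, hne, j, hj⟩ := hw
  simp only [Set.mem_iUnion, exists_prop]
  exact ⟨α, (mem_box.mp hα).1, β, ⟨(mem_box.mp hβ).1, hne.symm, j, hj⟩,
    (mem_box.mp hα).2, (mem_box.mp hβ).2⟩

include hJs hs in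
lemma measure_not_transv_le (G : Finset (Fin d → ι)) (r : ℝ) (hG : Reg G r) :
    labels (Fin d × ι) {w | ¬ Transv (box J w G)} ≤
      ENNReal.ofReal ((G.card * ∏ j, s j) ^ 2 * exc s r) := by
  classical
  have hsub := not_transv_subset J G
  calc labels (Fin d × ι) {w | ¬ Transv (box J w G)}
      ≤ labels (Fin d × ι) (⋃ α ∈ G, ⋃ β ∈ G.filter (fun β => β ≠ α ∧ ∃ j, α j = β j),
          (InB J α ∩ InB J β)) := by
        refine measure_mono (hsub.trans ?_)
        intro w hw
        simp only [Set.mem_iUnion, exists_prop, mem_filter] at hw ⊢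
        exact hw
    _ ≤ ∑ α ∈ G, labels (Fin d × ι) (⋃ β ∈ G.filter (fun β => β ≠ α ∧ ∃ j, α j = β j),
          (InB J α ∩ InB J β)) := measure_biUnion_finset_le _ _
    _ ≤ ∑ α ∈ G, ∑ β ∈ G.filter (fun β => β ≠ α ∧ ∃ j, α j = β j),
          labels (Fin d × ι) (InB J α ∩ InB J β) :=
        Finset.sum_le_sum fun α _ => measure_biUnion_finset_le _ _
    _ = ∑ α ∈ G, ENNReal.ofReal (∑ β ∈ G.filter (fun β => β ≠ α ∧ ∃ j, α j = β j),
          pr2 s α β) := by
        refine Finset.sum_congr rfl fun α _ => ?_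
        rw [ENNReal.ofReal_sum_of_nonneg fun β _ => pr2_nonneg s hs α β]
        exact Finset.sum_congr rfl fun β _ => measure_pair J s hJs (fun j => (hs j).le) α β
    _ ≤ ∑ α ∈ G, ENNReal.ofReal ((∏ j, s j) ^ 2 * G.card * exc s r) :=
        Finset.sum_le_sum fun α hα => ENNReal.ofReal_le_ofReal (sum_share_le G r hG s hs α hα)
    _ = _ := by
        rw [Finset.sum_const, nsmul_eq_mul, ← ENNReal.ofReal_natCast,
          ← ENNReal.ofReal_mul (Nat.cast_nonneg _)]
        congr 1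
        ring

/-- a Chebyshev bound in real form. -/
lemma cheb_two {Ω : Type*} [MeasurableSpace Ω] (μ : Measure Ω) [IsProbabilityMeasure μ]
    (X : Ω → ℝ) (hX : Integrable X μ) (hX2 : Integrable (fun ω => X ω ^ 2) μ) (A : ℝ)
    (hA : ∫ ω, X ω ^ 2 ∂μ ≤ (∫ ω, X ω ∂μ) ^ 2 + A) {l : ℝ} (hl : 0 < l) :
    μ {ω | l ≤ |X ω - ∫ ω', X ω' ∂μ|} ≤ ENNReal.ofReal (A / l ^ 2) := by
  set m := ∫ ω', X ω' ∂μ with hm
  have hY : Integrable (fun ω => (X ω - m) ^ 2) μ := by
    have : (fun ω => (X ω - m) ^ 2) = fun ω => X ω ^ 2 - 2 * m * X ω + m ^ 2 := by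
      funext ω; ring
    rw [this]
    exact (hX2.sub (hX.const_mul _)).add (integrable_const _)
  have h1 : ∫ ω, (X ω - m) ^ 2 ∂μ ≤ A := by
    have e : ∫ ω, (X ω - m) ^ 2 ∂μ = (∫ ω, X ω ^ 2 ∂μ - 2 * m * m) + m ^ 2 := by
      calc ∫ ω, (X ω - m) ^ 2 ∂μ = ∫ ω, ((X ω ^ 2 - 2 * m * X ω) + m ^ 2) ∂μ := by
            congr 1; funext ω; ring
        _ = ∫ ω, (X ω ^ 2 - 2 * m * X ω) ∂μ + ∫ _, m ^ 2 ∂μ :=
            integral_add (hX2.sub (hX.const_mul _)) (integrable_const _)
        _ = (∫ ω, X ω ^ 2 ∂μ - ∫ ω, 2 * m * X ω ∂μ) + ∫ _, m ^ 2 ∂μ := by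
            rw [integral_sub hX2 (hX.const_mul _)]
        _ = _ := by
            rw [integral_const_mul, integral_const]
            simp only [probReal_univ, smul_eq_mul, one_mul]
            rfl
    rw [e]
    nlinarith
  have h2 := mul_meas_ge_le_integral_of_nonneg (μ := μ) (f := fun ω => (X ω - m) ^ 2)
    (Filter.Eventually.of_forall fun ω => sq_nonneg _) hY (l ^ 2)
  have h3 : {ω | l ≤ |X ω - m|} ⊆ {ω | l ^ 2 ≤ (X ω - m) ^ 2} := by
    intro ω hω
    simp only [Set.mem_ofPred_eq] at hω ⊢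
    rw [← sq_abs (X ω - m)]
    exact pow_le_pow_left₀ hl.le hω 2
  refine (measure_mono h3).trans ?_
  rw [← ofReal_measureReal]
  refine ENNReal.ofReal_le_ofReal ?_
  rw [le_div_iff₀ (by positivity)]
  linarith

include hJ hJs hs in
/-- concentration of the number of points in a box. -/
lemma measure_card_dev_le (G : Finset (Fin d → ι)) (r : ℝ) (hG : Reg G r) {l : ℝ} (hl : 0 < l) :
    labels (Fin d × ι) {w | l ≤ |((box J w G).card : ℝ) - G.card * ∏ j, s j|} ≤
      ENNReal.ofReal ((G.card * ∏ j, s j + (G.card * ∏ j, s j) ^ 2 * exc s r) / l ^ 2) := by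
  have h := cheb_two (labels (Fin d × ι)) (fun w => ((box J w G).card : ℝ))
    (integrable_card J hJ G) (integrable_card_sq J hJ G)
    (G.card * ∏ j, s j + (G.card * ∏ j, s j) ^ 2 * exc s r) (by
      rw [integral_card J hJ s hJs hs G]
      have := integral_card_sq_le J hJ s hJs hs G r hG
      linarith) hl
  rw [integral_card J hJ s hJs hs G] at h
  exact h

end Count

end Pool.Agent.Lib.MP_f702fa_pr
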