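import Mathlib
import Pool.Agent.Lib.MP_f702fa_pr.Count

open MeasureTheory Finset Filter
open scoped ENNReal

namespace Pool.Agent.Lib.MP_f702fa_pr

/-- expected longest chain among `t` iid points. -/
noncomputable def pexp (d t : ℕ) : ℝ := (iexp d (fun n => (n : ℝ≥0∞)) t).toReal

lemma pexp_nonneg (d t : ℕ) : 0 ≤ pexp d t := ENNReal.toReal_nonneg

lemma iexp_cast_ne_top (d t : ℕ) : iexp d (fun n => (n : ℝ≥0∞)) t ≠ ⊤ := by
  unfold iexp
  refine ne_of_lt (lt_of_le_of_lt (lintegral_mono (g := fun _ => (t : ℝ≥0∞)) fun w => ?_) ?_)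
  · have : ilen t w ≤ t := by
      have := clen_le_card (univ : Finset (Fin t)) (ipos w)
      simpa [ilen] using this
    simp only
    exact_mod_cast this
  · rw [lintegral_const, measure_univ, mul_one]
    exact ENNReal.natCast_lt_top t

lemma ofReal_pexp (d t : ℕ) : ENNReal.ofReal (pexp d t) = iexp d (fun n => (n : ℝ≥0∞)) t :=
  ENNReal.ofReal_toReal (iexp_cast_ne_top d t)

lemma pexp_le {d : ℕ} (hd : 0 < d) (t : ℕ) (ht : 0 < t) :
    pexp d t ≤ 2 * (Real.exp ((Real.exp 2 + 1) / 2) + 3) * rt d t := by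
  have h := iexp_cast_le hd t ht
  have h0 : 0 ≤ 2 * (Real.exp ((Real.exp 2 + 1) / 2) + 3) * rt d t :=
    mul_nonneg (by positivity) (rt_nonneg d (Nat.cast_nonneg _))
  exact ENNReal.toReal_le_of_le_ofReal h0 h

/-- the growth constant of the iid model (as an upper limit). -/
lemma exists_const {d : ℕ} (hd : 0 < d) :
    ∃ b : ℝ, 0 ≤ b ∧ (∀ ε > 0, ∀ᶠ t : ℕ in atTop, pexp d t ≤ (b + ε) * rt d t) ∧
      ∀ ε > 0, ∃ᶠ t : ℕ in atTop, (b - ε) * rt d t ≤ pexp d t := by
  set f : ℕ → ℝ := fun t => pexp d t / rt d t with hf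
  set C := 2 * (Real.exp ((Real.exp 2 + 1) / 2) + 3) with hC
  have hrt : ∀ t : ℕ, 0 < t → 0 < rt d t := by
    intro t ht
    have : (1 : ℝ) ≤ t := by exact_mod_cast ht
    linarith [one_le_rt d this]
  have hf0 : ∀ t, 0 ≤ f t := fun t => div_nonneg (pexp_nonneg d t) (rt_nonneg d (Nat.cast_nonneg _))
  have hfC : ∀ᶠ t in atTop, f t ≤ C := by
    filter_upwards [eventually_gt_atTop 0] with t ht
    rw [hf, div_le_iff₀ (hrt t ht)]
    exact pexp_le hd t ht
  have hbd : IsBoundedUnder (· ≤ ·) atTop f := ⟨C, by simpa using hfC⟩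
  have hcobd : IsCoboundedUnder (· ≤ ·) atTop f :=
    IsBoundedUnder.isCoboundedUnder_le (isBoundedUnder_of ⟨0, hf0⟩)
  set b := limsup f atTop with hb
  have P1 : ∀ ε > 0, ∀ᶠ t : ℕ in atTop, pexp d t ≤ (b + ε) * rt d t := by
    intro ε hε
    have h1 : ∀ᶠ t in atTop, f t < b + ε := eventually_lt_of_limsup_lt (by linarith) hbd
    filter_upwards [h1, eventually_gt_atTop 0] with t h2 ht
    have := (div_lt_iff₀ (hrt t ht)).mp h2
    exact this.le
  have P2 : ∀ ε > 0, ∃ᶠ t : ℕ in atTop, (b - ε) * rt d t ≤ pexp d t := by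
    intro ε hε
    have h1 : ∃ᶠ t in atTop, b - ε < f t := frequently_lt_of_lt_limsup hcobd (by linarith)
    refine (h1.and_eventually (eventually_gt_atTop 0)).mono ?_
    rintro t ⟨h2, ht⟩
    have := (lt_div_iff₀ (hrt t ht)).mp h2
    exact this.le
  refine ⟨b, ?_, P1, P2⟩
  by_contra hneg
  push Not at hneg
  obtain ⟨t, h1, ht⟩ := ((P1 (-b / 2) (by linarith)).and (eventually_gt_atTop 0)).exists
  have h2 := pexp_nonneg d t
  have h3 := hrt t ht
  nlinarith

end Pool.Agent.Lib.MP_f702fa_pr
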