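import Mathlib
import Pool.Agent.Lib.MP_f702fa_pr.Const

open MeasureTheory Finset Filter
open scoped ENNReal

namespace Pool.Agent.Lib.MP_f702fa_pr

section Good

variable {d : ℕ} {ι : Type*} [Fintype ι]

lemma measurableSet_of_box (J : Fin d → Set ℝ) (hJ : ∀ j, MeasurableSet (J j))
    (G : Finset (Fin d → ι)) (P : Finset (Fin d → ι) → Prop) :
    MeasurableSet {w : Fin d × ι → ℝ | P (box J w G)} := by
  classical
  have h1 : ∀ S : Finset (Fin d → ι), MeasurableSet {w : Fin d × ι → ℝ | box J w G = S} := by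
    intro S
    have : {w : Fin d × ι → ℝ | box J w G = S} =
        ⋂ α, {w | (α ∈ G ∧ w ∈ InB J α) ↔ α ∈ S} := by
      ext w
      simp only [Set.mem_ofPred_eq, Finset.ext_iff, Set.mem_iInter, mem_box]
      rfl
    rw [this]
    refine MeasurableSet.iInter fun α => ?_
    by_cases hS : α ∈ S
    · have : {w | (α ∈ G ∧ w ∈ InB J α) ↔ α ∈ S} = {w | α ∈ G} ∩ InB J α := by
        ext w; simp [hS]
      rw [this]
      exact (MeasurableSet.const _).inter (measurableSet_InB J hJ α)
    · have : {w | (α ∈ G ∧ w ∈ InB J α) ↔ α ∈ S} = ({w | α ∈ G} ∩ InB J α)ᶜ := by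
        ext w; simp [hS]
      rw [this]
      exact ((MeasurableSet.const _).inter (measurableSet_InB J hJ α)).compl
  have h2 : {w : Fin d × ι → ℝ | P (box J w G)} =
      ⋃ S ∈ (univ : Finset (Finset (Fin d → ι))).filter P, {w | box J w G = S} := by
    ext w
    simp
  rw [h2]
  exact Finset.measurableSet_biUnion _ fun S _ => h1 S

lemma measurable_of_box (J : Fin d → Set ℝ) (hJ : ∀ j, MeasurableSet (J j))
    (G : Finset (Fin d → ι)) {Y : Type*} [MeasurableSpace Y] (F : Finset (Fin d → ι) → Y) :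
    Measurable (fun w : Fin d × ι → ℝ => F (box J w G)) := by
  intro A _
  exact measurableSet_of_box J hJ G (fun S => F S ∈ A)

/-- good sets: transversal with about the expected number of points. -/
def GoodS (V e : ℝ) (S : Finset (Fin d → ι)) : Prop :=
  Transv S ∧ |(S.card : ℝ) - V| < e * V

lemma measure_not_good (J : Fin d → Set ℝ) (hJ : ∀ j, MeasurableSet (J j)) (s : Fin d → ℝ)
    (hJs : ∀ j, unif (J j) = ENNReal.ofReal (s j)) (hs : ∀ j, 0 < s j) (G : Finset (Fin d → ι))
    (r : ℝ) (hG : Reg G r) {V e : ℝ} (hV : V = G.card * ∏ j, s j) (hV0 : 0 < V) (he : 0 < e)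
    (hexc : 0 ≤ exc s r) :
    labels (Fin d × ι) {w | ¬ GoodS V e (box J w G)} ≤
      ENNReal.ofReal (V ^ 2 * exc s r + (1 / V + exc s r) / e ^ 2) := by
  have hsub : {w : Fin d × ι → ℝ | ¬ GoodS V e (box J w G)} ⊆
      {w | ¬ Transv (box J w G)} ∪ {w | e * V ≤ |((box J w G).card : ℝ) - G.card * ∏ j, s j|} := by
    intro w hw
    simp only [GoodS, Set.mem_ofPred_eq, not_and, not_lt, Set.mem_union] at hw ⊢
    by_cases h : Transv (box J w G)
    · right
      rw [← hV]
      exact hw h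
    · left; exact h
  calc labels (Fin d × ι) {w | ¬ GoodS V e (box J w G)}
      ≤ labels (Fin d × ι) {w | ¬ Transv (box J w G)} +
        labels (Fin d × ι) {w | e * V ≤ |((box J w G).card : ℝ) - G.card * ∏ j, s j|} :=
        (measure_mono hsub).trans (measure_union_le _ _)
    _ ≤ ENNReal.ofReal ((G.card * ∏ j, s j) ^ 2 * exc s r) +
        ENNReal.ofReal ((G.card * ∏ j, s j + (G.card * ∏ j, s j) ^ 2 * exc s r) / (e * V) ^ 2) :=
        add_le_add (measure_not_transv_le J s hJs hs G r hG)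
          (measure_card_dev_le J hJ s hJs hs G r hG (by positivity))
    _ = _ := by
        rw [← hV, ← ENNReal.ofReal_add (by positivity) (by positivity)]
        congr 1
        field_simp

/-- inner expectation given the set of points in the box. -/
noncomputable def inner (φ : ℕ → ℝ≥0∞) (S : Finset (Fin d → ι)) : ℝ≥0∞ :=
  ∫⁻ w, φ (clen S (pos w)) ∂(labels (Fin d × ι))

lemma lintegral_blen' (a b : Fin d → ℝ) (ha : ∀ j, 0 ≤ a j) (hab : ∀ j, a j < b j)
    (hb : ∀ j, b j ≤ 1) (G : Finset (Fin d → ι)) (φ : ℕ → ℝ≥0∞) :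
    ∫⁻ u, φ (blen (fun j => Set.Ico (a j) (b j)) G u) ∂(labels (Fin d × ι)) =
      ∫⁻ v, inner φ (box (fun j => Set.Ico (a j) (b j)) v G) ∂(labels (Fin d × ι)) :=
  lintegral_blen a b ha hab hb G φ

lemma le_lintegral_blen (a b : Fin d → ℝ) (ha : ∀ j, 0 ≤ a j) (hab : ∀ j, a j < b j)
    (hb : ∀ j, b j ≤ 1) (G : Finset (Fin d → ι)) (φ : ℕ → ℝ≥0∞) (hφ : Monotone φ) (V e : ℝ)
    (t : ℕ) (ht : (t : ℝ) ≤ (1 - e) * V) (ρ : ℝ) (hρ : 0 ≤ ρ)
    (hbad : labels (Fin d × ι) {w | ¬ GoodS V e (box (fun j => Set.Ico (a j) (b j)) w G)} ≤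
      ENNReal.ofReal ρ) :
    ENNReal.ofReal (1 - ρ) * iexp d φ t ≤
      ∫⁻ u, φ (blen (fun j => Set.Ico (a j) (b j)) G u) ∂(labels (Fin d × ι)) := by
  rw [lintegral_blen' a b ha hab hb G φ]
  set J : Fin d → Set ℝ := fun j => Set.Ico (a j) (b j) with hJdef
  have hJ : ∀ j, MeasurableSet (J j) := fun j => measurableSet_Ico
  set c := iexp d φ t with hc
  have h1 : c * labels (Fin d × ι) {v | c ≤ inner φ (box J v G)} ≤
      ∫⁻ v, inner φ (box J v G) ∂(labels (Fin d × ι)) :=
    mul_meas_ge_le_lintegral (measurable_of_box J hJ G (inner φ)) c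
  have h2 : {v : Fin d × ι → ℝ | c ≤ inner φ (box J v G)}ᶜ ⊆
      {w | ¬ GoodS V e (box J w G)} := by
    intro v hv
    simp only [Set.mem_compl_iff, Set.mem_ofPred_eq] at hv ⊢
    intro hg
    apply hv
    have h3 : (t : ℝ) ≤ ((box J v G).card : ℝ) := by
      have := (abs_lt.mp hg.2).1
      linarith
    have h4 : t ≤ (box J v G).card := by exact_mod_cast h3
    exact iexp_le_of_transv_subset _ _ hg.1 subset_rfl φ hφ t h4
  have h3 : 1 - ENNReal.ofReal ρ ≤ labels (Fin d × ι) {v | c ≤ inner φ (box J v G)} := by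
    have h4 : (1 : ℝ≥0∞) ≤ labels (Fin d × ι) {v | c ≤ inner φ (box J v G)} + ENNReal.ofReal ρ := by
      calc (1 : ℝ≥0∞) = labels (Fin d × ι) Set.univ := measure_univ.symm
        _ ≤ labels (Fin d × ι) {v | c ≤ inner φ (box J v G)} +
            labels (Fin d × ι) {v | c ≤ inner φ (box J v G)}ᶜ := by
            rw [← Set.union_compl_self {v | c ≤ inner φ (box J v G)}]
            exact measure_union_le _ _
        _ ≤ _ := add_le_add le_rfl ((measure_mono h2).trans hbad)
    exact tsub_le_iff_right.mpr h4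
  calc ENNReal.ofReal (1 - ρ) * c = c * (1 - ENNReal.ofReal ρ) := by
        rw [mul_comm, ENNReal.ofReal_sub 1 hρ, ENNReal.ofReal_one]
    _ ≤ c * labels (Fin d × ι) {v | c ≤ inner φ (box J v G)} := mul_le_mul' le_rfl h3
    _ ≤ _ := h1

lemma phe_le_add {θ K : ℝ} (hK : 0 < K) (n : ℕ) :
    phe θ n ≤ ENNReal.ofReal K + ENNReal.ofReal K⁻¹ * phe (2 * θ) n := by
  unfold phe
  rw [← ENNReal.ofReal_mul (by positivity), ← ENNReal.ofReal_add hK.le (by positivity)]
  refine ENNReal.ofReal_le_ofReal ?_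
  have h1 : Real.exp (2 * θ * n) = Real.exp (θ * n) ^ 2 := by
    rw [sq, ← Real.exp_add]; congr 1; ring
  rw [h1]
  set x := Real.exp (θ * n) with hx
  have hx0 : 0 < x := Real.exp_pos _
  have h2 : x * K ≤ K ^ 2 + x ^ 2 := by nlinarith [sq_nonneg (x - K)]
  have h3 : x = K⁻¹ * (x * K) := by field_simp
  calc x = K⁻¹ * (x * K) := h3
    _ ≤ K⁻¹ * (K ^ 2 + x ^ 2) := by gcongr
    _ = K + K⁻¹ * x ^ 2 := by field_simp

lemma lintegral_blen_phe_good (a b : Fin d → ℝ) (ha : ∀ j, 0 ≤ a j) (hab : ∀ j, a j < b j)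
    (hb : ∀ j, b j ≤ 1) (G : Finset (Fin d → ι)) (θ : ℝ) (hθ : 0 ≤ θ) (V e : ℝ)
    (t : ℕ) (ht : (1 + e) * V ≤ t) (ρ : ℝ) (K : ℝ) (hK : 0 < K)
    (hbad : labels (Fin d × ι) {w | ¬ GoodS V e (box (fun j => Set.Ico (a j) (b j)) w G)} ≤
      ENNReal.ofReal ρ) :
    ∫⁻ u, phe θ (blen (fun j => Set.Ico (a j) (b j)) G u) ∂(labels (Fin d × ι)) ≤
      iexp d (phe θ) t + ENNReal.ofReal K * ENNReal.ofReal ρ + ENNReal.ofReal K⁻¹ *
        ∫⁻ u, phe (2 * θ) (blen (fun j => Set.Ico (a j) (b j)) G u) ∂(labels (Fin d × ι)) := by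
  rw [lintegral_blen' a b ha hab hb G (phe θ), lintegral_blen' a b ha hab hb G (phe (2 * θ))]
  set J : Fin d → Set ℝ := fun j => Set.Ico (a j) (b j) with hJdef
  have hJ : ∀ j, MeasurableSet (J j) := fun j => measurableSet_Ico
  set Bd : Set (Fin d × ι → ℝ) := {w | ¬ GoodS V e (box J w G)} with hBd
  have hBdm : MeasurableSet Bd := measurableSet_of_box J hJ G (fun S => ¬ GoodS V e S)
  have hpt : ∀ v, inner (phe θ) (box J v G) ≤ iexp d (phe θ) t +
      Bd.indicator (fun _ => ENNReal.ofReal K) v +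
      ENNReal.ofReal K⁻¹ * inner (phe (2 * θ)) (box J v G) := by
    intro v
    by_cases hv : v ∈ Bd
    · rw [Set.indicator_of_mem hv]
      have : inner (phe θ) (box J v G) ≤ ENNReal.ofReal K +
          ENNReal.ofReal K⁻¹ * inner (phe (2 * θ)) (box J v G) := by
        unfold inner
        rw [← lintegral_const_mul' _ _ ENNReal.ofReal_ne_top]
        calc ∫⁻ w, phe θ (clen (box J v G) (pos w)) ∂(labels (Fin d × ι))
            ≤ ∫⁻ w, (ENNReal.ofReal K + ENNReal.ofReal K⁻¹ *
                phe (2 * θ) (clen (box J v G) (pos w))) ∂(labels (Fin d × ι)) :=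
              lintegral_mono fun w => phe_le_add hK _
          _ = _ := by
              rw [lintegral_add_left measurable_const, lintegral_const, measure_univ, mul_one]
      refine this.trans ?_
      rw [add_assoc]
      exact le_add_self
    · rw [Set.indicator_of_notMem hv, add_zero]
      refine le_add_right ?_
      have hg : GoodS V e (box J v G) := by
        by_contra h; exact hv h
      have h3 : ((box J v G).card : ℝ) ≤ t := by
        have := (abs_lt.mp hg.2).2
        linarith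
      have h4 : (box J v G).card ≤ t := by exact_mod_cast h3
      exact le_iexp_of_transv _ hg.1 _ (phe_mono hθ) t h4
  calc ∫⁻ v, inner (phe θ) (box J v G) ∂(labels (Fin d × ι))
      ≤ ∫⁻ v, (iexp d (phe θ) t + Bd.indicator (fun _ => ENNReal.ofReal K) v +
      ENNReal.ofReal K⁻¹ * inner (phe (2 * θ)) (box J v G)) ∂(labels (Fin d × ι)) :=
        lintegral_mono hpt
    _ = iexp d (phe θ) t + ENNReal.ofReal K * labels (Fin d × ι) Bd + ENNReal.ofReal K⁻¹ *
        ∫⁻ v, inner (phe (2 * θ)) (box J v G) ∂(labels (Fin d × ι)) := by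
        rw [lintegral_add_right _ ((measurable_of_box J hJ G _).const_mul _),
          lintegral_add_left measurable_const, lintegral_const, measure_univ, mul_one,
          lintegral_indicator_const hBdm, lintegral_const_mul' _ _ ENNReal.ofReal_ne_top]
    _ ≤ _ := by gcongr

end Good

end Pool.Agent.Lib.MP_f702fa_pr
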