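import Mathlib
import Pool.Agent.Lib.MP_f702fa_pr.Good

open MeasureTheory Finset Filter
open scoped ENNReal

namespace Pool.Agent.Lib.MP_f702fa_pr

section NatInt

variable {Ω : Type*} [MeasurableSpace Ω] (μ : Measure Ω)

lemma integral_natCast (X : Ω → ℕ) (hX : Measurable X) :
    ∫ ω, (X ω : ℝ) ∂μ = (∫⁻ ω, (X ω : ℝ≥0∞) ∂μ).toReal := by
  rw [integral_eq_lintegral_of_nonneg_ae (Eventually.of_forall fun ω => Nat.cast_nonneg _)
    (measurable_from_top.comp hX).aestronglyMeasurable]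
  simp only [ENNReal.ofReal_natCast]

lemma lintegral_natCast_ne_top [IsProbabilityMeasure μ] (X : Ω → ℕ) (N : ℕ)
    (hN : ∀ ω, X ω ≤ N) : ∫⁻ ω, (X ω : ℝ≥0∞) ∂μ ≠ ⊤ := by
  refine ne_of_lt (lt_of_le_of_lt (lintegral_mono (g := fun _ => (N : ℝ≥0∞)) fun w => ?_) ?_)
  · simp only
    exact_mod_cast hN w
  · rw [lintegral_const, measure_univ, mul_one]
    exact ENNReal.natCast_lt_top N

lemma integrable_natCast [IsProbabilityMeasure μ] (X : Ω → ℕ) (hX : Measurable X) (N : ℕ)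
    (hN : ∀ ω, X ω ≤ N) : Integrable (fun ω => (X ω : ℝ)) μ := by
  refine Integrable.of_bound (measurable_from_top.comp hX).aestronglyMeasurable (N : ℝ)
    (Eventually.of_forall fun ω => ?_)
  rw [Real.norm_of_nonneg (Nat.cast_nonneg _)]
  exact_mod_cast hN ω

end NatInt

section Lower

variable {d : ℕ} {ι : Type*} [Fintype ι]

omit [Fintype ι] in
lemma blen_le_card_box (J : Fin d → Set ℝ) (G : Finset (Fin d → ι)) (w : Fin d × ι → ℝ) :
    blen J G w ≤ (box J w G).card := clen_le_card _ _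

omit [Fintype ι] in
lemma blen_le (J : Fin d → Set ℝ) (G : Finset (Fin d → ι)) (w : Fin d × ι → ℝ) :
    blen J G w ≤ G.card := (blen_le_card_box J G w).trans (card_le_card box_subset)

/-- the diagonal cells. -/
noncomputable def dcell (d Q : ℕ) (i : ℕ) : Fin d → Set ℝ :=
  fun _ => Set.Ico ((i : ℝ) / Q) (((i : ℝ) + 1) / Q)

lemma dcell_disjoint {Q : ℕ} (hQ : 0 < Q) {i i' : ℕ} (h : i ≠ i') (j : Fin d) :
    Disjoint (dcell d Q i j) (dcell d Q i' j) := by
  have hQ' : (0 : ℝ) < Q := by exact_mod_cast hQ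
  rw [Set.disjoint_left]
  intro x h1 h2
  simp only [dcell, Set.mem_Ico] at h1 h2
  rcases lt_or_gt_of_ne h with hlt | hlt
  · have : (i : ℝ) + 1 ≤ i' := by exact_mod_cast hlt
    have h3 : ((i : ℝ) + 1) / Q ≤ (i' : ℝ) / Q := div_le_div_of_nonneg_right this hQ'.le
    linarith [h1.2, h2.1]
  · have : (i' : ℝ) + 1 ≤ i := by exact_mod_cast hlt
    have h3 : ((i' : ℝ) + 1) / Q ≤ (i : ℝ) / Q := div_le_div_of_nonneg_right this hQ'.le
    linarith [h1.1, h2.2]

omit [Fintype ι] in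
lemma sum_dcell_le [DecidableEq ι] (hd : 0 < d) {Q : ℕ} (hQ : 0 < Q) (G : Finset (Fin d → ι))
    (w : Fin d × ι → ℝ) :
    ∑ i : Fin Q, blen (dcell d Q i) G w ≤ clen G (pos w) := by
  have hQ' : (0 : ℝ) < Q := by exact_mod_cast hQ
  refine sum_clen_le (fun i : Fin Q => box (dcell d Q i) w G) G (fun i => box_subset) (pos w) hd ?_
  intro i i' hlt α hα β hβ j
  have h1 := (mem_box.mp hα).2 j
  have h2 := (mem_box.mp hβ).2 j
  simp only [dcell, Set.mem_Ico] at h1 h2
  have : ((i : ℕ) : ℝ) + 1 ≤ ((i' : ℕ) : ℝ) := by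
    have : (i : ℕ) + 1 ≤ (i' : ℕ) := hlt
    exact_mod_cast this
  have h3 : (((i : ℕ) : ℝ) + 1) / Q ≤ ((i' : ℕ) : ℝ) / Q := div_le_div_of_nonneg_right this hQ'.le
  simp only [pos]
  linarith [h1.2, h2.1]

lemma lower_step (hd : 0 < d) (Q : ℕ) (hQ : 0 < Q) (G : Finset (Fin d → ι)) (r : ℝ) (hr : 0 ≤ r)
    (hG : Reg G r) (V e x : ℝ) (hV : V = G.card * (1 / Q : ℝ) ^ d) (hV0 : 0 < V) (he : 0 < e)
    (hx : (1 + r * Q) ^ d - 1 ≤ x) (t : ℕ) (ht : (t : ℝ) ≤ (1 - e) * V) (ρ : ℝ)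
    (hρ : V ^ 2 * x + (1 / V + x) / e ^ 2 ≤ ρ) (l : ℝ) (hl : 0 < l) :
    labels (Fin d × ι) {w | (clen G (pos w) : ℝ) ≤ Q * ((1 - ρ) * pexp d t) - l} ≤
      ENNReal.ofReal (Q * (V + V ^ 2 * (1 + x)) / l ^ 2) := by
  classical
  have hQ' : (0 : ℝ) < Q := by exact_mod_cast hQ
  set s : Fin d → ℝ := fun _ => 1 / Q with hs
  have hs0 : ∀ j, 0 < s j := fun j => by simp only [hs]; positivity
  have hprod : ∏ j, s j = (1 / Q : ℝ) ^ d := by simp [hs]
  have hV' : V = G.card * ∏ j, s j := by rw [hprod, hV]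
  have hexc : exc s r = (1 + r * Q) ^ d - 1 := by
    unfold exc
    simp [hs]
  have hexc0 : 0 ≤ exc s r := by
    rw [hexc]
    have : 1 ≤ (1 + r * Q) ^ d := one_le_pow₀ (by nlinarith)
    linarith
  have hexcx : exc s r ≤ x := by rw [hexc]; exact hx
  have hx0 : 0 ≤ x := hexc0.trans hexcx
  have hρ0 : 0 ≤ ρ := le_trans (by positivity) hρ
  have hJ : ∀ i : ℕ, ∀ j, MeasurableSet (dcell d Q i j) := fun i j => measurableSet_Ico
  have hJs : ∀ i : Fin Q, ∀ j, unif (dcell d Q i j) = ENNReal.ofReal (s j) := by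
    intro i j
    have h1 : ((i : ℕ) : ℝ) + 1 ≤ Q := by
      have : (i : ℕ) + 1 ≤ Q := i.2
      exact_mod_cast this
    simp only [dcell, hs]
    rw [unif_Ico (by positivity) ((div_le_one hQ').mpr h1)]
    congr 1
    ring
  let X : Fin Q → (Fin d × ι → ℝ) → ℕ := fun i w => blen (dcell d Q i) G w
  have hX : ∀ i, Measurable (X i) := fun i => measurable_blen _ (hJ i) G
  have hXb : ∀ i w, X i w ≤ G.card := fun i w => blen_le _ G w
  have hXi : ∀ i, Integrable (fun w => (X i w : ℝ)) (labels (Fin d × ι)) := fun i =>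
    integrable_natCast _ (X i) (hX i) _ (hXb i)
  have hXXb : ∀ i i' w, X i w * X i' w ≤ G.card * G.card := fun i i' w =>
    Nat.mul_le_mul (hXb i w) (hXb i' w)
  have hXX : ∀ i i', Integrable (fun w => (X i w : ℝ) * (X i' w : ℝ)) (labels (Fin d × ι)) := by
    intro i i'
    have := integrable_natCast (labels (Fin d × ι)) (fun w => X i w * X i' w)
      ((hX i).mul (hX i')) _ (hXXb i i')
    simpa using this
  -- means
  have hmean : ∀ i, (1 - ρ) * pexp d t ≤ ∫ w, (X i w : ℝ) ∂(labels (Fin d × ι)) := by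
    intro i
    have hbad := measure_not_good (dcell d Q i) (hJ i) s (hJs i) hs0 G r hG hV' hV0 he hexc0
    have hbad' : labels (Fin d × ι) {w | ¬ GoodS V e (box (dcell d Q i) w G)} ≤
        ENNReal.ofReal ρ := by
      refine hbad.trans (ENNReal.ofReal_le_ofReal (le_trans ?_ hρ))
      gcongr
    have h1 : ((i : ℕ) : ℝ) + 1 ≤ Q := by
      have : (i : ℕ) + 1 ≤ Q := i.2
      exact_mod_cast this
    have h2 := le_lintegral_blen (d := d) (fun _ => ((i : ℕ) : ℝ) / Q)
      (fun _ => (((i : ℕ) : ℝ) + 1) / Q) (fun _ => by positivity)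
      (fun _ => div_lt_div_of_pos_right (by linarith) hQ')
      (fun _ => (div_le_one hQ').mpr h1) G (fun n => (n : ℝ≥0∞))
      (fun a b h => by simp only; exact_mod_cast h) V e t ht ρ hρ0 hbad'
    rw [integral_natCast _ (X i) (hX i)]
    have h3 : ENNReal.ofReal ((1 - ρ) * pexp d t) ≤
        ∫⁻ w, (X i w : ℝ≥0∞) ∂(labels (Fin d × ι)) := by
      refine le_trans (le_of_eq ?_) h2
      rw [ENNReal.ofReal_mul' (pexp_nonneg d t), ofReal_pexp]
    have h4 := ENNReal.toReal_mono (lintegral_natCast_ne_top _ (X i) _ (hXb i)) h3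
    exact (Real.le_coe_toNNReal _).trans h4
  -- second moments
  have hsq : ∀ i, ∫ w, (X i w : ℝ) * (X i w : ℝ) ∂(labels (Fin d × ι)) ≤
      V + V ^ 2 * (1 + x) := by
    intro i
    have h1 := integral_card_sq_le (dcell d Q i) (hJ i) s (hJs i) hs0 G r hG
    rw [← hV'] at h1
    have h2 : ∫ w, (X i w : ℝ) * (X i w : ℝ) ∂(labels (Fin d × ι)) ≤
        ∫ w, ((box (dcell d Q i) w G).card : ℝ) ^ 2 ∂(labels (Fin d × ι)) := by
      refine integral_mono (hXX i i) (integrable_card_sq _ (hJ i) G) fun w => ?_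
      have : (X i w : ℝ) ≤ ((box (dcell d Q i) w G).card : ℝ) := by
        exact_mod_cast blen_le_card_box _ G w
      have h0 : (0 : ℝ) ≤ X i w := Nat.cast_nonneg _
      simp only
      nlinarith
    refine h2.trans (h1.trans ?_)
    gcongr
  have hcov : ∀ i i', i ≠ i' → ∫ w, (X i w : ℝ) * (X i' w : ℝ) ∂(labels (Fin d × ι)) ≤
      (∫ w, (X i w : ℝ) ∂(labels (Fin d × ι))) * ∫ w, (X i' w : ℝ) ∂(labels (Fin d × ι)) := by
    intro i i' hne
    have hne' : (i : ℕ) ≠ (i' : ℕ) := fun h => hne (Fin.ext h)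
    have h1 : ∫⁻ w, ((X i w * X i' w : ℕ) : ℝ≥0∞) ∂(labels (Fin d × ι)) ≤
        (∫⁻ w, (X i w : ℝ≥0∞) ∂(labels (Fin d × ι))) *
          ∫⁻ w, (X i' w : ℝ≥0∞) ∂(labels (Fin d × ι)) := by
      push_cast
      exact decouple_two unif (fun r : Fin d × ι => dcell d Q i r.1) (fun r => dcell d Q i' r.1)
        (fun r => dcell_disjoint hQ hne' r.1) (fun w => (X i w : ℝ≥0∞))
        (fun w => (X i' w : ℝ≥0∞))
        (measurable_from_top.comp (hX i)) (measurable_from_top.comp (hX i'))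
        (blind_blen _ G (fun n => (n : ℝ≥0∞)) (fun a b h => by simp only; exact_mod_cast h))
        (blind_blen _ G (fun n => (n : ℝ≥0∞)) (fun a b h => by simp only; exact_mod_cast h))
    have h2 := integral_natCast (labels (Fin d × ι)) (fun w => X i w * X i' w)
      ((hX i).mul (hX i'))
    rw [integral_natCast _ (X i) (hX i), integral_natCast _ (X i') (hX i'),
      ← ENNReal.toReal_mul]
    have h3 : ∫ w, (X i w : ℝ) * (X i' w : ℝ) ∂(labels (Fin d × ι)) =
        ∫ w, ((X i w * X i' w : ℕ) : ℝ) ∂(labels (Fin d × ι)) := by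
      congr 1; funext w; push_cast; rfl
    rw [h3, h2]
    exact ENNReal.toReal_mono (ENNReal.mul_ne_top (lintegral_natCast_ne_top _ (X i) _ (hXb i))
      (lintegral_natCast_ne_top _ (X i') _ (hXb i'))) h1
  -- the sum
  set C := V + V ^ 2 * (1 + x) with hC
  have hC0 : 0 ≤ C := by positivity
  set E : Fin Q → ℝ := fun i => ∫ w, (X i w : ℝ) ∂(labels (Fin d × ι)) with hE
  have hS1 : ∫ w, ∑ i, (X i w : ℝ) ∂(labels (Fin d × ι)) = ∑ i, E i :=
    integral_finsetSum _ fun i _ => hXi i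
  have hS2e : ∀ w, (∑ i, (X i w : ℝ)) ^ 2 = ∑ i, ∑ i', (X i w : ℝ) * (X i' w : ℝ) := by
    intro w
    rw [sq, Finset.sum_mul_sum]
  have hS2i : Integrable (fun w => (∑ i, (X i w : ℝ)) ^ 2) (labels (Fin d × ι)) := by
    simp_rw [hS2e]
    exact integrable_finsetSum _ fun i _ => integrable_finsetSum _ fun i' _ => hXX i i'
  have hS2 : ∫ w, (∑ i, (X i w : ℝ)) ^ 2 ∂(labels (Fin d × ι)) ≤ (∑ i, E i) ^ 2 + Q * C := by
    simp_rw [hS2e]
    rw [integral_finsetSum _ fun i _ => integrable_finsetSum _ fun i' _ => hXX i i']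
    have h1 : ∀ i, ∫ w, ∑ i', (X i w : ℝ) * (X i' w : ℝ) ∂(labels (Fin d × ι)) ≤
        ∑ i', (E i * E i' + if i = i' then C else 0) := by
      intro i
      rw [integral_finsetSum _ fun i' _ => hXX i i']
      refine Finset.sum_le_sum fun i' _ => ?_
      by_cases h : i = i'
      · subst h
        rw [if_pos rfl]
        have := hsq i
        have h2 : 0 ≤ E i * E i := mul_self_nonneg _
        linarith
      · rw [if_neg h, add_zero]
        exact hcov i i' h
    calc _ ≤ ∑ i, ∑ i', (E i * E i' + if i = i' then C else 0) :=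
          Finset.sum_le_sum fun i _ => h1 i
      _ = _ := by
          simp_rw [Finset.sum_add_distrib]
          rw [← Finset.sum_mul_sum, sq]
          simp
  have hch := cheb_two (labels (Fin d × ι)) (fun w => ∑ i, (X i w : ℝ))
    (integrable_finsetSum _ fun i _ => hXi i) hS2i (Q * C) (by rw [hS1]; exact hS2) hl
  refine (measure_mono ?_).trans hch
  intro w hw
  simp only [Set.mem_ofPred_eq] at hw ⊢
  rw [hS1]
  have h1 : (∑ i, (X i w : ℝ)) ≤ clen G (pos w) := by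
    have := sum_dcell_le hd hQ G w
    exact_mod_cast this
  have h2 : Q * ((1 - ρ) * pexp d t) ≤ ∑ i, E i := by
    calc Q * ((1 - ρ) * pexp d t) = ∑ _i : Fin Q, (1 - ρ) * pexp d t := by
          rw [Finset.sum_const, Finset.card_univ, Fintype.card_fin, nsmul_eq_mul]
      _ ≤ _ := Finset.sum_le_sum fun i _ => hmean i
  rw [abs_sub_comm]
  refine le_trans ?_ (le_abs_self _)
  linarith

end Lower

end Pool.Agent.Lib.MP_f702fa_pr
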