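import Mathlib
import Pool.Agent.Lib.MP_f702fa_pr.LowerStep

open MeasureTheory Finset Filter
open scoped ENNReal

namespace Pool.Agent.Lib.MP_f702fa_pr

lemma exists_small_exc (d : ℕ) {x : ℝ} (hx : 0 < x) :
    ∃ y > 0, ∀ z, 0 ≤ z → z ≤ y → (1 + z) ^ d - 1 ≤ x := by
  refine ⟨Real.log (1 + x) / (d + 1), ?_, ?_⟩
  · have := Real.log_pos (show (1 : ℝ) < 1 + x by linarith)
    positivity
  · intro z hz0 hz
    have h1 : (1 + z) ^ d ≤ Real.exp (d * z) := by
      have := Real.add_one_le_exp z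
      calc (1 + z) ^ d ≤ (Real.exp z) ^ d := pow_le_pow_left₀ (by linarith) (by linarith) d
        _ = Real.exp (d * z) := by rw [← Real.exp_nat_mul]
    have h2 : d * z ≤ Real.log (1 + x) := by
      rw [le_div_iff₀ (by positivity)] at hz
      nlinarith
    have h3 : Real.exp (d * z) ≤ 1 + x := by
      calc Real.exp (d * z) ≤ Real.exp (Real.log (1 + x)) := Real.exp_le_exp.mpr h2
        _ = 1 + x := Real.exp_log (by linarith)
    linarith

/-- facts on the scale `Q = ⌊m / κ⌋`. -/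
lemma scale_facts {d : ℕ} (hd : 0 < d) {κ e : ℝ} (hκ : 0 < κ) (he : 0 < e) (he1 : e < 1) (N : ℕ)
    (hm : κ / e ≤ rt d N) :
    0 < ⌊rt d N / κ⌋₊ ∧ (⌊rt d N / κ⌋₊ : ℝ) ≤ rt d N / κ ∧
      (1 - e) * (rt d N / κ) ≤ (⌊rt d N / κ⌋₊ : ℝ) ∧
      κ ≤ rt d N / ⌊rt d N / κ⌋₊ ∧ rt d N / ⌊rt d N / κ⌋₊ ≤ κ / (1 - e) ∧
      (N : ℝ) * (1 / (⌊rt d N / κ⌋₊ : ℝ)) ^ d = (rt d N / ⌊rt d N / κ⌋₊) ^ d := by
  set m := rt d N with hmdef
  set Q := ⌊m / κ⌋₊ with hQ
  have hm0 : 0 < m := lt_of_lt_of_le (by positivity) hm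
  have h1 : 1 / e ≤ m / κ := by
    rw [div_le_div_iff₀ he hκ]
    rw [div_le_iff₀ he] at hm
    linarith
  have h1e : 1 < 1 / e := by rw [lt_div_iff₀ he]; linarith
  have hQ0 : 0 < Q := Nat.floor_pos.mpr (by linarith)
  have hQ0' : (0 : ℝ) < Q := by exact_mod_cast hQ0
  have hQle : (Q : ℝ) ≤ m / κ := Nat.floor_le (by positivity)
  have hQlt : m / κ < Q + 1 := Nat.lt_floor_add_one _
  have hQge : (1 - e) * (m / κ) ≤ Q := by
    have : 1 ≤ e * (m / κ) := by
      rw [div_le_iff₀ he] at h1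
      linarith
    nlinarith
  have h1e' : 0 < 1 - e := by linarith
  refine ⟨hQ0, hQle, hQge, ?_, ?_, ?_⟩
  · rw [le_div_iff₀ hQ0']
    rw [le_div_iff₀ hκ] at hQle
    linarith
  · rw [div_le_div_iff₀ hQ0' h1e']
    have : (1 - e) * (m / κ) * κ = (1 - e) * m := by field_simp
    nlinarith
  · rw [div_pow, div_pow, hmdef, rt_pow hd (Nat.cast_nonneg _), one_pow, mul_one_div]

theorem lower_thm {d : ℕ} (hd : 0 < d) {b : ℝ} (hb : 0 ≤ b)
    (P2 : ∀ ε > 0, ∃ᶠ t : ℕ in atTop, (b - ε) * rt d t ≤ pexp d t) (ε δ : ℝ) (hε : 0 < ε)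
    (hδ : 0 < δ) :
    ∃ N0 : ℝ, ∃ η0 > 0, ∀ (ι : Type) [Fintype ι] (G : Finset (Fin d → ι)) (r : ℝ), 0 ≤ r →
      Reg G r → N0 ≤ rt d G.card → r * rt d G.card ≤ η0 →
        labels (Fin d × ι) {w | (clen G (pos w) : ℝ) < (b - ε) * rt d G.card} ≤
          ENNReal.ofReal δ := by
  rcases le_or_gt b ε with hbε | hbε
  · refine ⟨0, 1, one_pos, ?_⟩
    intro ι _ G r _ _ _ _
    have : {w : Fin d × ι → ℝ | (clen G (pos w) : ℝ) < (b - ε) * rt d G.card} = ∅ := by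
      ext w
      simp only [Set.mem_ofPred_eq, Set.mem_empty_iff_false, iff_false, not_lt]
      have h1 : 0 ≤ rt d (G.card : ℝ) := rt_nonneg d (Nat.cast_nonneg _)
      have h2 : (0 : ℝ) ≤ clen G (pos w) := Nat.cast_nonneg _
      nlinarith
    rw [this]
    simp
  -- the main case
  obtain ⟨e, he0, he2, heε⟩ : ∃ e : ℝ, 0 < e ∧ e ≤ 1 / 2 ∧ e * (2 + 3 * b) ≤ ε := by
    refine ⟨min (ε / (2 + 3 * b)) (1 / 2), ?_, min_le_right _ _, ?_⟩
    · positivity
    · calc min (ε / (2 + 3 * b)) (1 / 2) * (2 + 3 * b) ≤ (ε / (2 + 3 * b)) * (2 + 3 * b) := by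
            gcongr; exact min_le_left _ _
        _ = ε := by field_simp
  have heb : e < b := by nlinarith
  obtain ⟨t0, ht0, ht0'⟩ := ((P2 e he0).and_eventually
    (eventually_ge_atTop (max 1 ⌈2 / e ^ 3⌉₊))).exists
  have ht1 : (1 : ℝ) ≤ t0 := by exact_mod_cast (le_max_left _ _).trans ht0'
  have ht2 : 2 / e ^ 3 ≤ (t0 : ℝ) := by
    have h1 : ⌈2 / e ^ 3⌉₊ ≤ t0 := (le_max_right _ _).trans ht0'
    calc 2 / e ^ 3 ≤ (⌈2 / e ^ 3⌉₊ : ℝ) := Nat.le_ceil _
      _ ≤ t0 := by exact_mod_cast h1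
  have h1e : 0 < 1 - e := by linarith
  have ht0pos : (0 : ℝ) < t0 := by linarith
  set κ := rt d (t0 / (1 - e)) with hκ
  have hκd : κ ^ d = t0 / (1 - e) := rt_pow hd (by positivity)
  have hκ1 : 1 ≤ κ := one_le_rt d (by rw [le_div_iff₀ h1e]; linarith)
  have hκ0 : 0 < κ := by linarith
  set Vm := (κ / (1 - e)) ^ d with hVm
  have hVm0 : 0 < Vm := by positivity
  set x := e / (2 * (Vm ^ 2 + 1 / e ^ 2)) with hx
  have hx0 : 0 < x := by positivity
  obtain ⟨y, hy0, hy⟩ := exists_small_exc d hx0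
  set C := Vm + Vm ^ 2 * (1 + x) with hC
  have hC0 : 0 < C := by positivity
  refine ⟨max (κ / e) (C / (κ * e ^ 2 * δ)), κ * y, by positivity, ?_⟩
  intro ι _ G r hr hG hN hη
  obtain ⟨hQ0, hQle, hQge, hmQ1, hmQ2, hVeq⟩ := scale_facts hd hκ0 he0 (by linarith) G.card
    ((le_max_left _ _).trans hN)
  set m := rt d G.card with hm
  have hm0 : 0 < m := lt_of_lt_of_le (by positivity) ((le_max_left _ _).trans hN)
  set Q := ⌊m / κ⌋₊ with hQ
  have hQ0' : (0 : ℝ) < Q := by exact_mod_cast hQ0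
  set V := (G.card : ℝ) * (1 / (Q : ℝ)) ^ d with hV
  have hV0 : 0 < V := by rw [hVeq]; positivity
  have hVge : t0 / (1 - e) ≤ V := by
    rw [hVeq, ← hκd]
    exact pow_le_pow_left₀ hκ0.le hmQ1 d
  have hVle : V ≤ Vm := by
    rw [hVeq, hVm]
    exact pow_le_pow_left₀ (by positivity) hmQ2 d
  have hVt : (t0 : ℝ) ≤ (1 - e) * V := by
    rw [div_le_iff₀ h1e] at hVge
    linarith
  have hVt' : (t0 : ℝ) ≤ V := by
    refine hVt.trans ?_
    calc (1 - e) * V ≤ 1 * V := mul_le_mul_of_nonneg_right (by linarith) hV0.le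
      _ = V := one_mul V
  have hx' : (1 + r * Q) ^ d - 1 ≤ x := by
    refine hy _ (by positivity) ?_
    have h1 : r * Q ≤ r * (m / κ) := by gcongr
    have h2 : r * (m / κ) = (r * m) / κ := by ring
    rw [h2] at h1
    refine h1.trans ?_
    rw [div_le_iff₀ hκ0]
    linarith
  have hρ : V ^ 2 * x + (1 / V + x) / e ^ 2 ≤ e := by
    have h1 : 1 / V ≤ e ^ 3 / 2 := by
      rw [div_le_iff₀ hV0]
      rw [div_le_iff₀ (by positivity)] at ht2
      have := mul_le_mul_of_nonneg_right hVt' (pow_nonneg he0.le 3)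
      linarith
    have h2 : (1 / V) / e ^ 2 ≤ e / 2 := by
      rw [div_le_iff₀ (by positivity)]
      calc 1 / V ≤ e ^ 3 / 2 := h1
        _ = e / 2 * e ^ 2 := by ring
    have h3 : V ^ 2 * x + x / e ^ 2 ≤ e / 2 := by
      calc V ^ 2 * x + x / e ^ 2 ≤ Vm ^ 2 * x + x / e ^ 2 := by gcongr
        _ = (Vm ^ 2 + 1 / e ^ 2) * x := by ring
        _ = e / 2 := by rw [hx]; field_simp
    rw [add_div]
    linarith
  have hstep := lower_step hd Q hQ0 G r hr hG V e x hV hV0 he0 hx' t0 hVt e hρ (e * m)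
    (by positivity)
  refine (measure_mono ?_).trans (hstep.trans (ENNReal.ofReal_le_ofReal ?_))
  · intro w hw
    simp only [Set.mem_ofPred_eq] at hw ⊢
    refine hw.le.trans ?_
    have h1 : rt d t0 = κ * rt d (1 - e) := by
      rw [hκ, ← rt_mul d (by positivity) h1e.le]
      congr 1
      field_simp
    have h2 : 1 - e ≤ rt d (1 - e) := by
      rw [le_rt_iff hd h1e.le h1e.le]
      exact pow_le_of_le_one h1e.le (by linarith) hd.ne'
    have h3 : (b - e) * (κ * (1 - e)) ≤ pexp d t0 := by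
      refine le_trans ?_ ht0
      rw [h1]
      have : 0 ≤ b - e := by linarith
      gcongr
    have h4 : (1 - e) * (m / κ) * ((1 - e) * ((b - e) * (κ * (1 - e)))) ≤
        Q * ((1 - e) * pexp d t0) := by
      have : 0 ≤ b - e := by linarith
      gcongr
    have h5 : (1 - e) * (m / κ) * ((1 - e) * ((b - e) * (κ * (1 - e)))) =
        (1 - e) ^ 3 * (b - e) * m := by field_simp
    rw [h5] at h4
    have h6 : (b - ε) ≤ (1 - e) ^ 3 * (b - e) - e := by
      have h7 : (1 - 3 * e) * (b - e) ≤ (1 - e) ^ 3 * (b - e) := by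
        have h8 : 1 - 3 * e ≤ (1 - e) ^ 3 := by
          have h9 : (1 - e) ^ 3 = 1 - 3 * e + e ^ 2 * (3 - e) := by ring
          have h10 : 0 ≤ e ^ 2 * (3 - e) := mul_nonneg (sq_nonneg e) (by linarith)
          linarith
        have : 0 ≤ b - e := by linarith
        gcongr
      have h9 : (1 - 3 * e) * (b - e) = b - e * (2 + 3 * b) + e + 3 * e ^ 2 := by ring
      have h10 : 0 ≤ e ^ 2 := sq_nonneg e
      linarith
    have h7 := mul_le_mul_of_nonneg_right h6 hm0.le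
    have h8 : ((1 - e) ^ 3 * (b - e) - e) * m = (1 - e) ^ 3 * (b - e) * m - e * m := by ring
    linarith
  · calc Q * (V + V ^ 2 * (1 + x)) / (e * m) ^ 2 ≤ (m / κ) * C / (e * m) ^ 2 := by
          rw [hC]
          gcongr
      _ = C / (κ * e ^ 2 * m) := by field_simp
      _ ≤ δ := by
          have h1 : C / (κ * e ^ 2 * δ) ≤ m := (le_max_right _ _).trans hN
          rw [div_le_iff₀ (by positivity)] at h1 ⊢
          linarith

end Pool.Agent.Lib.MP_f702fa_pr
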