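import Mathlib
import Pool.Agent.Lib.MP_f702fa_pr.Lower

open MeasureTheory Finset Filter
open scoped ENNReal

namespace Pool.Agent.Lib.MP_f702fa_pr

variable {d : ℕ}

lemma reg_diag (t : ℕ) : Reg (diag d t) 0 := by
  intro α hα T S hS hSα
  rcases T.eq_empty_or_nonempty with rfl | ⟨j, hj⟩
  · simp only [card_empty, pow_zero, mul_one]
    exact_mod_cast Finset.card_le_card hS
  · have : S = ∅ := by
      rw [Finset.eq_empty_iff_forall_notMem]
      intro β hβ
      obtain ⟨hne, h⟩ := hSα β hβ
      exact transv_diag t α hα β (hS hβ) hne.symm j (h j hj)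
    rw [this]
    simp only [card_empty, Nat.cast_zero]
    positivity

lemma clen_diag (hd : 0 < d) (t : ℕ) (w : Fin d × Fin t → ℝ) :
    clen (diag d t) (pos w) = ilen t w := by
  classical
  unfold diag ilen
  rw [clen_image _ _ (fun a _ b _ h => congrFun h ⟨0, hd⟩)]
  rfl

lemma exists_rt_ge (hd : 0 < d) (N0 : ℝ) : ∃ t1 : ℕ, ∀ t : ℕ, t1 ≤ t → N0 ≤ rt d t := by
  refine ⟨⌈(max N0 0) ^ d⌉₊, fun t ht => ?_⟩
  refine (le_max_left N0 0).trans ?_
  rw [le_rt_iff hd (le_max_right _ _) (Nat.cast_nonneg _)]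
  calc (max N0 0) ^ d ≤ (⌈(max N0 0) ^ d⌉₊ : ℝ) := Nat.le_ceil _
    _ ≤ t := by exact_mod_cast ht

lemma iid_lower (hd : 0 < d) {b : ℝ} (hb : 0 ≤ b)
    (P2 : ∀ ε > 0, ∃ᶠ t : ℕ in atTop, (b - ε) * rt d t ≤ pexp d t) (ε δ : ℝ) (hε : 0 < ε)
    (hδ : 0 < δ) :
    ∃ t1 : ℕ, ∀ t : ℕ, t1 ≤ t →
      labels (Fin d × Fin t) {w | (ilen t w : ℝ) < (b - ε) * rt d t} ≤ ENNReal.ofReal δ := by
  obtain ⟨N0, η0, hη0, h⟩ := lower_thm hd hb P2 ε δ hε hδ
  obtain ⟨t1, ht1⟩ := exists_rt_ge hd N0
  refine ⟨t1, fun t ht => ?_⟩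
  have := h (Fin t) (diag d t) 0 le_rfl (reg_diag t)
  rw [card_diag hd] at this
  have := this (ht1 t ht) (by rw [zero_mul]; exact hη0.le)
  simpa only [clen_diag hd] using this

lemma iid_upper (hd : 0 < d) {b : ℝ} (hb : 0 ≤ b)
    (P1 : ∀ ε > 0, ∀ᶠ t : ℕ in atTop, pexp d t ≤ (b + ε) * rt d t)
    (P2 : ∀ ε > 0, ∃ᶠ t : ℕ in atTop, (b - ε) * rt d t ≤ pexp d t) (ε δ : ℝ) (hε : 0 < ε)
    (hδ : 0 < δ) :
    ∃ t1 : ℕ, ∀ t : ℕ, t1 ≤ t →
      labels (Fin d × Fin t) {w | (b + ε) * rt d t ≤ (ilen t w : ℝ)} ≤ ENNReal.ofReal δ := by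
  set e := δ * ε / (2 + b) with he
  have he0 : 0 < e := by positivity
  obtain ⟨t1, ht1⟩ := iid_lower hd hb P2 e e he0 he0
  obtain ⟨t2, ht2⟩ := eventually_atTop.mp (P1 e he0)
  refine ⟨max 1 (max t1 t2), fun t ht => ?_⟩
  have h1t : 1 ≤ t := (le_max_left _ _).trans ht
  have hlow := ht1 t (((le_max_left _ _).trans (le_max_right _ _)).trans ht)
  have hup := ht2 t (((le_max_right _ _).trans (le_max_right _ _)).trans ht)
  set m := rt d (t : ℝ) with hm
  have hm1 : 1 ≤ m := one_le_rt d (by exact_mod_cast h1t)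
  have hm0 : 0 < m := by linarith
  set μ := labels (Fin d × Fin t) with hμ
  set b' := max (b - e) 0 with hb'
  have hb'0 : 0 ≤ b' := le_max_right _ _
  have hb'b : b' ≤ b := max_le (by linarith) hb
  have hb'e : b - e ≤ b' := le_max_left _ _
  set X : (Fin d × Fin t → ℝ) → ℕ := fun w => ilen t w with hX
  have hXm : Measurable X := measurable_ilen t
  have hXb : ∀ w, X w ≤ t := by
    intro w
    have := clen_le_card (univ : Finset (Fin t)) (ipos w)
    simpa [hX, ilen] using this
  have hXr : Measurable (fun w => (X w : ℝ)) := measurable_from_top.comp hXm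
  set A : Set (Fin d × Fin t → ℝ) := {w | b' * m ≤ (X w : ℝ)} with hA
  set B : Set (Fin d × Fin t → ℝ) := {w | (b + ε) * m ≤ (X w : ℝ)} with hB
  have hAm : MeasurableSet A := measurableSet_le measurable_const hXr
  have hBm : MeasurableSet B := measurableSet_le measurable_const hXr
  have hAc : μ Aᶜ ≤ ENNReal.ofReal e := by
    rcases le_total (b - e) 0 with h | h
    · have : Aᶜ = ∅ := by
        rw [Set.compl_empty_iff, hA, hb', max_eq_right h]
        ext w
        simp
      rw [this]; simp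
    · refine (measure_mono ?_).trans hlow
      intro w hw
      simp only [hA, Set.mem_compl_iff, Set.mem_ofPred_eq, not_le] at hw ⊢
      rwa [hb', max_eq_left h] at hw
  have hAr : 1 - e ≤ μ.real A := by
    have h1 : μ.real A = 1 - μ.real Aᶜ := by
      have := probReal_compl_eq_one_sub (μ := μ) hAm
      linarith
    have h2 : μ.real Aᶜ ≤ e := ENNReal.toReal_le_of_le_ofReal he0.le hAc
    linarith
  have hpt : ∀ w, A.indicator (fun _ => b' * m) w + B.indicator (fun _ => (b + ε - b') * m) w ≤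
      (X w : ℝ) := by
    intro w
    by_cases h2 : w ∈ B
    · have h1 : w ∈ A := by
        simp only [hA, hB, Set.mem_ofPred_eq] at h2 ⊢
        refine le_trans ?_ h2
        have : b' ≤ b + ε := by linarith
        gcongr
      rw [Set.indicator_of_mem h1, Set.indicator_of_mem h2]
      simp only [hB, Set.mem_ofPred_eq] at h2
      linarith
    · rw [Set.indicator_of_notMem h2, add_zero]
      by_cases h1 : w ∈ A
      · rw [Set.indicator_of_mem h1]; exact h1
      · rw [Set.indicator_of_notMem h1]; exact Nat.cast_nonneg _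
  have hint : b' * m * μ.real A + (b + ε - b') * m * μ.real B ≤ pexp d t := by
    have h1 : pexp d t = ∫ w, (X w : ℝ) ∂μ := by
      rw [integral_natCast μ X hXm]; rfl
    rw [h1]
    have h2 : ∫ w, (A.indicator (fun _ => b' * m) w + B.indicator (fun _ => (b + ε - b') * m) w) ∂μ =
        b' * m * μ.real A + (b + ε - b') * m * μ.real B := by
      rw [integral_add ((integrable_const _).indicator hAm) ((integrable_const _).indicator hBm),
        integral_indicator_const _ hAm, integral_indicator_const _ hBm, smul_eq_mul, smul_eq_mul]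
      ring
    rw [← h2]
    exact integral_mono (((integrable_const _).indicator hAm).add
      ((integrable_const _).indicator hBm)) (integrable_natCast μ X hXm t hXb) hpt
  have hq0 : 0 ≤ μ.real B := measureReal_nonneg
  have hfin : μ.real B ≤ δ := by
    have h1 : b' * m * (1 - e) + ε * m * μ.real B ≤ (b + e) * m := by
      calc b' * m * (1 - e) + ε * m * μ.real B ≤
            b' * m * μ.real A + (b + ε - b') * m * μ.real B := by
            have : ε ≤ b + ε - b' := by linarith
            gcongr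
        _ ≤ _ := hint.trans hup
    have h2 : b' * (1 - e) + ε * μ.real B ≤ b + e := by
      have h3 : (b' * (1 - e) + ε * μ.real B) * m ≤ (b + e) * m := by linarith
      exact le_of_mul_le_mul_right h3 hm0
    have h4 : ε * μ.real B ≤ 2 * e + b * e := by nlinarith
    have h5 : 2 * e + b * e = ε * δ := by
      rw [he]; field_simp
    rw [h5] at h4
    exact le_of_mul_le_mul_left h4 hε
  calc μ B = ENNReal.ofReal (μ.real B) := (ofReal_measureReal).symm
    _ ≤ ENNReal.ofReal δ := ENNReal.ofReal_le_ofReal hfin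

/-- splitting an exponential moment at a threshold. -/
lemma iexp_phe_split (θ y K : ℝ) (hθ : 0 ≤ θ) (hK : 0 < K) (t : ℕ) :
    iexp d (phe θ) t ≤ ENNReal.ofReal (Real.exp (θ * y)) +
      ENNReal.ofReal K * labels (Fin d × Fin t) {w | y ≤ (ilen t w : ℝ)} +
      ENNReal.ofReal K⁻¹ * iexp d (phe (2 * θ)) t := by
  set B : Set (Fin d × Fin t → ℝ) := {w | y ≤ (ilen t w : ℝ)} with hB
  have hBm : MeasurableSet B :=
    measurableSet_le measurable_const (measurable_from_top.comp (measurable_ilen t))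
  have hpt : ∀ w, phe θ (ilen t w) ≤ ENNReal.ofReal (Real.exp (θ * y)) +
      B.indicator (fun _ => ENNReal.ofReal K) w +
      ENNReal.ofReal K⁻¹ * phe (2 * θ) (ilen t w) := by
    intro w
    by_cases h : w ∈ B
    · rw [Set.indicator_of_mem h]
      refine (phe_le_add hK _).trans ?_
      rw [add_assoc]
      exact le_add_self
    · rw [Set.indicator_of_notMem h, add_zero]
      refine le_add_right ?_
      simp only [hB, Set.mem_ofPred_eq, not_le] at h
      unfold phe
      exact ENNReal.ofReal_le_ofReal (Real.exp_le_exp.mpr (mul_le_mul_of_nonneg_left h.le hθ))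
  have hm2 : Measurable (fun w : Fin d × Fin t → ℝ => phe (2 * θ) (ilen t w)) :=
    (measurable_from_top (f := phe (2 * θ))).comp (measurable_ilen t)
  calc iexp d (phe θ) t ≤ ∫⁻ w, (ENNReal.ofReal (Real.exp (θ * y)) +
      B.indicator (fun _ => ENNReal.ofReal K) w +
      ENNReal.ofReal K⁻¹ * phe (2 * θ) (ilen t w)) ∂(labels (Fin d × Fin t)) := lintegral_mono hpt
    _ = _ := by
      rw [lintegral_add_right _ (hm2.const_mul _), lintegral_add_left measurable_const,
        lintegral_const, measure_univ, mul_one, lintegral_indicator_const hBm,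
        lintegral_const_mul' _ _ ENNReal.ofReal_ne_top]
      rfl

end Pool.Agent.Lib.MP_f702fa_pr
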