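import Mathlib
import Pool.Agent.Lib.MP_f702fa_pr.LLN

open MeasureTheory Finset Filter
open scoped ENNReal

namespace Pool.Agent.Lib.MP_f702fa_pr

variable {d : ℕ}

/-- the grid box with corners `x / Q` and `y / Q`. -/
noncomputable def gbox (Q : ℕ) (x y : Fin d → ℕ) : Fin d → Set ℝ :=
  fun j => Set.Ico ((x j : ℝ) / Q) ((y j : ℝ) / Q)

lemma rt_le_self_of_one_le (hd : 0 < d) {x : ℝ} (hx : 1 ≤ x) : rt d x ≤ x := by
  rw [rt_le_iff hd (by linarith) (by linarith)]
  calc x = x ^ 1 := (pow_one x).symm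
    _ ≤ x ^ d := pow_le_pow_right₀ hx hd

/-- the exponential moment of the longest chain in a small box. -/
theorem box_exp (hd : 0 < d) {b : ℝ} (hb : 0 ≤ b)
    (P1 : ∀ ε > 0, ∀ᶠ t : ℕ in atTop, pexp d t ≤ (b + ε) * rt d t)
    (P2 : ∀ ε > 0, ∃ᶠ t : ℕ in atTop, (b - ε) * rt d t ≤ pexp d t)
    (ε : ℝ) (hε : 0 < ε) (R : ℕ) (C : ℝ) (hC : 0 < C) :
    ∃ κ0 : ℝ, 1 ≤ κ0 ∧ ∀ κ : ℝ, κ0 ≤ κ → ∃ N0 : ℝ, ∃ η0 > 0,
      ∀ (ι : Type) [Fintype ι] (G : Finset (Fin d → ι)) (r : ℝ), 0 ≤ r →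
      Reg G r → N0 ≤ rt d G.card → r * rt d G.card ≤ η0 →
      ∀ x y : Fin d → ℕ, (∀ j, x j < y j) → (∀ j, y j ≤ x j + R) →
        (∀ j, y j ≤ ⌊rt d G.card / κ⌋₊) →
        ∫⁻ w, phe (C / κ) (blen (gbox ⌊rt d G.card / κ⌋₊ x y) G w) ∂(labels (Fin d × ι)) ≤
          ENNReal.ofReal (Real.exp (C * (b + ε) * rt d (∏ j, ((y j : ℝ) - x j)))) := by
  -- constants
  have hR0 : (0 : ℝ) ≤ R := Nat.cast_nonneg R
  obtain ⟨e, he0, he4, heε⟩ : ∃ e : ℝ, 0 < e ∧ e ≤ 1 / 4 ∧ (b + ε / 4) * (4 * e) ≤ ε / 4 := by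
    refine ⟨min (ε / (16 * (b + ε / 4))) (1 / 4), by positivity, min_le_right _ _, ?_⟩
    calc (b + ε / 4) * (4 * min (ε / (16 * (b + ε / 4))) (1 / 4)) ≤
          (b + ε / 4) * (4 * (ε / (16 * (b + ε / 4)))) := by
          gcongr; exact min_le_left _ _
      _ = ε / 4 := by field_simp; ring
  set e1 : ℝ := C * ε / 16 with he1
  have he10 : 0 < e1 := by positivity
  set B : ℝ := Real.exp (2 * (Real.exp 2 * (2 * (C * R))) + 1) + 3 with hB
  have hB0 : 0 < B := by positivity
  set K : ℝ := B / e1 with hK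
  have hK0 : 0 < K := by positivity
  have hKB : K⁻¹ * B = e1 := by rw [hK]; field_simp
  obtain ⟨t1, ht1⟩ := iid_upper hd hb P1 P2 (ε / 4) (e1 / K) (by positivity) (by positivity)
  refine ⟨max (max (4 * C) (1 / e)) (max (max (2 * K / (e1 * e ^ 2)) t1) 1),
    (le_max_right _ _).trans (le_max_right _ _), ?_⟩
  intro κ hκ
  have hκ1 : 4 * C ≤ κ := ((le_max_left _ _).trans (le_max_left _ _)).trans hκ
  have hκ2 : 1 / e ≤ κ := ((le_max_right _ _).trans (le_max_left _ _)).trans hκ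
  have hκ3 : 2 * K / (e1 * e ^ 2) ≤ κ :=
    ((le_max_left _ _).trans ((le_max_left _ _).trans (le_max_right _ _))).trans hκ
  have hκ4 : (t1 : ℝ) ≤ κ :=
    ((le_max_right _ _).trans ((le_max_left _ _).trans (le_max_right _ _))).trans hκ
  have hκ5 : 1 ≤ κ := ((le_max_right _ _).trans (le_max_right _ _)).trans hκ
  have hκ0 : 0 < κ := by linarith
  have h1e : 0 < 1 - e := by linarith
  set Vm : ℝ := (κ * R / (1 - e)) ^ d with hVm
  have hVm0 : 0 ≤ Vm := by positivity
  set x0 : ℝ := (e1 / (2 * K)) / (Vm ^ 2 + 1 / e ^ 2) with hx0def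
  have hx0 : 0 < x0 := by positivity
  obtain ⟨z0, hz0, hz⟩ := exists_small_exc d hx0
  refine ⟨κ / e, κ * z0, by positivity, ?_⟩
  intro ι _ G r hr hG hN hη x y hxy hyR hyQ
  obtain ⟨hQ0, hQle, hQge, hmQ1, hmQ2, hVeq⟩ := scale_facts hd hκ0 he0 (by linarith) G.card hN
  set m := rt d G.card with hm
  have hm0 : 0 < m := lt_of_lt_of_le (by positivity) hN
  set Q := ⌊m / κ⌋₊ with hQ
  have hQ0' : (0 : ℝ) < Q := by exact_mod_cast hQ0
  -- the sides
  have hΔ1 : ∀ j, (1 : ℝ) ≤ (y j : ℝ) - x j := by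
    intro j
    have : x j + 1 ≤ y j := hxy j
    have : (x j : ℝ) + 1 ≤ y j := by exact_mod_cast this
    linarith
  have hΔR : ∀ j, (y j : ℝ) - x j ≤ R := by
    intro j
    have : (y j : ℝ) ≤ x j + R := by exact_mod_cast hyR j
    linarith
  set Dp : ℝ := ∏ j, ((y j : ℝ) - x j) with hDp
  have hDp1 : 1 ≤ Dp := by
    calc (1 : ℝ) = ∏ _j : Fin d, (1 : ℝ) := by simp
      _ ≤ Dp := Finset.prod_le_prod (fun _ _ => zero_le_one) (fun j _ => hΔ1 j)
  have hDpR : Dp ≤ (R : ℝ) ^ d := by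
    calc Dp ≤ ∏ _j : Fin d, (R : ℝ) :=
          Finset.prod_le_prod (fun j _ => by linarith [hΔ1 j]) (fun j _ => hΔR j)
      _ = _ := by simp
  set D := rt d Dp with hD
  have hD1 : 1 ≤ D := one_le_rt d hDp1
  have hDR : D ≤ R := by
    rw [hD, rt_le_iff hd hR0 (by linarith)]; exact hDpR
  set s : Fin d → ℝ := fun j => ((y j : ℝ) - x j) / Q with hs
  have hs0 : ∀ j, 0 < s j := fun j => div_pos (by linarith [hΔ1 j]) hQ0'
  have hJ : ∀ j, MeasurableSet (gbox Q x y j) := fun j => measurableSet_Ico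
  have hJs : ∀ j, unif (gbox Q x y j) = ENNReal.ofReal (s j) := by
    intro j
    have h1 : (y j : ℝ) ≤ Q := by exact_mod_cast hyQ j
    simp only [gbox, hs]
    rw [unif_Ico (by positivity) ((div_le_one hQ0').mpr h1)]
    congr 1
    ring
  have hprod : ∏ j, s j = Dp * (1 / (Q : ℝ)) ^ d := by
    simp only [hs, hDp]
    rw [Finset.prod_div_distrib, Finset.prod_const, Finset.card_univ, Fintype.card_fin,
      div_eq_mul_inv, one_div, inv_pow]
  set V : ℝ := G.card * ∏ j, s j with hV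
  have hVeq' : V = Dp * (m / Q) ^ d := by
    rw [hV, hprod, ← hVeq]; ring
  have hmQ0 : 0 < m / Q := by positivity
  have hVκ : κ ≤ V := by
    rw [hVeq']
    calc κ = 1 * κ ^ 1 := by ring
      _ ≤ Dp * κ ^ d := by
          have : κ ^ 1 ≤ κ ^ d := pow_le_pow_right₀ hκ5 hd
          gcongr
      _ ≤ Dp * (m / Q) ^ d := by gcongr
  have hV0 : 0 < V := by linarith
  have hVm' : V ≤ Vm := by
    rw [hVeq', hVm]
    calc Dp * (m / Q) ^ d ≤ (R : ℝ) ^ d * (κ / (1 - e)) ^ d := by gcongr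
      _ = _ := by rw [← mul_pow]; congr 1; ring
  set v := rt d V with hv
  have hveq : v = (m / Q) * D := by
    rw [hv, hVeq', rt_mul d (by linarith) (by positivity), rt_pow' hd hmQ0.le, mul_comm]
  have hv0 : 0 ≤ v := rt_nonneg d hV0.le
  have hvκ : v ≤ κ * D / (1 - e) := by
    rw [hveq]
    calc (m / Q) * D ≤ (κ / (1 - e)) * D := by gcongr
      _ = _ := by ring
  -- excess
  have hexc : exc s r ≤ x0 := by
    refine le_trans ?_ (hz (r * Q) (by positivity) ?_)
    · unfold exc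
      have : ∏ j, (1 + r / s j) ≤ ∏ _j : Fin d, (1 + r * Q) := by
        refine Finset.prod_le_prod (fun j _ => ?_) (fun j _ => ?_)
        · have := hs0 j
          positivity
        · have h1 : 1 / (Q : ℝ) ≤ s j := by
            simp only [hs]
            exact div_le_div_of_nonneg_right (hΔ1 j) hQ0'.le
          have h2 : r / s j ≤ r * Q := by
            rw [div_le_iff₀ (hs0 j)]
            calc r = r * Q * (1 / Q) := by field_simp
              _ ≤ r * Q * s j := by gcongr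
          linarith
      simp only [Finset.prod_const, Finset.card_univ, Fintype.card_fin] at this
      linarith
    · have h1 : r * Q ≤ r * (m / κ) := by gcongr
      have h2 : r * (m / κ) = (r * m) / κ := by ring
      rw [h2] at h1
      refine h1.trans ?_
      rw [div_le_iff₀ hκ0]
      linarith
  have hexc0 : 0 ≤ exc s r := by
    unfold exc
    have : (1 : ℝ) ≤ ∏ j, (1 + r / s j) := by
      calc (1 : ℝ) = ∏ _j : Fin d, (1 : ℝ) := by simp
        _ ≤ _ := Finset.prod_le_prod (fun _ _ => zero_le_one) (fun j _ => by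
          have := hs0 j
          have : 0 ≤ r / s j := by positivity
          linarith)
    linarith
  -- bad set
  set ρ : ℝ := e1 / K with hρ
  have hbad : labels (Fin d × ι) {w | ¬ GoodS V e (box (gbox Q x y) w G)} ≤ ENNReal.ofReal ρ := by
    refine (measure_not_good _ hJ s hJs hs0 G r hG hV hV0 he0 hexc0).trans
      (ENNReal.ofReal_le_ofReal ?_)
    have h1 : (1 / V) / e ^ 2 ≤ e1 / (2 * K) := by
      rw [div_div, div_le_div_iff₀ (by positivity) (by positivity)]
      rw [div_le_iff₀ (by positivity)] at hκ3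
      have : e1 * e ^ 2 * κ ≤ e1 * e ^ 2 * V := by gcongr
      linarith
    have h2 : V ^ 2 * exc s r + exc s r / e ^ 2 ≤ e1 / (2 * K) := by
      calc V ^ 2 * exc s r + exc s r / e ^ 2 ≤ Vm ^ 2 * x0 + x0 / e ^ 2 := by gcongr
        _ = (Vm ^ 2 + 1 / e ^ 2) * x0 := by ring
        _ = e1 / (2 * K) := by rw [hx0def]; field_simp
    have h3 : e1 / (2 * K) + e1 / (2 * K) = e1 / K := by field_simp; norm_num
    rw [add_div, hρ]
    linarith
  -- the number of points
  set t := ⌈(1 + e) * V⌉₊ with ht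
  have htge : (1 + e) * V ≤ t := Nat.le_ceil _
  have htle : (t : ℝ) ≤ (1 + 2 * e) * V := by
    have h1 : (t : ℝ) ≤ (1 + e) * V + 1 := (Nat.ceil_lt_add_one (by positivity)).le
    have h2 : 1 ≤ e * V := by
      rw [div_le_iff₀ he0] at hκ2
      calc 1 ≤ κ * e := hκ2
        _ ≤ V * e := by gcongr
        _ = e * V := by ring
    linarith
  have hrt : rt d t ≤ (1 + 2 * e) * v := by
    calc rt d t ≤ rt d ((1 + 2 * e) * V) := rt_mono d (Nat.cast_nonneg _) htle
      _ = rt d (1 + 2 * e) * v := rt_mul d (by positivity) hV0.le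
      _ ≤ (1 + 2 * e) * v := by
          have := rt_le_self_of_one_le hd (x := 1 + 2 * e) (by linarith)
          gcongr
  have ht1' : t1 ≤ t := by
    have : (t1 : ℝ) ≤ t := by
      calc (t1 : ℝ) ≤ κ := hκ4
        _ ≤ V := hVκ
        _ ≤ (1 + e) * V := by linarith [mul_pos he0 hV0]
        _ ≤ t := htge
    exact_mod_cast this
  set θ := C / κ with hθ
  have hθ0 : 0 < θ := by positivity
  have hθ2 : 2 * θ ≤ 1 / 2 := by
    have : θ ≤ 1 / 4 := by rw [hθ, div_le_div_iff₀ hκ0 (by norm_num)]; linarith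
    linarith
  have hθv : θ * v ≤ C * D / (1 - e) := by
    calc θ * v ≤ θ * (κ * D / (1 - e)) := by gcongr
      _ = C * D / (1 - e) := by rw [hθ]; field_simp
  have hθrt : θ * rt d t ≤ C * D * (1 + 4 * e) := by
    calc θ * rt d t ≤ θ * ((1 + 2 * e) * v) := by gcongr
      _ = (1 + 2 * e) * (θ * v) := by ring
      _ ≤ (1 + 2 * e) * (C * D / (1 - e)) := by gcongr
      _ = C * D * ((1 + 2 * e) / (1 - e)) := by ring
      _ ≤ C * D * (1 + 4 * e) := by
          have : (1 + 2 * e) / (1 - e) ≤ 1 + 4 * e := by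
            rw [div_le_iff₀ h1e]
            linarith [mul_nonneg he0.le (by linarith : 0 ≤ 1 - 4 * e)]
          gcongr
  have hCD : C * D ≤ C * R := by gcongr
  have hθrt2 : θ * rt d t ≤ 2 * (C * R) := by
    calc θ * rt d t ≤ C * D * (1 + 4 * e) := hθrt
      _ ≤ C * R * 2 := by gcongr; linarith
      _ = _ := by ring
  have hθv2 : θ * v ≤ 2 * (C * R) := by
    refine le_trans ?_ hθrt2
    have : v ≤ rt d t := by
      rw [hv]
      refine rt_mono d hV0.le (le_trans ?_ htge)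
      linarith [mul_pos he0 hV0]
    gcongr
  -- second exponential moments
  have hsec1 : iexp d (phe (2 * θ)) t ≤ ENNReal.ofReal B := by
    refine (iexp_phe_le hd (by positivity) hθ2 t).trans (ENNReal.ofReal_le_ofReal ?_)
    rw [hB]
    have : 2 * θ * (Real.exp 2 * rt d t + 1) ≤ 2 * (Real.exp 2 * (2 * (C * R))) + 1 := by
      have h1 : Real.exp 2 * (θ * rt d t) ≤ Real.exp 2 * (2 * (C * R)) := by gcongr
      linarith
    have := Real.exp_le_exp.mpr this
    linarith
  have hsec2 : ∫⁻ w, phe (2 * θ) (blen (gbox Q x y) G w) ∂(labels (Fin d × ι)) ≤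
      ENNReal.ofReal B := by
    refine (lintegral_blen_phe_le hd (gbox Q x y) hJ G v hv0 ?_ (by positivity) hθ2).trans
      (ENNReal.ofReal_le_ofReal ?_)
    · rw [hv, rt_pow hd hV0.le, hV]
      rw [Finset.prod_congr rfl fun j _ => hJs j,
        ← ENNReal.ofReal_prod_of_nonneg fun j _ => (hs0 j).le, ← ENNReal.ofReal_natCast,
        ← ENNReal.ofReal_mul (Nat.cast_nonneg _)]
    · rw [hB]
      have : 2 * θ * (Real.exp 2 * v + 1) ≤ 2 * (Real.exp 2 * (2 * (C * R))) + 1 := by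
        have h1 : Real.exp 2 * (θ * v) ≤ Real.exp 2 * (2 * (C * R)) := by gcongr
        linarith
      have := Real.exp_le_exp.mpr this
      linarith
  -- combine
  have hyQ' : ∀ j, ((y j : ℝ)) / Q ≤ 1 := fun j =>
    (div_le_one hQ0').mpr (by exact_mod_cast hyQ j)
  have hmain := lintegral_blen_phe_good (fun j => (x j : ℝ) / Q) (fun j => (y j : ℝ) / Q)
    (fun j => by positivity)
    (fun j => div_lt_div_of_pos_right (by exact_mod_cast hxy j) hQ0') hyQ' G θ hθ0.le V e t htge ρ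
    K hK0 hbad
  have hiid := iexp_phe_split (d := d) θ ((b + ε / 4) * rt d t) K hθ0.le hK0 t
  have hq := ht1 t ht1'
  have hfinal : ∫⁻ w, phe θ (blen (gbox Q x y) G w) ∂(labels (Fin d × ι)) ≤
      ENNReal.ofReal (Real.exp (θ * ((b + ε / 4) * rt d t)) + 4 * e1) := by
    calc ∫⁻ w, phe θ (blen (gbox Q x y) G w) ∂(labels (Fin d × ι))
        ≤ iexp d (phe θ) t + ENNReal.ofReal K * ENNReal.ofReal ρ + ENNReal.ofReal K⁻¹ *
            ∫⁻ u, phe (2 * θ) (blen (gbox Q x y) G u) ∂(labels (Fin d × ι)) := hmain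
      _ ≤ (ENNReal.ofReal (Real.exp (θ * ((b + ε / 4) * rt d t))) +
            ENNReal.ofReal K * ENNReal.ofReal (e1 / K) + ENNReal.ofReal K⁻¹ * ENNReal.ofReal B) +
            ENNReal.ofReal K * ENNReal.ofReal ρ + ENNReal.ofReal K⁻¹ * ENNReal.ofReal B := by
          gcongr
          refine hiid.trans ?_
          gcongr
      _ = _ := by
          rw [← ENNReal.ofReal_mul hK0.le, ← ENNReal.ofReal_mul (by positivity), hKB,
            ← ENNReal.ofReal_add (by positivity) (by positivity),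
            ← ENNReal.ofReal_add (by positivity) (by positivity),
            ← ENNReal.ofReal_add (by positivity) (by positivity),
            ← ENNReal.ofReal_add (by positivity) (by positivity)]
          congr 1
          have : K * (e1 / K) = e1 := by field_simp
          rw [this]
          ring
  refine hfinal.trans (ENNReal.ofReal_le_ofReal ?_)
  set A := θ * ((b + ε / 4) * rt d t) with hA
  have hA0 : 0 ≤ A := mul_nonneg hθ0.le (mul_nonneg (by positivity) (rt_nonneg d (Nat.cast_nonneg _)))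
  have h1 : Real.exp A + 4 * e1 ≤ Real.exp (A + 4 * e1) := by
    have h2 : 1 ≤ Real.exp A := Real.one_le_exp hA0
    have h3 : 4 * e1 + 1 ≤ Real.exp (4 * e1) := Real.add_one_le_exp _
    rw [Real.exp_add]
    calc Real.exp A + 4 * e1 ≤ Real.exp A + Real.exp A * (4 * e1) := by
          linarith [mul_le_mul_of_nonneg_right h2 (by positivity : 0 ≤ 4 * e1)]
      _ = Real.exp A * (4 * e1 + 1) := by ring
      _ ≤ _ := by gcongr
  refine h1.trans (Real.exp_le_exp.mpr ?_)
  have h2 : A ≤ (b + ε / 4) * (C * D * (1 + 4 * e)) := by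
    calc A = (b + ε / 4) * (θ * rt d t) := by rw [hA]; ring
      _ ≤ _ := by gcongr
  have h3 : (b + ε / 4) * (C * D * (1 + 4 * e)) ≤ C * D * (b + ε / 2) := by
    calc (b + ε / 4) * (C * D * (1 + 4 * e)) =
          C * D * ((b + ε / 4) + (b + ε / 4) * (4 * e)) := by ring
      _ ≤ C * D * (b + ε / 2) := mul_le_mul_of_nonneg_left (by linarith) (by positivity)
  have h4 : 4 * e1 ≤ C * D * (ε / 4) := by
    rw [he1]
    have : C * 1 * (ε / 4) ≤ C * D * (ε / 4) := by gcongr
    linarith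
  have h5 : C * D * (b + ε / 2) + C * D * (ε / 4) ≤ C * (b + ε) * D := by
    have : 0 ≤ C * D * (ε / 4) := by positivity
    linarith
  linarith

end Pool.Agent.Lib.MP_f702fa_pr
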