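import Mathlib
import Pool.Agent.Lib.MP_f702fa_pr.IID

open MeasureTheory Finset
open scoped ENNReal

namespace Pool.Agent.Lib.MP_f702fa_pr

section Inj

lemma ae_ne (ρ : Type*) [Fintype ρ] (r r' : ρ) (h : r ≠ r') :
    ∀ᵐ w ∂(labels ρ), w r ≠ w r' := by
  let E : Fin 2 → ρ := ![r, r']
  have hE : Function.Injective E := by
    intro a b hab
    fin_cases a <;> fin_cases b <;> simp_all [E]
  have h1 := measurePreserving_comp_inj E hE
  have h2 : MeasurePreserving (MeasurableEquiv.finTwoArrow (α := ℝ)) (labels (Fin 2))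
      (unif.prod unif) := measurePreserving_finTwoArrow unif
  have h3 := h2.comp h1
  have h4 : ∀ᵐ p ∂(unif.prod unif), p.1 ≠ p.2 := by
    have hm : MeasurableSet {p : ℝ × ℝ | p.1 = p.2} := measurableSet_eq_fun measurable_fst measurable_snd
    rw [ae_iff]
    have e : {p : ℝ × ℝ | ¬ p.1 ≠ p.2} = {p : ℝ × ℝ | p.1 = p.2} := by ext; simp
    rw [e, Measure.measure_prod_null hm]
    filter_upwards with x
    have e2 : Prod.mk x ⁻¹' {p : ℝ × ℝ | p.1 = p.2} = {x} := by
      ext y
      simp [eq_comm]
    rw [e2]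
    simp
  have h5 := h3.quasiMeasurePreserving.ae h4
  filter_upwards [h5] with w hw
  simpa [E] using hw

lemma ae_injective (ρ : Type*) [Fintype ρ] : ∀ᵐ w ∂(labels ρ), Function.Injective w := by
  have h : ∀ᵐ w ∂(labels ρ), ∀ r r', r ≠ r' → w r ≠ w r' := by
    rw [ae_all_iff]
    intro r
    rw [ae_all_iff]
    intro r'
    by_cases h : r = r'
    · simp [h]
    · filter_upwards [ae_ne ρ r r' h] with w hw _
      exact hw
  filter_upwards [h] with w hw r r' e
  by_contra hne
  exact hw r r' hne e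

end Inj

section Perm

variable {d n : ℕ}

/-- real positions given by a tuple of permutations. -/
def ppos (σ : Fin d → Equiv.Perm (Fin n)) (α : Fin d → Fin n) (j : Fin d) : ℝ :=
  ((σ j (α j) : ℕ) : ℝ)

/-- an injective function on `Fin n` is order isomorphic to a permutation. -/
lemma exists_rank (f : Fin n → ℝ) (hf : Function.Injective f) :
    ∃ τ : Equiv.Perm (Fin n), ∀ i i', f i < f i' ↔ τ i < τ i' := by
  let s := Tuple.sort f
  have hm : Monotone (f ∘ s) := Tuple.monotone_sort f
  have hs : StrictMono (f ∘ s) := hm.strictMono_of_injective (hf.comp s.injective)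
  refine ⟨s.symm, fun i i' => ?_⟩
  have := hs.lt_iff_lt (a := s.symm i) (b := s.symm i')
  simpa using this

/-- averages over tuples of permutations are averages over labels. -/
theorem avg_perm (G : Finset (Fin d → Fin n)) (φ : ℕ → ℝ≥0∞) :
    ∑ σ : Fin d → Equiv.Perm (Fin n), φ (clen G (ppos σ)) =
      (Fintype.card (Fin d → Equiv.Perm (Fin n)) : ℝ≥0∞) *
        ∫⁻ w, φ (clen G (pos w)) ∂(labels (Fin d × Fin n)) := by
  classical
  let act : (Fin d → Equiv.Perm (Fin n)) → Fin d × Fin n → Fin d × Fin n := fun π p =>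
    (p.1, π p.1 p.2)
  have hact : ∀ π, Function.Injective (act π) := by
    rintro π ⟨j, i⟩ ⟨j', i'⟩ h
    simp only [act, Prod.mk.injEq] at h
    obtain ⟨rfl, h⟩ := h
    rw [(π j).injective h]
  have hφm : Measurable (fun w : Fin d × Fin n → ℝ => φ (clen G (pos w))) :=
    (measurable_from_top (f := φ)).comp (measurable_clen_pos G)
  have h1 : ∀ π, ∫⁻ w, φ (clen G (pos fun i => w (act π i))) ∂(labels (Fin d × Fin n)) =
      ∫⁻ w, φ (clen G (pos w)) ∂(labels (Fin d × Fin n)) := fun π =>
    lintegral_comp_inj (act π) (hact π) _ hφm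
  have hm : ∀ π, Measurable (fun w : Fin d × Fin n → ℝ => φ (clen G (pos fun i => w (act π i)))) :=
    fun π => hφm.comp (measurePreserving_comp_inj (act π) (hact π)).measurable
  have h2 : (Fintype.card (Fin d → Equiv.Perm (Fin n)) : ℝ≥0∞) *
        ∫⁻ w, φ (clen G (pos w)) ∂(labels (Fin d × Fin n)) =
      ∫⁻ w, ∑ π : Fin d → Equiv.Perm (Fin n), φ (clen G (pos fun i => w (act π i)))
        ∂(labels (Fin d × Fin n)) := by
    rw [lintegral_finsetSum _ fun π _ => hm π]
    simp_rw [h1]
    rw [Finset.sum_const, Finset.card_univ, nsmul_eq_mul]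
  rw [h2]
  have h3 : ∀ᵐ w ∂(labels (Fin d × Fin n)),
      ∑ π : Fin d → Equiv.Perm (Fin n), φ (clen G (pos fun i => w (act π i))) =
        ∑ σ : Fin d → Equiv.Perm (Fin n), φ (clen G (ppos σ)) := by
    filter_upwards [ae_injective (Fin d × Fin n)] with w hw
    have hinj : ∀ j, Function.Injective fun i => w (j, i) := by
      intro j i i' h
      have := hw h
      exact (Prod.mk.inj this).2
    choose τ hτ using fun j => exists_rank (fun i => w (j, i)) (hinj j)
    have h4 : ∀ π : Fin d → Equiv.Perm (Fin n),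
        clen G (pos fun i => w (act π i)) = clen G (ppos (τ * π)) := by
      intro π
      refine clen_congr fun α _ β _ => ?_
      simp only [Below, pos, ppos, act, Pi.mul_apply, Equiv.Perm.mul_apply, Nat.cast_lt,
        Fin.val_fin_lt]
      exact forall_congr' fun j => hτ j _ _
    simp_rw [h4]
    exact Equiv.sum_comp (Equiv.mulLeft τ) (fun σ => φ (clen G (ppos σ)))
  rw [lintegral_congr_ae h3, lintegral_const, measure_univ, mul_one]

/-- counting version. -/
lemma card_perm_le (G : Finset (Fin d → Fin n)) (P : ℕ → Prop) [DecidablePred P] (δ : ℝ)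
    (hδ : 0 ≤ δ) (h : labels (Fin d × Fin n) {w | P (clen G (pos w))} ≤ ENNReal.ofReal δ) :
    (((univ : Finset (Fin d → Equiv.Perm (Fin n))).filter
      (fun σ => P (clen G (ppos σ)))).card : ℝ) ≤
        (Fintype.card (Fin d → Equiv.Perm (Fin n)) : ℝ) * δ := by
  classical
  have h1 := avg_perm G (fun m => if P m then 1 else 0)
  have h2 : ∑ σ : Fin d → Equiv.Perm (Fin n),
      (if P (clen G (ppos σ)) then (1 : ℝ≥0∞) else 0) =
      (((univ : Finset (Fin d → Equiv.Perm (Fin n))).filter
        (fun σ => P (clen G (ppos σ)))).card : ℝ≥0∞) := by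
    rw [← Finset.sum_filter, Finset.sum_const, nsmul_eq_mul, mul_one]
  have hm : MeasurableSet {w : Fin d × Fin n → ℝ | P (clen G (pos w))} :=
    (measurable_clen_pos G) (MeasurableSet.of_discrete (s := {m | P m}))
  have h3 : ∫⁻ w, (if P (clen G (pos w)) then (1 : ℝ≥0∞) else 0) ∂(labels (Fin d × Fin n)) =
      labels (Fin d × Fin n) {w | P (clen G (pos w))} := by
    have : (fun w : Fin d × Fin n → ℝ => if P (clen G (pos w)) then (1 : ℝ≥0∞) else 0) =
        Set.indicator {w | P (clen G (pos w))} (fun _ => 1) := by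
      funext w
      by_cases h : P (clen G (pos w))
      · simp [h]
      · simp [h]
    rw [this, lintegral_indicator_const hm, one_mul]
  rw [h2, h3] at h1
  have h4 : (((univ : Finset (Fin d → Equiv.Perm (Fin n))).filter
        (fun σ => P (clen G (ppos σ)))).card : ℝ≥0∞) ≤
      ENNReal.ofReal ((Fintype.card (Fin d → Equiv.Perm (Fin n)) : ℝ) * δ) := by
    rw [h1, ENNReal.ofReal_mul (Nat.cast_nonneg _), ENNReal.ofReal_natCast]
    exact mul_le_mul' le_rfl h
  rw [← ENNReal.ofReal_natCast] at h4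
  exact (ENNReal.ofReal_le_ofReal_iff (by positivity)).mp h4

end Perm

end Pool.Agent.Lib.MP_f702fa_pr
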