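import Mathlib
import Pool.Agent.Lib.MP_f702fa_pr.Labels

open Finset

namespace Pool.Agent.Lib.MP_f702fa_pr

section TubeComb

variable {d : ℕ} {ι : Type*}

/-- every chain runs inside a tube made of `M` boxes with small sides. -/
lemma exists_tube (Q R M : ℕ) (hQ : 0 < Q) (hR : 0 < R) (hM : d * Q / R < M)
    (w : Fin d × ι → ℝ) (hw : ∀ r, w r ∈ Set.Ico (0 : ℝ) 1) (C : Finset (Fin d → ι))
    (hC : IsCh (pos w) C) :
    ∃ x y : Fin M → Fin d → ℕ, (∀ j, Monotone fun a => x a j) ∧ (∀ j, Monotone fun a => y a j) ∧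
      (∀ a j, x a j ≤ y a j ∧ y a j ≤ x a j + R ∧ y a j ≤ Q) ∧
      (∀ a a', a < a' → ∀ j, y a j ≤ x a' j) ∧
      ∀ α ∈ C, ∃ a, ∀ j, x a j ≤ ⌊(Q : ℝ) * w (j, α j)⌋₊ + 1 ∧
        ⌊(Q : ℝ) * w (j, α j)⌋₊ < y a j := by
  classical
  have hQ' : (0 : ℝ) < Q := by exact_mod_cast hQ
  let γ : (Fin d → ι) → Fin d → ℕ := fun α j => ⌊(Q : ℝ) * w (j, α j)⌋₊
  have hγQ : ∀ α j, γ α j < Q := by
    intro α j
    have h1 := hw (j, α j)
    have h2 : (0 : ℝ) ≤ (Q : ℝ) * w (j, α j) := mul_nonneg hQ'.le h1.1
    refine (Nat.floor_lt h2).mpr ?_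
    calc (Q : ℝ) * w (j, α j) < (Q : ℝ) * 1 := by
          exact mul_lt_mul_of_pos_left h1.2 hQ'
      _ = Q := mul_one _
  have hγle : ∀ α β, Below (pos w) α β → ∀ j, γ α j ≤ γ β j := by
    intro α β hB j
    refine Nat.floor_mono ?_
    have : w (j, α j) < w (j, β j) := hB j
    exact mul_le_mul_of_nonneg_left this.le hQ'.le
  let h : (Fin d → ι) → ℕ := fun α => ∑ j, γ α j
  have hle : ∀ α β, Below (pos w) α β → h α ≤ h β := fun α β hB =>
    Finset.sum_le_sum fun j _ => hγle α β hB j
  have hhd : ∀ α, h α ≤ d * Q := by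
    intro α
    calc h α ≤ ∑ _j : Fin d, Q := Finset.sum_le_sum fun j _ => (hγQ α j).le
      _ = d * Q := by simp
  let seg : (Fin d → ι) → ℕ := fun α => h α / R
  have hsegM : ∀ α, seg α < M := fun α => lt_of_le_of_lt (Nat.div_le_div_right (hhd α)) hM
  let z : ℕ → Fin d → ℕ := fun a j => (C.filter (fun α => seg α < a)).sup (fun α => γ α j + 1)
  have hzmono : ∀ j, Monotone fun a => z a j := by
    intro j a a' haa
    refine Finset.sup_mono ?_
    intro α hα
    simp only [mem_filter] at hα ⊢
    exact ⟨hα.1, hα.2.trans_le haa⟩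
  have hzQ : ∀ a j, z a j ≤ Q := fun a j => Finset.sup_le fun α _ => hγQ α j
  have hzlt : ∀ α ∈ C, ∀ j, γ α j < z (seg α + 1) j := by
    intro α hα j
    have : γ α j + 1 ≤ z (seg α + 1) j :=
      Finset.le_sup (f := fun α => γ α j + 1) (mem_filter.mpr ⟨hα, Nat.lt_succ_self _⟩)
    omega
  -- separate one coordinate in the height
  have hsplit : ∀ α j, h α = γ α j + ∑ i ∈ univ.erase j, γ α i := fun α j =>
    (Finset.add_sum_erase univ (γ α) (mem_univ j)).symm
  have key : ∀ a, ∃ x : Fin d → ℕ,
      (∀ j, z a j ≤ x j ∧ x j ≤ z (a + 1) j ∧ z (a + 1) j ≤ x j + R) ∧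
      ∀ α ∈ C, seg α = a → ∀ j, x j ≤ γ α j + 1 := by
    intro a
    by_cases hne : (C.filter (fun α => seg α = a)).Nonempty
    · obtain ⟨α0, hα0, hmin⟩ := exists_min_image _ h hne
      obtain ⟨hα0C, hα0a⟩ := mem_filter.mp hα0
      have hlow : ∀ β ∈ C, seg β < a → ∀ j, γ β j ≤ γ α0 j := by
        intro β hβ hβa j
        have hne' : β ≠ α0 := fun e => by rw [e, hα0a] at hβa; exact lt_irrefl _ hβa
        rcases hC β hβ α0 hα0C hne' with h1 | h1
        · exact hγle _ _ h1 j
        · have h2 : seg α0 ≤ seg β := Nat.div_le_div_right (hle _ _ h1)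
          omega
      refine ⟨fun j => γ α0 j + 1, fun j => ⟨?_, ?_, ?_⟩, ?_⟩
      · change z a j ≤ γ α0 j + 1
        refine Finset.sup_le fun β hβ => ?_
        obtain ⟨hβC, hβa⟩ := mem_filter.mp hβ
        have := hlow β hβC hβa j
        omega
      · exact Finset.le_sup (f := fun α => γ α j + 1)
          (mem_filter.mpr ⟨hα0C, by rw [hα0a]; exact Nat.lt_succ_self _⟩)
      · change z (a + 1) j ≤ γ α0 j + 1 + R
        refine Finset.sup_le fun β hβ => ?_
        obtain ⟨hβC, hβa⟩ := mem_filter.mp hβ
        rcases Nat.lt_succ_iff_lt_or_eq.mp hβa with h1 | h1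
        · have := hlow β hβC h1 j
          omega
        · by_cases e : β = α0
          · rw [e]; omega
          · rcases hC β hβC α0 hα0C e with h2 | h2
            · have := hγle _ _ h2 j
              omega
            · have h3 : ∑ i ∈ univ.erase j, γ α0 i ≤ ∑ i ∈ univ.erase j, γ β i :=
                Finset.sum_le_sum fun i _ => hγle _ _ h2 i
              have h4 := hsplit α0 j
              have h5 := hsplit β j
              have h6 : h β < R * (a + 1) := by
                have := Nat.lt_mul_div_succ (h β) hR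
                have e1 : h β / R = a := h1
                rwa [e1] at this
              have h7 : R * a ≤ h α0 := by
                have := Nat.mul_div_le (h α0) R
                have e1 : h α0 / R = a := hα0a
                rwa [e1] at this
              have h8 : R * (a + 1) = R * a + R := by ring
              omega
      · intro β hβC hβa j
        have hm : h α0 ≤ h β := hmin β (mem_filter.mpr ⟨hβC, hβa⟩)
        by_cases e : β = α0
        · rw [e]
        · rcases hC β hβC α0 hα0C e with h2 | h2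
          · have h3 : ∑ i ∈ univ.erase j, γ β i ≤ ∑ i ∈ univ.erase j, γ α0 i :=
              Finset.sum_le_sum fun i _ => hγle _ _ h2 i
            have h4 := hsplit α0 j
            have h5 := hsplit β j
            simp only
            omega
          · have := hγle _ _ h2 j
            simp only
            omega
    · have hemp : ∀ α ∈ C, seg α ≠ a := by
        intro α hα e
        exact hne ⟨α, mem_filter.mpr ⟨hα, e⟩⟩
      have heq : ∀ j, z (a + 1) j = z a j := by
        intro j
        have : C.filter (fun α => seg α < a + 1) = C.filter (fun α => seg α < a) := by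
          ext α
          simp only [mem_filter]
          constructor
          · rintro ⟨h1, h2⟩
            have := hemp α h1
            exact ⟨h1, by omega⟩
          · rintro ⟨h1, h2⟩
            exact ⟨h1, by omega⟩
        simp only [z, this]
      refine ⟨z a, fun j => ⟨le_rfl, (heq j).ge, by rw [heq j]; omega⟩, ?_⟩
      intro α hα e
      exact absurd e (hemp α hα)
  choose X hX1 hX2 using key
  refine ⟨fun a => X a, fun a => z (a + 1), ?_, ?_, ?_, ?_, ?_⟩
  · intro j a a' haa
    rcases eq_or_lt_of_le haa with rfl | hlt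
    · exact le_rfl
    · have h1 : (a : ℕ) + 1 ≤ (a' : ℕ) := hlt
      calc X a j ≤ z (a + 1) j := (hX1 a j).2.1
        _ ≤ z a' j := hzmono j h1
        _ ≤ X a' j := (hX1 a' j).1
  · intro j a a' haa
    have h1 : (a : ℕ) + 1 ≤ (a' : ℕ) + 1 := by
      have : (a : ℕ) ≤ a' := haa
      omega
    exact hzmono j h1
  · intro a j
    exact ⟨(hX1 a j).2.1, (hX1 a j).2.2, hzQ _ _⟩
  · intro a a' haa j
    have h1 : (a : ℕ) + 1 ≤ (a' : ℕ) := haa
    exact (hzmono j h1).trans (hX1 a' j).1
  · intro α hα
    exact ⟨⟨seg α, hsegM α⟩, fun j => ⟨hX2 (seg α) α hα rfl j, hzlt α hα j⟩⟩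

/-- weakly increasing sequences with values at most `Q`. -/
noncomputable def MonF (N Q : ℕ) : Finset (Fin N → ℕ) := by
  classical
  exact (Fintype.piFinset fun _ => range (Q + 1)).filter Monotone

lemma mem_MonF {N Q : ℕ} {f : Fin N → ℕ} : f ∈ MonF N Q ↔ Monotone f ∧ ∀ a, f a ≤ Q := by
  classical
  unfold MonF
  simp only [mem_filter, Fintype.mem_piFinset, mem_range, Nat.lt_succ_iff]
  tauto

lemma card_MonF_le (N Q : ℕ) : (MonF N Q).card ≤ 2 ^ (Q + N) := by
  classical
  rw [← card_range (Q + N), ← card_powerset]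
  refine Finset.card_le_card_of_injOn (fun f => univ.image fun i : Fin N => f i + i) ?_ ?_
  · intro f hf
    obtain ⟨-, h2⟩ := mem_MonF.mp (mem_coe.mp hf)
    simp only [coe_powerset, Set.mem_preimage, Set.mem_powerset_iff, coe_range, coe_image]
    rintro _ ⟨i, -, rfl⟩
    have := h2 i
    have := i.2
    simp only [Set.mem_Iio]
    omega
  · intro f hf g hg hfg
    obtain ⟨hf1, -⟩ := mem_MonF.mp (mem_coe.mp hf)
    obtain ⟨hg1, -⟩ := mem_MonF.mp (mem_coe.mp hg)
    have sf : StrictMono fun i : Fin N => f i + i := by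
      intro i i' hlt
      have := hf1 hlt.le
      have : (i : ℕ) < i' := hlt
      simp only
      omega
    have sg : StrictMono fun i : Fin N => g i + i := by
      intro i i' hlt
      have := hg1 hlt.le
      have : (i : ℕ) < i' := hlt
      simp only
      omega
    have hr : Set.range (fun i : Fin N => f i + (i : ℕ)) = Set.range fun i : Fin N => g i + (i : ℕ) := by
      have := congrArg (fun S : Finset ℕ => (S : Set ℕ)) hfg
      simpa using this
    have := (StrictMono.range_inj sf sg).mp hr
    funext i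
    have h3 : f i + (i : ℕ) = g i + (i : ℕ) := congrFun this i
    omega

/-- total length of disjoint integer intervals. -/
lemma sum_len_le {M Q : ℕ} (x y : Fin M → ℕ) (hy : ∀ a, y a ≤ Q)
    (hd : ∀ a a', a < a' → y a ≤ x a') : ∑ a, (y a - x a) ≤ Q := by
  classical
  have h1 : ∑ a, (y a - x a) = ∑ a, (Finset.Ico (x a) (y a)).card := by simp
  rw [h1, ← Finset.card_biUnion]
  · calc _ ≤ (range Q).card := by
          refine card_le_card ?_
          intro i hi
          simp only [mem_biUnion, mem_univ, true_and, mem_Ico] at hi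
          obtain ⟨a, h2, h3⟩ := hi
          exact mem_range.mpr (h3.trans_le (hy a))
      _ = Q := card_range Q
  · intro a _ a' _ hne
    rw [Function.onFun, Finset.disjoint_left]
    intro i hi hi'
    simp only [mem_Ico] at hi hi'
    rcases lt_or_gt_of_ne hne with h | h
    · have := hd a a' h; omega
    · have := hd a' a h; omega

end TubeComb

end Pool.Agent.Lib.MP_f702fa_pr
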