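import Mathlib
import Pool.Agent.Lib.MP_f702fa_pr.BoxExp
import Pool.Agent.Lib.MP_f702fa_pr.TubeComb

open MeasureTheory Finset Filter
open scoped ENNReal

namespace Pool.Agent.Lib.MP_f702fa_pr

section TubeProb

variable {d : ℕ} {ι : Type*} [Fintype ι]

/-- arithmetic-geometric mean inequality for `rt`. -/
lemma rt_prod_le (hd : 0 < d) (z : Fin d → ℝ) (hz : ∀ j, 0 ≤ z j) :
    rt d (∏ j, z j) ≤ (∑ j, z j) / d := by
  have hd' : (0 : ℝ) < d := by exact_mod_cast hd
  have h := Real.geom_mean_le_arith_mean_weighted (Finset.univ : Finset (Fin d))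
    (fun _ => ((d : ℝ)⁻¹)) z (fun _ _ => by positivity) (by simp; field_simp) (fun j _ => hz j)
  rw [Real.finsetProd_rpow _ _ (fun j _ => hz j), ← Finset.mul_sum] at h
  unfold rt
  rw [div_eq_inv_mul]
  exact h

omit [Fintype ι] in
lemma blen_eq_zero_of_eq (Q : ℕ) (x y : Fin d → ℕ) (j : Fin d) (hj : y j ≤ x j)
    (G : Finset (Fin d → ι)) (w : Fin d × ι → ℝ) : blen (gbox Q x y) G w = 0 := by
  have : box (gbox Q x y) w G = ∅ := by
    rw [Finset.eq_empty_iff_forall_notMem]
    intro α hα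
    have h1 := (mem_box.mp hα).2 j
    simp only [gbox, Set.mem_Ico] at h1
    have h2 : (y j : ℝ) / Q ≤ (x j : ℝ) / Q :=
      div_le_div_of_nonneg_right (by exact_mod_cast hj) (Nat.cast_nonneg _)
    linarith [h1.1, h1.2]
  unfold blen
  rw [this, clen_empty]

/-- upper tail of the total length collected in the boxes of a tube. -/
lemma main_bound (hd : 0 < d) {M Q : ℕ} (hQ : 0 < Q) (G : Finset (Fin d → ι))
    (x y : Fin M → Fin d → ℕ) (hxy : ∀ a j, x a j ≤ y a j) (hyQ : ∀ a j, y a j ≤ Q)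
    (hdis : ∀ a a', a < a' → ∀ j, y a j ≤ x a' j) (θ c : ℝ) (hc : 0 ≤ c)
    (hbox : ∀ a, (∀ j, x a j < y a j) →
      ∫⁻ w, phe θ (blen (gbox Q (x a) (y a)) G w) ∂(labels (Fin d × ι)) ≤
        ENNReal.ofReal (Real.exp (c * rt d (∏ j, ((y a j : ℝ) - x a j))))) (s : ℝ) (hθ : 0 ≤ θ) :
    labels (Fin d × ι) {w | s ≤ ∑ a, (blen (gbox Q (x a) (y a)) G w : ℝ)} ≤
      ENNReal.ofReal (Real.exp (c * Q - θ * s)) := by
  classical
  have hQ' : (0 : ℝ) < Q := by exact_mod_cast hQ
  have hd' : (0 : ℝ) < d := by exact_mod_cast hd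
  have hΔ0 : ∀ a j, (0 : ℝ) ≤ (y a j : ℝ) - x a j := by
    intro a j
    have : (x a j : ℝ) ≤ y a j := by exact_mod_cast hxy a j
    linarith
  have hbox' : ∀ a, ∫⁻ w, phe θ (blen (gbox Q (x a) (y a)) G w) ∂(labels (Fin d × ι)) ≤
      ENNReal.ofReal (Real.exp (c * rt d (∏ j, ((y a j : ℝ) - x a j)))) := by
    intro a
    by_cases h : ∀ j, x a j < y a j
    · exact hbox a h
    · push Not at h
      obtain ⟨j, hj⟩ := h
      have h1 : ∀ w, phe θ (blen (gbox Q (x a) (y a)) G w) = 1 := by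
        intro w
        rw [blen_eq_zero_of_eq Q _ _ j hj G w]
        simp [phe]
      simp_rw [h1]
      rw [lintegral_const, measure_univ, mul_one]
      rw [← ENNReal.ofReal_one]
      refine ENNReal.ofReal_le_ofReal (Real.one_le_exp ?_)
      exact mul_nonneg hc (rt_nonneg d (Finset.prod_nonneg fun j _ => hΔ0 a j))
  have hsum : ∑ a, rt d (∏ j, ((y a j : ℝ) - x a j)) ≤ Q := by
    have h1 : ∀ j, ∑ a, ((y a j : ℝ) - x a j) ≤ Q := by
      intro j
      have h2 := sum_len_le (fun a => x a j) (fun a => y a j) (fun a => hyQ a j)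
        (fun a a' h => hdis a a' h j)
      have h3 : ((∑ a, (y a j - x a j) : ℕ) : ℝ) = ∑ a, ((y a j : ℝ) - x a j) := by
        push_cast
        exact Finset.sum_congr rfl fun a _ => Nat.cast_sub (hxy a j)
      rw [← h3]
      exact_mod_cast h2
    calc ∑ a, rt d (∏ j, ((y a j : ℝ) - x a j)) ≤ ∑ a, (∑ j, ((y a j : ℝ) - x a j)) / d :=
          Finset.sum_le_sum fun a _ => rt_prod_le hd _ (hΔ0 a)
      _ = (∑ j, ∑ a, ((y a j : ℝ) - x a j)) / d := by
          rw [← Finset.sum_div, Finset.sum_comm]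
      _ ≤ (∑ _j : Fin d, (Q : ℝ)) / d := by
          gcongr with j _
          exact h1 j
      _ = Q := by
          rw [Finset.sum_const, Finset.card_univ, Fintype.card_fin, nsmul_eq_mul]
          field_simp
  have hm : ∀ a, Measurable (fun w => phe θ (blen (gbox Q (x a) (y a)) G w)) := fun a =>
    (measurable_from_top (f := phe θ)).comp (measurable_blen _ (fun j => measurableSet_Ico) G)
  have hdec := decouple (δ := Fin d × ι) unif (Finset.univ : Finset (Fin M))
    (fun a r => gbox Q (x a) (y a) r.1) (by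
      intro a _ a' _ hne r
      rw [Set.disjoint_left]
      intro u hu hu'
      simp only [gbox, Set.mem_Ico] at hu hu'
      rcases lt_or_gt_of_ne hne with h | h
      · have h1 : (y a r.1 : ℝ) / Q ≤ (x a' r.1 : ℝ) / Q :=
          div_le_div_of_nonneg_right (by exact_mod_cast hdis a a' h r.1) hQ'.le
        linarith [hu.2, hu'.1]
      · have h1 : (y a' r.1 : ℝ) / Q ≤ (x a r.1 : ℝ) / Q :=
          div_le_div_of_nonneg_right (by exact_mod_cast hdis a' a h r.1) hQ'.le
        linarith [hu'.2, hu.1])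
    (fun a w => phe θ (blen (gbox Q (x a) (y a)) G w)) (fun a _ => hm a)
    (fun a _ => blind_blen _ G (phe θ) (phe_mono hθ))
  have hprod : ∀ w, ∏ a, phe θ (blen (gbox Q (x a) (y a)) G w) =
      ENNReal.ofReal (Real.exp (θ * ∑ a, (blen (gbox Q (x a) (y a)) G w : ℝ))) := by
    intro w
    unfold phe
    rw [← ENNReal.ofReal_prod_of_nonneg (fun a _ => (Real.exp_pos _).le), ← Real.exp_sum,
      Finset.mul_sum]
  have hE : ∫⁻ w, ∏ a, phe θ (blen (gbox Q (x a) (y a)) G w) ∂(labels (Fin d × ι)) ≤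
      ENNReal.ofReal (Real.exp (c * Q)) := by
    calc ∫⁻ w, ∏ a, phe θ (blen (gbox Q (x a) (y a)) G w) ∂(labels (Fin d × ι))
        ≤ ∏ a, ∫⁻ w, phe θ (blen (gbox Q (x a) (y a)) G w) ∂(labels (Fin d × ι)) := hdec
      _ ≤ ∏ a, ENNReal.ofReal (Real.exp (c * rt d (∏ j, ((y a j : ℝ) - x a j)))) :=
          Finset.prod_le_prod' fun a _ => hbox' a
      _ = ENNReal.ofReal (Real.exp (c * ∑ a, rt d (∏ j, ((y a j : ℝ) - x a j)))) := by
          rw [← ENNReal.ofReal_prod_of_nonneg (fun a _ => (Real.exp_pos _).le), ← Real.exp_sum,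
            Finset.mul_sum]
      _ ≤ _ := by
          refine ENNReal.ofReal_le_ofReal (Real.exp_le_exp.mpr ?_)
          exact mul_le_mul_of_nonneg_left hsum hc
  have hmk := mul_meas_ge_le_lintegral (μ := labels (Fin d × ι))
    (f := fun w => ∏ a, phe θ (blen (gbox Q (x a) (y a)) G w))
    (Finset.measurable_prod _ fun a _ => hm a) (ENNReal.ofReal (Real.exp (θ * s)))
  have hsub : {w | s ≤ ∑ a, (blen (gbox Q (x a) (y a)) G w : ℝ)} ⊆
      {w | ENNReal.ofReal (Real.exp (θ * s)) ≤ ∏ a, phe θ (blen (gbox Q (x a) (y a)) G w)} := by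
    intro w hw
    simp only [Set.mem_ofPred_eq] at hw ⊢
    rw [hprod]
    exact ENNReal.ofReal_le_ofReal (Real.exp_le_exp.mpr (mul_le_mul_of_nonneg_left hw hθ))
  have h1 : ENNReal.ofReal (Real.exp (θ * s)) *
      labels (Fin d × ι) {w | s ≤ ∑ a, (blen (gbox Q (x a) (y a)) G w : ℝ)} ≤
      ENNReal.ofReal (Real.exp (c * Q)) :=
    (mul_le_mul' le_rfl (measure_mono hsub)).trans (hmk.trans hE)
  have h2 : ENNReal.ofReal (Real.exp (c * Q - θ * s)) =
      ENNReal.ofReal (Real.exp (c * Q)) / ENNReal.ofReal (Real.exp (θ * s)) := by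
    rw [← ENNReal.ofReal_div_of_pos (Real.exp_pos _), Real.exp_sub]
  rw [h2, ENNReal.le_div_iff_mul_le (Or.inl (by simp [Real.exp_pos])) (Or.inl ENNReal.ofReal_ne_top),
    mul_comm]
  exact h1

lemma unif_Ico_le (a b : ℝ) : unif (Set.Ico a b) ≤ ENNReal.ofReal (b - a) := by
  unfold unif
  rw [Measure.restrict_apply measurableSet_Ico]
  calc volume (Set.Ico a b ∩ Set.Ico 0 1) ≤ volume (Set.Ico a b) :=
        measure_mono Set.inter_subset_left
    _ = _ := Real.volume_Ico

open Classical in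
/-- the thin layer in direction `j0` below the box with lower corner `x`. -/
noncomputable def tbox (Q R : ℕ) (x : Fin d → ℕ) (j0 : Fin d) : Fin d → Set ℝ :=
  fun j => if j = j0 then Set.Ico (((x j : ℝ) - 1) / Q) ((x j : ℝ) / Q)
    else Set.Ico (((x j : ℝ) - 1) / Q) (((x j : ℝ) + R) / Q)

lemma measurableSet_tbox (Q R : ℕ) (x : Fin d → ℕ) (j0 j : Fin d) :
    MeasurableSet (tbox Q R x j0 j) := by
  unfold tbox
  split_ifs <;> exact measurableSet_Ico

lemma prod_tbox_le {Q : ℕ} (hQ : 0 < Q) (R : ℕ) (x : Fin d → ℕ) (j0 : Fin d) :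
    ∏ j, unif (tbox Q R x j0 j) ≤
      ENNReal.ofReal ((1 / Q) ^ d * ((R : ℝ) + 1) ^ (d - 1)) := by
  classical
  have hQ' : (0 : ℝ) < Q := by exact_mod_cast hQ
  have h1 : ∀ j, unif (tbox Q R x j0 j) ≤
      ENNReal.ofReal (if j = j0 then 1 / Q else 1 / Q * ((R : ℝ) + 1)) := by
    intro j
    unfold tbox
    split_ifs with h
    · refine (unif_Ico_le _ _).trans (ENNReal.ofReal_le_ofReal (le_of_eq ?_))
      ring
    · refine (unif_Ico_le _ _).trans (ENNReal.ofReal_le_ofReal (le_of_eq ?_))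
      ring
  calc ∏ j, unif (tbox Q R x j0 j) ≤
        ∏ j, ENNReal.ofReal (if j = j0 then 1 / (Q : ℝ) else 1 / Q * ((R : ℝ) + 1)) :=
        Finset.prod_le_prod' fun j _ => h1 j
    _ = ENNReal.ofReal (∏ j, if j = j0 then 1 / (Q : ℝ) else 1 / Q * ((R : ℝ) + 1)) := by
        rw [ENNReal.ofReal_prod_of_nonneg]
        intro j _
        split_ifs <;> positivity
    _ = _ := by
        congr 1
        rw [← Finset.mul_prod_erase _ _ (mem_univ j0), if_pos rfl]
        have : ∀ j ∈ univ.erase j0, (if j = j0 then 1 / (Q : ℝ) else 1 / Q * ((R : ℝ) + 1)) =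
            1 / Q * ((R : ℝ) + 1) := fun j hj => if_neg (Finset.ne_of_mem_erase hj)
        rw [Finset.prod_congr rfl this, Finset.prod_const, Finset.card_erase_of_mem (mem_univ _),
          Finset.card_univ, Fintype.card_fin, mul_pow, ← mul_assoc, ← pow_succ']
        have hd : d - 1 + 1 = d := Nat.succ_pred_eq_of_pos (Fin.pos j0)
        rw [hd]

/-- chains in the thin layers are short. -/
lemma thin_bound (hd : 0 < d) {M Q R : ℕ} (hM : 0 < M) (hQ : 0 < Q) (G : Finset (Fin d → ι))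
    (x : Fin M → Fin d → ℕ) (j0 : Fin d) (n : ℕ) (hn0 : 0 < n)
    (hn : Real.exp 2 * (M * (rt d G.card / Q * rt d (((R : ℝ) + 1) ^ (d - 1)))) ≤ n) :
    labels (Fin d × ι) (ChainIn (fun a => tbox Q R (x a) j0) G n) ≤
      ENNReal.ofReal (Real.exp (-n)) := by
  have hQ' : (0 : ℝ) < Q := by exact_mod_cast hQ
  set v := rt d G.card / Q * rt d (((R : ℝ) + 1) ^ (d - 1)) with hv
  have h1 : 0 ≤ rt d (G.card : ℝ) := rt_nonneg d (Nat.cast_nonneg _)
  have h2 : 0 ≤ rt d (((R : ℝ) + 1) ^ (d - 1)) := rt_nonneg d (by positivity)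
  have hv0 : 0 ≤ v := by positivity
  have h := chainIn_measure_le hd hM (fun a => tbox Q R (x a) j0)
    (fun a j => measurableSet_tbox Q R (x a) j0 j) G v hv0 (by
      intro a
      calc (G.card : ℝ≥0∞) * ∏ j, unif (tbox Q R (x a) j0 j) ≤
            ENNReal.ofReal G.card * ENNReal.ofReal ((1 / Q) ^ d * ((R : ℝ) + 1) ^ (d - 1)) := by
            rw [ENNReal.ofReal_natCast]
            exact mul_le_mul' le_rfl (prod_tbox_le hQ R (x a) j0)
        _ = ENNReal.ofReal (v ^ d) := by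
            rw [← ENNReal.ofReal_mul (Nat.cast_nonneg _)]
            congr 1
            rw [hv, mul_pow, div_pow, div_pow, rt_pow hd (Nat.cast_nonneg _),
              rt_pow hd (by positivity), one_pow]
            ring) n
  refine h.trans (ENNReal.ofReal_le_ofReal ?_)
  exact tail_small_pow (by positivity) hd hn hn0

end TubeProb

end Pool.Agent.Lib.MP_f702fa_pr
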