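import Mathlib
import Pool.Agent.Lib.MP_f702fa_pr.TubeProb

open MeasureTheory Finset Filter
open scoped ENNReal

namespace Pool.Agent.Lib.MP_f702fa_pr

section Cover

variable {d : ℕ} {ι : Type*}

open Classical in
/-- the finite family of all tubes. -/
noncomputable def Tubes (d M Q R : ℕ) : Finset (Fin d → (Fin M → ℕ) × (Fin M → ℕ)) :=
  (Fintype.piFinset fun _ : Fin d => MonF M Q ×ˢ MonF M Q).filter fun p =>
    (∀ a j, (p j).1 a ≤ (p j).2 a ∧ (p j).2 a ≤ (p j).1 a + R) ∧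
      ∀ a a', a < a' → ∀ j, (p j).2 a ≤ (p j).1 a'

lemma card_Tubes_le (d M Q R : ℕ) : (Tubes d M Q R).card ≤ 2 ^ (2 * d * (Q + M)) := by
  classical
  unfold Tubes
  refine (Finset.card_filter_le _ _).trans ?_
  rw [Fintype.card_piFinset]
  simp only [Finset.card_product, Finset.prod_const, Finset.card_univ, Fintype.card_fin]
  have h := card_MonF_le M Q
  calc ((MonF M Q).card * (MonF M Q).card) ^ d ≤ (2 ^ (Q + M) * 2 ^ (Q + M)) ^ d :=
        Nat.pow_le_pow_left (Nat.mul_le_mul h h) d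
    _ = 2 ^ (2 * d * (Q + M)) := by
        rw [← pow_add, ← pow_mul]
        congr 1
        ring

/-- covering of the event that there is a long chain. -/
lemma cover (hd : 0 < d) {Q R M : ℕ} (hQ : 0 < Q) (hR : 0 < R) (hM : d * Q / R < M)
    (G : Finset (Fin d → ι)) (w : Fin d × ι → ℝ) (hw : ∀ r, w r ∈ Set.Ico (0 : ℝ) 1)
    (u v : ℝ) (hlen : u + v ≤ clen G (pos w)) :
    ∃ p ∈ Tubes d M Q R,
      u ≤ ∑ a, (blen (gbox Q (fun j => (p j).1 a) (fun j => (p j).2 a)) G w : ℝ) ∨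
      ∃ j0, w ∈ ChainIn (fun a => tbox Q R (fun j => (p j).1 a) j0) G ⌈v / d⌉₊ := by
  classical
  have hQ' : (0 : ℝ) < Q := by exact_mod_cast hQ
  have hd' : (0 : ℝ) < d := by exact_mod_cast hd
  obtain ⟨C, hCG, hC, hcard⟩ := exists_clen G (pos w)
  obtain ⟨x, y, hxm, hym, hxy, hdis, hpt⟩ := exists_tube Q R M hQ hR hM w hw C hC
  refine ⟨fun j => (fun a => x a j, fun a => y a j), ?_, ?_⟩
  · simp only [Tubes, mem_filter, Fintype.mem_piFinset, mem_product, mem_MonF]
    refine ⟨fun j => ⟨⟨hxm j, fun a => ?_⟩, ⟨hym j, fun a => (hxy a j).2.2⟩⟩,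
      fun a j => ⟨(hxy a j).1, (hxy a j).2.1⟩, hdis⟩
    exact (hxy a j).1.trans (hxy a j).2.2
  · simp only
    by_contra hcon
    push Not at hcon
    obtain ⟨h1, h2⟩ := hcon
    let Mn : Fin M → Finset (Fin d → ι) := fun a =>
      C.filter (fun α => ∀ j, w (j, α j) ∈ gbox Q (x a) (y a) j)
    let Th : Fin d → Finset (Fin d → ι) := fun j0 =>
      C.filter (fun α => ∃ a, ∀ j, w (j, α j) ∈ tbox Q R (x a) j0 j)
    have hcov : C ⊆ univ.biUnion Mn ∪ univ.biUnion Th := by
      intro α hα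
      obtain ⟨a, ha⟩ := hpt α hα
      have hlow : ∀ j, ((x a j : ℝ) - 1) / Q ≤ w (j, α j) := by
        intro j
        have h3 := (ha j).1
        have h4 : (⌊(Q : ℝ) * w (j, α j)⌋₊ : ℝ) ≤ (Q : ℝ) * w (j, α j) :=
          Nat.floor_le (mul_nonneg hQ'.le (hw (j, α j)).1)
        have h5 : (x a j : ℝ) ≤ (⌊(Q : ℝ) * w (j, α j)⌋₊ : ℝ) + 1 := by exact_mod_cast h3
        rw [div_le_iff₀ hQ']
        linarith
      have hupp : ∀ j, w (j, α j) < (y a j : ℝ) / Q := by
        intro j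
        have h3 := (ha j).2
        have h4 : (Q : ℝ) * w (j, α j) < (⌊(Q : ℝ) * w (j, α j)⌋₊ : ℝ) + 1 :=
          Nat.lt_floor_add_one _
        have h5 : (⌊(Q : ℝ) * w (j, α j)⌋₊ : ℝ) + 1 ≤ (y a j : ℝ) := by exact_mod_cast h3
        rw [lt_div_iff₀ hQ']
        linarith
      by_cases hall : ∀ j, (x a j : ℝ) / Q ≤ w (j, α j)
      · refine mem_union_left _ (mem_biUnion.mpr ⟨a, mem_univ _, mem_filter.mpr ⟨hα, fun j => ?_⟩⟩)
        exact ⟨hall j, hupp j⟩
      · push Not at hall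
        obtain ⟨j0, hj0⟩ := hall
        refine mem_union_right _ (mem_biUnion.mpr ⟨j0, mem_univ _, mem_filter.mpr
          ⟨hα, a, fun j => ?_⟩⟩)
        unfold tbox
        split_ifs with h
        · subst h
          exact ⟨hlow j, hj0⟩
        · refine ⟨hlow j, (hupp j).trans_le ?_⟩
          have h3 : (y a j : ℝ) ≤ x a j + R := by exact_mod_cast (hxy a j).2.1
          exact div_le_div_of_nonneg_right h3 hQ'.le
    have hMn : (((univ.biUnion Mn).card : ℕ) : ℝ) ≤
        ∑ a, (blen (gbox Q (x a) (y a)) G w : ℝ) := by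
      have h3 : (univ.biUnion Mn).card ≤ ∑ a, (Mn a).card := card_biUnion_le
      have h4 : ∀ a, (Mn a).card ≤ blen (gbox Q (x a) (y a)) G w := by
        intro a
        refine le_clen ?_ (hC.subset (filter_subset _ _))
        intro α hα
        obtain ⟨h5, h6⟩ := mem_filter.mp hα
        exact mem_box.mpr ⟨hCG h5, h6⟩
      have h5 : (univ.biUnion Mn).card ≤ ∑ a, blen (gbox Q (x a) (y a)) G w :=
        h3.trans (Finset.sum_le_sum fun a _ => h4 a)
      exact_mod_cast h5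
    have hTh : ∀ j0, ((Th j0).card : ℝ) < v / d := by
      intro j0
      have h3 : (Th j0).card < ⌈v / d⌉₊ := by
        by_contra h4
        push Not at h4
        apply h2 j0
        obtain ⟨C', hC', hc'⟩ := exists_subset_card_eq (s := Th j0) (n := ⌈v / (d : ℝ)⌉₊) h4
        refine ⟨C', fun α hα => hCG (mem_filter.mp (hC' hα)).1,
          hC.subset (hC'.trans (filter_subset _ _)), hc', fun α hα => (mem_filter.mp (hC' hα)).2⟩
      exact Nat.lt_ceil.mp h3
    have hTh' : (((univ.biUnion Th).card : ℕ) : ℝ) < v := by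
      have h3 : (univ.biUnion Th).card ≤ ∑ j0, (Th j0).card := card_biUnion_le
      have h4 : (((univ.biUnion Th).card : ℕ) : ℝ) ≤ ∑ j0, ((Th j0).card : ℝ) := by
        exact_mod_cast h3
      have h5 : ∑ j0, ((Th j0).card : ℝ) < ∑ _j0 : Fin d, v / d :=
        Finset.sum_lt_sum_of_nonempty ⟨⟨0, hd⟩, mem_univ _⟩ fun j0 _ => hTh j0
      have h6 : ∑ _j0 : Fin d, v / d = v := by
        rw [Finset.sum_const, Finset.card_univ, Fintype.card_fin, nsmul_eq_mul]
        field_simp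
      linarith
    have hfin : (C.card : ℝ) ≤ ((univ.biUnion Mn).card : ℝ) + ((univ.biUnion Th).card : ℝ) := by
      have := (card_le_card hcov).trans (card_union_le _ _)
      exact_mod_cast this
    rw [hcard] at hfin
    linarith

end Cover

theorem upper_thm {d : ℕ} (hd : 0 < d) {b : ℝ} (hb : 0 ≤ b)
    (P1 : ∀ ε > 0, ∀ᶠ t : ℕ in atTop, pexp d t ≤ (b + ε) * rt d t)
    (P2 : ∀ ε > 0, ∃ᶠ t : ℕ in atTop, (b - ε) * rt d t ≤ pexp d t) (ε δ : ℝ) (hε : 0 < ε)
    (hδ : 0 < δ) :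
    ∃ N0 : ℝ, ∃ η0 > 0, ∀ (ι : Type) [Fintype ι] (G : Finset (Fin d → ι)) (r : ℝ), 0 ≤ r →
      Reg G r → N0 ≤ rt d G.card → r * rt d G.card ≤ η0 →
        labels (Fin d × ι) {w | (b + ε) * rt d G.card ≤ (clen G (pos w) : ℝ)} ≤
          ENNReal.ofReal δ := by
  classical
  have hd' : (1 : ℝ) ≤ d := by exact_mod_cast hd
  have hd0 : (0 : ℝ) < d := by linarith
  -- choice of R
  set X0 : ℝ := 8 * d ^ 2 * Real.exp 2 / ε with hX0
  have hX00 : 0 < X0 := by positivity
  set R : ℕ := max d ⌈X0 ^ d⌉₊ with hRdef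
  have hRd : d ≤ R := le_max_left _ _
  have hR0 : 0 < R := lt_of_lt_of_le hd hRd
  have hR0' : (1 : ℝ) ≤ R := by exact_mod_cast hR0
  have hRX : X0 ≤ rt d ((R : ℝ) + 1) := by
    rw [le_rt_iff hd hX00.le (by positivity)]
    have h1 : X0 ^ d ≤ (⌈X0 ^ d⌉₊ : ℝ) := Nat.le_ceil _
    have h2 : (⌈X0 ^ d⌉₊ : ℝ) ≤ R := by exact_mod_cast le_max_right _ _
    linarith
  set C : ℝ := (24 * d + 8) / ε with hCdef
  have hC0 : 0 < C := by positivity
  have hCε : C * (ε / 4) = 6 * d + 2 := by rw [hCdef]; field_simp; ring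
  obtain ⟨κ0, hκ01, hκ0⟩ := box_exp hd hb P1 P2 (ε / 4) (by positivity) R C hC0
  set κ : ℝ := max κ0 (2 * d * (6 * d + 2) / ε) with hκdef
  have hκ1 : 1 ≤ κ := hκ01.trans (le_max_left _ _)
  have hκpos : 0 < κ := by linarith
  have hκ2 : 2 * d * (6 * d + 2) / ε ≤ κ := le_max_right _ _
  obtain ⟨N1, η0, hη0, hbox⟩ := hκ0 κ (le_max_left _ _)
  refine ⟨max (max N1 (2 * κ)) (max (2 * κ * R) (2 * κ * ((d + 1) / δ))), η0, hη0, ?_⟩
  intro ι _ G r hr hG hN hη
  have hN1 : N1 ≤ rt d G.card := ((le_max_left _ _).trans (le_max_left _ _)).trans hN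
  have hN2 : 2 * κ ≤ rt d G.card := ((le_max_right _ _).trans (le_max_left _ _)).trans hN
  have hN3 : 2 * κ * R ≤ rt d G.card := ((le_max_left _ _).trans (le_max_right _ _)).trans hN
  have hN4 : 2 * κ * ((d + 1) / δ) ≤ rt d G.card :=
    ((le_max_right _ _).trans (le_max_right _ _)).trans hN
  have hbox1 := hbox ι G r hr hG hN1 hη
  obtain ⟨hQ0, hQle, hQge, hmQ1, -, -⟩ := scale_facts hd hκpos (e := 1 / 2) (by norm_num)
    (by norm_num) G.card (by linarith)
  set m := rt d G.card with hm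
  have hm0 : 0 < m := by linarith
  set Q := ⌊m / κ⌋₊ with hQ
  have hQ0' : (0 : ℝ) < Q := by exact_mod_cast hQ0
  have hQ1' : (1 : ℝ) ≤ Q := by exact_mod_cast hQ0
  have hQR : (R : ℝ) ≤ Q := by
    refine le_trans ?_ hQge
    rw [show (1 - 1 / 2 : ℝ) * (m / κ) = m / (2 * κ) by field_simp; norm_num, le_div_iff₀ (by positivity)]
    linarith
  have hQδ : (d + 1) / δ ≤ Q := by
    refine le_trans ?_ hQge
    rw [show (1 - 1 / 2 : ℝ) * (m / κ) = m / (2 * κ) by field_simp; norm_num, le_div_iff₀ (by positivity)]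
    linarith
  have hQκ : κ * Q ≤ m := by
    rw [le_div_iff₀ hκpos] at hQle
    linarith
  set M : ℕ := d * Q / R + 1 with hMdef
  have hM0 : 0 < M := Nat.succ_pos _
  have hMQ : M ≤ Q + 1 := by
    have : d * Q / R ≤ Q := by
      calc d * Q / R ≤ R * Q / R := Nat.div_le_div_right (Nat.mul_le_mul_right Q hRd)
        _ = Q := Nat.mul_div_cancel_left Q hR0
    omega
  have hMR : (M : ℝ) ≤ 2 * d * Q / R := by
    have h1 : ((d * Q / R : ℕ) : ℝ) ≤ ((d * Q : ℕ) : ℝ) / R := Nat.cast_div_le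
    have h2 : (1 : ℝ) ≤ d * Q / R := by
      rw [le_div_iff₀ (by linarith)]
      calc 1 * (R : ℝ) = R := one_mul _
        _ ≤ 1 * Q := by linarith
        _ ≤ d * Q := by gcongr
    have h3 : (M : ℝ) = ((d * Q / R : ℕ) : ℝ) + 1 := by rw [hMdef]; push_cast; rfl
    have h4 : ((d * Q : ℕ) : ℝ) / R = d * Q / R := by push_cast; rfl
    rw [h3]
    rw [h4] at h1
    have h5 : 2 * (d : ℝ) * Q / R = d * Q / R + d * Q / R := by ring
    linarith
  set n0 : ℕ := ⌈(ε / 2 * m) / d⌉₊ with hn0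
  have hn0' : (ε / 2 * m) / d ≤ n0 := Nat.le_ceil _
  have hn0pos : 0 < n0 := Nat.ceil_pos.mpr (by positivity)
  -- the exponential rate
  set E : ℝ := Real.exp (-((6 * d + 2) * Q)) with hE
  have hA : ∀ p ∈ Tubes d M Q R, labels (Fin d × ι) {w | (b + ε / 2) * m ≤
      ∑ a, (blen (gbox Q (fun j => (p j).1 a) (fun j => (p j).2 a)) G w : ℝ)} ≤
      ENNReal.ofReal E := by
    intro p hp
    simp only [Tubes, mem_filter, Fintype.mem_piFinset, mem_product, mem_MonF] at hp
    obtain ⟨h1, h2, h3⟩ := hp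
    refine (main_bound hd hQ0 G (fun a j => (p j).1 a) (fun a j => (p j).2 a)
      (fun a j => (h2 a j).1) (fun a j => (h1 j).2.2 a) h3 (C / κ) (C * (b + ε / 4))
      (by positivity) (fun a hlt => ?_) ((b + ε / 2) * m) (by positivity)).trans
      (ENNReal.ofReal_le_ofReal (Real.exp_le_exp.mpr ?_))
    · exact hbox1 _ _ hlt (fun j => (h2 a j).2) (fun j => (h1 j).2.2 a)
    · have h4 : C * (b + ε / 2) * Q ≤ C / κ * ((b + ε / 2) * m) := by
        have h5 : C / κ * ((b + ε / 2) * m) = C * (b + ε / 2) * (m / κ) := by ring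
        rw [h5]
        gcongr
      have h6 : C * (b + ε / 4) * Q - C * (b + ε / 2) * Q = -(C * (ε / 4) * Q) := by ring
      rw [hCε] at h6
      linarith
  have hB : ∀ p ∈ Tubes d M Q R, ∀ j0, labels (Fin d × ι)
      (ChainIn (fun a => tbox Q R (fun j => (p j).1 a) j0) G n0) ≤ ENNReal.ofReal E := by
    intro p _ j0
    refine (thin_bound hd hM0 hQ0 G (fun a j => (p j).1 a) j0 n0 hn0pos ?_).trans
      (ENNReal.ofReal_le_ofReal (Real.exp_le_exp.mpr ?_))
    · refine le_trans ?_ hn0'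
      have hrt1 : 0 < rt d ((R : ℝ) + 1) := lt_of_lt_of_le hX00 hRX
      have h1 : rt d (((R : ℝ) + 1) ^ (d - 1)) * rt d ((R : ℝ) + 1) = (R : ℝ) + 1 := by
        rw [← rt_mul d (by positivity) (by positivity), ← pow_succ]
        have : d - 1 + 1 = d := Nat.succ_pred_eq_of_pos hd
        rw [this, rt_pow' hd (by positivity)]
      have h2 : rt d (((R : ℝ) + 1) ^ (d - 1)) = ((R : ℝ) + 1) / rt d ((R : ℝ) + 1) := by
        rw [eq_div_iff hrt1.ne', h1]
      have h3 : ((R : ℝ) + 1) / rt d ((R : ℝ) + 1) ≤ (2 * R) / X0 := by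
        have : (R : ℝ) + 1 ≤ 2 * R := by linarith
        gcongr
      rw [h2]
      calc Real.exp 2 * (M * (m / Q * (((R : ℝ) + 1) / rt d ((R : ℝ) + 1))))
          ≤ Real.exp 2 * ((2 * d * Q / R) * (m / Q * ((2 * R) / X0))) := by gcongr
        _ = 4 * d * Real.exp 2 * m / X0 := by field_simp; norm_num
        _ = (ε / 2 * m) / d := by rw [hX0]; field_simp; norm_num
    · have h1 : (6 * d + 2) * Q ≤ (ε / 2 * m) / d := by
        rw [le_div_iff₀ hd0]
        rw [div_le_iff₀ hε] at hκ2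
        calc (6 * (d : ℝ) + 2) * Q * d = (2 * d * (6 * d + 2)) * Q / 2 := by ring
          _ ≤ (κ * ε) * Q / 2 := by gcongr
          _ = ε / 2 * (κ * Q) := by ring
          _ ≤ ε / 2 * m := by gcongr
      linarith
  -- union bound
  have hcover : labels (Fin d × ι) {w | (b + ε) * m ≤ (clen G (pos w) : ℝ)} ≤
      labels (Fin d × ι) (⋃ p ∈ Tubes d M Q R, ({w | (b + ε / 2) * m ≤
        ∑ a, (blen (gbox Q (fun j => (p j).1 a) (fun j => (p j).2 a)) G w : ℝ)} ∪
        ⋃ j0 ∈ (Finset.univ : Finset (Fin d)),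
          ChainIn (fun a => tbox Q R (fun j => (p j).1 a) j0) G n0)) := by
    refine measure_mono_ae ?_
    filter_upwards [ae_labels_mem (Fin d × ι)] with w hw hlen
    have hlen' : (b + ε / 2) * m + ε / 2 * m ≤ (clen G (pos w) : ℝ) := by
      have : (b + ε) * m ≤ (clen G (pos w) : ℝ) := hlen
      linarith
    obtain ⟨p, hp, h⟩ := cover hd hQ0 hR0 (Nat.lt_succ_self _) G w hw _ _ hlen'
    refine Set.mem_iUnion₂.mpr ⟨p, hp, ?_⟩
    rcases h with h | ⟨j0, h⟩
    · exact Or.inl h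
    · exact Or.inr (Set.mem_iUnion₂.mpr ⟨j0, mem_univ _, h⟩)
  refine hcover.trans ((measure_biUnion_finset_le _ _).trans ?_)
  have hp : ∀ p ∈ Tubes d M Q R, labels (Fin d × ι) ({w | (b + ε / 2) * m ≤
        ∑ a, (blen (gbox Q (fun j => (p j).1 a) (fun j => (p j).2 a)) G w : ℝ)} ∪
        ⋃ j0 ∈ (Finset.univ : Finset (Fin d)),
          ChainIn (fun a => tbox Q R (fun j => (p j).1 a) j0) G n0) ≤
      ENNReal.ofReal ((d + 1) * E) := by
    intro p hp
    refine (measure_union_le _ _).trans ?_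
    calc _ ≤ ENNReal.ofReal E + ∑ j0 : Fin d, ENNReal.ofReal E := by
          refine add_le_add (hA p hp) ((measure_biUnion_finset_le _ _).trans ?_)
          exact Finset.sum_le_sum fun j0 _ => hB p hp j0
      _ = _ := by
          rw [Finset.sum_const, Finset.card_univ, Fintype.card_fin, nsmul_eq_mul,
            ← ENNReal.ofReal_natCast, ← ENNReal.ofReal_mul (by positivity),
            ← ENNReal.ofReal_add (by positivity) (by positivity)]
          congr 1
          ring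
  refine (Finset.sum_le_sum hp).trans ?_
  rw [Finset.sum_const, nsmul_eq_mul, ← ENNReal.ofReal_natCast,
    ← ENNReal.ofReal_mul (by positivity)]
  refine ENNReal.ofReal_le_ofReal ?_
  have hT : ((Tubes d M Q R).card : ℝ) ≤ Real.exp (6 * d * Q) := by
    have h1 := card_Tubes_le d M Q R
    have h2 : 2 * d * (Q + M) ≤ 6 * d * Q := by
      have : 2 * d * (Q + M) ≤ 2 * d * (3 * Q) := Nat.mul_le_mul_left _ (by omega)
      calc _ ≤ 2 * d * (3 * Q) := this
        _ = _ := by ring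
    have h3 : (Tubes d M Q R).card ≤ 2 ^ (6 * d * Q) :=
      h1.trans (Nat.pow_le_pow_right (by norm_num) h2)
    calc ((Tubes d M Q R).card : ℝ) ≤ ((2 ^ (6 * d * Q) : ℕ) : ℝ) := by exact_mod_cast h3
      _ = (2 : ℝ) ^ (6 * d * Q) := by push_cast; rfl
      _ ≤ (Real.exp 1) ^ (6 * d * Q) := by
          refine pow_le_pow_left₀ (by norm_num) ?_ _
          have := Real.add_one_le_exp (1 : ℝ)
          linarith
      _ = Real.exp (6 * d * Q) := by
          rw [← Real.exp_nat_mul]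
          congr 1
          push_cast
          ring
  calc ((Tubes d M Q R).card : ℝ) * ((d + 1) * E) ≤ Real.exp (6 * d * Q) * ((d + 1) * E) := by
        gcongr
    _ = (d + 1) * Real.exp (-(2 * Q)) := by
        rw [hE]
        have : Real.exp (6 * d * Q) * ((d + 1) * Real.exp (-((6 * d + 2) * Q))) =
            (d + 1) * (Real.exp (6 * d * Q) * Real.exp (-((6 * d + 2) * Q))) := by ring
        rw [this, ← Real.exp_add]
        congr 2
        ring
    _ ≤ (d + 1) * (1 / Q) := by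
        have h1 : Real.exp (-(2 * (Q : ℝ))) ≤ 1 / Q := by
          rw [Real.exp_neg, inv_eq_one_div]
          have := Real.add_one_le_exp (2 * (Q : ℝ))
          exact one_div_le_one_div_of_le hQ0' (by linarith)
        gcongr
    _ ≤ δ := by
        rw [div_le_iff₀ hδ] at hQδ
        rw [mul_one_div, div_le_iff₀ hQ0']
        linarith

end Pool.Agent.Lib.MP_f702fa_pr
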